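import Pool.Agent.Lib.MP_1b6260_al.Inv

set_option autoImplicit false
set_option linter.unusedSectionVars false

/-!
# Comparison with the group ring of the free group of rank three
Port of `Pool/Agent/Lib/MP_20522e_al/Gen.lean` (there: free associative ring, no inverses).
-/

namespace Pool.Agent.Lib.MP_1b6260_al

open Pool.Agent.Lib.MP_20522e_al

section
variable {A : Type*} [AltRing A]

/-- the subring generated by three elements and their inverses -/
def C3 (x y z : A) : NonUnitalSubring A :=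
  NonUnitalSubring.closure {1, x, y, z, iv x, iv y, iv z}

/-! ### letters -/

/-- `g` is the letter with index `i` or its inverse -/
def Lt (L : Fin 3 → A) (i : Fin 3) (g : A) : Prop := g = L i ∨ g = iv (L i)

section letters
variable {L : Fin 3 → A} [∀ i, IV (L i)]

theorem Lt_IV {i : Fin 3} {g : A} (h : Lt L i g) : IV g := by
  rcases h with rfl | rfl <;> infer_instance

theorem Lt_same {i : Fin 3} {g g' : A} (h : Lt L i g) (h' : Lt L i g') : g' = g ∨ g' = iv g := by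
  rcases h with rfl | rfl <;> rcases h' with rfl | rfl
  · exact Or.inl rfl
  · exact Or.inr rfl
  · right; rw [iv_iv]
  · exact Or.inl rfl

theorem asc_same {i : Fin 3} {g g' : A} (h : Lt L i g) (h' : Lt L i g') (c : A) :
    asc g g' c = 0 := by
  rcases Lt_same h h' with rfl | rfl
  · exact asc_aa _ _
  · exact asc_iv _ _

theorem kf_same {i : Fin 3} {g g' : A} (h : Lt L i g) (h' : Lt L i g') (b c : A) :
    kf g g' b c = 0 := by
  rcases Lt_same h h' with rfl | rfl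
  · exact kf12z _ _ _
  · exact kf_iv _ _ _

theorem kf_same13 {i : Fin 3} {g g' : A} (h : Lt L i g) (h' : Lt L i g') (b c : A) :
    kf g b g' c = 0 := by
  rw [kf23, kf_same h h', neg_zero]

theorem kf_same14 {i : Fin 3} {g g' : A} (h : Lt L i g) (h' : Lt L i g') (b c : A) :
    kf g b c g' = 0 := by
  rw [kf34, kf_same13 h h', neg_zero]

theorem kf_same23 {i : Fin 3} {g g' : A} (h : Lt L i g) (h' : Lt L i g') (b c : A) :
    kf b g g' c = 0 := by
  rw [kf12, kf_same13 h h', neg_zero]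

theorem kf_same24 {i : Fin 3} {g g' : A} (h : Lt L i g) (h' : Lt L i g') (b c : A) :
    kf b g c g' = 0 := by
  rw [kf12, kf_same14 h h', neg_zero]

theorem kf_same34 {i : Fin 3} {g g' : A} (h : Lt L i g) (h' : Lt L i g') (b c : A) :
    kf b c g g' = 0 := by
  rw [kf23, kf_same24 h h', neg_zero]

theorem pigeon4 : ∀ i j k l : Fin 3, i = j ∨ i = k ∨ i = l ∨ j = k ∨ j = l ∨ k = l := by
  decide

theorem kf_letters {i j k l : Fin 3} {a b c d : A} (ha : Lt L i a) (hb : Lt L j b)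
    (hc : Lt L k c) (hd : Lt L l d) : kf a b c d = 0 := by
  rcases pigeon4 i j k l with rfl | rfl | rfl | rfl | rfl | rfl
  · exact kf_same ha hb _ _
  · exact kf_same13 ha hc _ _
  · exact kf_same14 ha hd _ _
  · exact kf_same23 hb hc _ _
  · exact kf_same24 hb hd _ _
  · exact kf_same34 hc hd _ _

variable {I : AddSubgroup A} {C : NonUnitalSubring A}
  (hI : ∀ s ∈ I, ∀ a ∈ C, a * s ∈ I ∧ s * a ∈ I)
  (hC : ∀ i, ∀ g, Lt L i g → g ∈ C) (hw : asc (L 0) (L 1) (L 2) ∈ I)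
include hI hC hw

omit [∀ i, IV (L i)] hI hC in
theorem asc_L (i j k : Fin 3) : asc (L i) (L j) (L k) ∈ I := by
  have hz := I.zero_mem
  have e1 : asc (L 0) (L 2) (L 1) ∈ I := by rw [asc23]; exact I.neg_mem hw
  have e2 : asc (L 1) (L 0) (L 2) ∈ I := by rw [asc12]; exact I.neg_mem hw
  have e3 : asc (L 1) (L 2) (L 0) ∈ I := by rw [← asc_cyc]; exact hw
  have e4 : asc (L 2) (L 0) (L 1) ∈ I := by rw [asc_cyc]; exact hw
  have e5 : asc (L 2) (L 1) (L 0) ∈ I := by rw [asc12]; exact I.neg_mem e3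
  fin_cases i <;> fin_cases j <;> fin_cases k <;>
    first
    | assumption
    | (rw [asc_aa]; exact hz)
    | (rw [asc_bb]; exact hz)
    | (rw [asc_aba]; exact hz)

omit [∀ i, IV (L i)] hw in
theorem asc_Lt1 {i : Fin 3} {g b c : A} (hg : Lt L i g) (h : asc (L i) b c ∈ I) :
    asc g b c ∈ I := by
  rcases hg with rfl | rfl
  · exact h
  · have hm : iv (L i) ∈ C := hC i _ (Or.inr rfl)
    rw [asc_iv1]
    exact I.neg_mem (hI _ (hI _ h _ hm).1 _ hm).2

omit [∀ i, IV (L i)] in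
theorem asc_letters {i j k : Fin 3} {a b c : A} (ha : Lt L i a) (hb : Lt L j b)
    (hc : Lt L k c) : asc a b c ∈ I := by
  refine asc_Lt1 hI hC ha ?_
  rw [asc_cyc]
  refine asc_Lt1 hI hC hb ?_
  rw [asc_cyc]
  refine asc_Lt1 hI hC hc ?_
  rw [asc_cyc]
  exact asc_L hw _ _ _

omit hI hC hw in
/-- the auxiliary class -/
def MM (L : Fin 3 → A) (I : AddSubgroup A) (C : NonUnitalSubring A) : AddSubgroup A where
  carrier := {a | a ∈ C ∧ (∀ i j g g', Lt L i g → Lt L j g' → asc a g g' ∈ I) ∧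
    ∀ i j k g g' g'', Lt L i g → Lt L j g' → Lt L k g'' → kf a g g' g'' ∈ I}
  zero_mem' := ⟨C.zero_mem, fun _ _ g g' _ _ => by rw [asc_zero1]; exact I.zero_mem,
    fun _ _ _ _ _ _ _ _ _ => by unfold kf; simp [I.zero_mem]⟩
  add_mem' := by
    rintro a b ⟨h0, h1, h2⟩ ⟨h0', h3, h4⟩
    exact ⟨C.add_mem h0 h0', fun i j g g' hg hg' => by
      rw [asc_add1]; exact I.add_mem (h1 i j g g' hg hg') (h3 i j g g' hg hg'),
      fun i j k g g' g'' hg hg' hg'' => by
        rw [kf_add1]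
        exact I.add_mem (h2 i j k g g' g'' hg hg' hg'') (h4 i j k g g' g'' hg hg' hg'')⟩
  neg_mem' := by
    rintro a ⟨h0, h1, h2⟩
    refine ⟨C.neg_mem h0, fun i j g g' hg hg' => by
      rw [asc_neg1]; exact I.neg_mem (h1 i j g g' hg hg'), fun i j k g g' g'' hg hg' hg'' => ?_⟩
    have : kf (-a) g g' g'' = - kf a g g' g'' := by
      unfold kf; simp only [neg_mul, asc_neg1, mul_neg]; abel
    rw [this]; exact I.neg_mem (h2 i j k g g' g'' hg hg' hg'')

theorem MM_R1 {a g : A} {l : Fin 3} (ha : a ∈ MM L I C) (hg : Lt L l g) {i j : Fin 3} {g1 g2 : A}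
    (h1 : Lt L i g1) (h2 : Lt L j g2) : asc (a * g) g1 g2 ∈ I := by
  have e : asc (a * g) g1 g2 = kf a g g1 g2 + g * asc a g1 g2 + asc g g1 g2 * a := by
    unfold kf; abel
  rw [e]
  exact I.add_mem (I.add_mem (ha.2.2 _ _ _ _ _ _ hg h1 h2)
    (hI _ (ha.2.1 _ _ _ _ h1 h2) _ (hC _ _ hg)).1)
    (hI _ (asc_letters hI hC hw hg h1 h2) _ ha.1).2

theorem MM_L1 {a g : A} {l : Fin 3} (ha : a ∈ MM L I C) (hg : Lt L l g) {i j : Fin 3} {g1 g2 : A}
    (h1 : Lt L i g1) (h2 : Lt L j g2) : asc (g * a) g1 g2 ∈ I := by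
  have e : asc (g * a) g1 g2 = a * asc g g1 g2 + asc a g1 g2 * g - kf a g g1 g2 := by
    rw [kf12 a g g1 g2]; unfold kf; abel
  rw [e]
  exact I.sub_mem (I.add_mem (hI _ (asc_letters hI hC hw hg h1 h2) _ ha.1).1
    (hI _ (ha.2.1 _ _ _ _ h1 h2) _ (hC _ _ hg)).2)
    (ha.2.2 _ _ _ _ _ _ hg h1 h2)

omit [∀ i, IV (L i)] hw in
theorem MM_sq1 {b g d : A} {l : Fin 3} (hg : Lt L l g) (h : asc g b d ∈ I) :
    asc b (g * g) d ∈ I := by
  have hgC := hC _ _ hg
  rw [asc12, asc_sq]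
  exact I.neg_mem (I.add_mem (hI _ h _ hgC).1 (hI _ h _ hgC).2)

theorem MM_kfsq {a g c d : A} {l i j : Fin 3} (ha : a ∈ MM L I C) (hg : Lt L l g)
    (hc : Lt L i c) (hd : Lt L j d) : kf a (g * g) c d ∈ I := by
  rw [kf23]
  unfold kf
  refine I.neg_mem (I.sub_mem (I.sub_mem ?_ ?_) ?_)
  · apply MM_sq1 hI hC hg
    rw [asc12]
    exact I.neg_mem (MM_R1 hI hC hw ha hc hg hd)
  · refine (hI _ (MM_sq1 hI hC hg ?_) _ (hC _ _ hc)).1
    rw [asc12]
    exact I.neg_mem (ha.2.1 _ _ _ _ hg hd)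
  · refine (hI _ (MM_sq1 hI hC hg ?_) _ ha.1).2
    exact asc_letters hI hC hw hg hc hd

theorem MM_sq2 {g c d : A} {l i j : Fin 3} (hg : Lt L l g) (hc : Lt L i c)
    (hd : Lt L j d) : asc (g * g) c d ∈ I := by
  have hgC := hC _ _ hg
  rw [asc_sq]
  exact I.add_mem (hI _ (asc_letters hI hC hw hg hc hd) _ hgC).1
    (hI _ (asc_letters hI hC hw hg hc hd) _ hgC).2

theorem MM_R2 {a g c d : A} {l i j : Fin 3} (ha : a ∈ MM L I C) (hg : Lt L l g) (hc : Lt L i c)
    (hd : Lt L j d) : kf (a * g) g c d ∈ I := by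
  have hgC := hC _ _ hg
  have e1 := MM_kfsq hI hC hw ha hg hc hd
  have e2 : kf (a * g) g c d = kf a (g * g) c d + (g * g) * asc a c d + asc (g * g) c d * a -
      g * asc (a * g) c d - asc g c d * (a * g) := by
    unfold kf; rw [AltRing.right_alt]; abel
  rw [e2]
  refine I.sub_mem (I.sub_mem (I.add_mem (I.add_mem e1 ?_) ?_) ?_) ?_
  · exact (hI _ (ha.2.1 _ _ _ _ hc hd) _ (C.mul_mem hgC hgC)).1
  · exact (hI _ (MM_sq2 hI hC hw hg hc hd) _ ha.1).2
  · exact (hI _ (MM_R1 hI hC hw ha hg hc hd) _ hgC).1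
  · exact (hI _ (asc_letters hI hC hw hg hc hd) _ (C.mul_mem ha.1 hgC)).2

theorem MM_L2 {a g c d : A} {l i j : Fin 3} (ha : a ∈ MM L I C) (hg : Lt L l g) (hc : Lt L i c)
    (hd : Lt L j d) : kf (g * a) g c d ∈ I := by
  have hgC := hC _ _ hg
  have e1 := MM_kfsq hI hC hw ha hg hc hd
  have e2 : kf (g * a) g c d = kf a (g * g) c d - a * asc (g * g) c d - asc a c d * (g * g) +
      (g * a) * asc g c d + asc (g * a) c d * g := by
    rw [kf12 (g * a) g c d, kf12 a (g * g) c d]; unfold kf; rw [AltRing.left_alt]; abel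
  rw [e2]
  refine I.add_mem (I.add_mem (I.sub_mem (I.sub_mem e1 ?_) ?_) ?_) ?_
  · exact (hI _ (MM_sq2 hI hC hw hg hc hd) _ ha.1).1
  · exact (hI _ (ha.2.1 _ _ _ _ hc hd) _ (C.mul_mem hgC hgC)).2
  · exact (hI _ (asc_letters hI hC hw hg hc hd) _ (C.mul_mem hgC ha.1)).1
  · exact (hI _ (MM_L1 hI hC hw ha hg hc hd) _ hgC).2

theorem MM_R3 {a g c d : A} {l i j : Fin 3} (ha : a ∈ MM L I C) (hg : Lt L l g) (hc : Lt L i c)
    (hd : Lt L j d) (hv : Lt L l (iv g)) : kf (a * g) (iv g) c d ∈ I := by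
  have := Lt_IV hg
  unfold kf
  rw [mul_mul_iv]
  refine I.sub_mem (I.sub_mem (ha.2.1 _ _ _ _ hc hd) ?_) ?_
  · exact (hI _ (MM_R1 hI hC hw ha hg hc hd) _ (hC _ _ hv)).1
  · exact (hI _ (asc_letters hI hC hw hv hc hd) _ (C.mul_mem ha.1 (hC _ _ hg))).2

theorem MM_L3 {a g c d : A} {l i j : Fin 3} (ha : a ∈ MM L I C) (hg : Lt L l g) (hc : Lt L i c)
    (hd : Lt L j d) (hv : Lt L l (iv g)) : kf (g * a) (iv g) c d ∈ I := by
  have := Lt_IV hg
  rw [kf12]
  unfold kf
  rw [iv_mul_cancel]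
  refine I.neg_mem (I.sub_mem (I.sub_mem (ha.2.1 _ _ _ _ hc hd) ?_) ?_)
  · exact (hI _ (asc_letters hI hC hw hv hc hd) _ (C.mul_mem (hC _ _ hg) ha.1)).1
  · exact (hI _ (MM_L1 hI hC hw ha hg hc hd) _ (hC _ _ hv)).2

theorem MM_R4 {a g b c d : A} {l i j : Fin 3} (ha : a ∈ MM L I C) (hg : Lt L l g)
    (hb : Lt L l b) (hc : Lt L i c) (hd : Lt L j d) : kf (a * g) b c d ∈ I := by
  rcases Lt_same hg hb with rfl | rfl
  · exact MM_R2 hI hC hw ha hg hc hd
  · exact MM_R3 hI hC hw ha hg hc hd hb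

theorem MM_L4 {a g b c d : A} {l i j : Fin 3} (ha : a ∈ MM L I C) (hg : Lt L l g)
    (hb : Lt L l b) (hc : Lt L i c) (hd : Lt L j d) : kf (g * a) b c d ∈ I := by
  rcases Lt_same hg hb with rfl | rfl
  · exact MM_L2 hI hC hw ha hg hc hd
  · exact MM_L3 hI hC hw ha hg hc hd hb

theorem MM_R {a g : A} {l : Fin 3} (ha : a ∈ MM L I C) (hg : Lt L l g) : a * g ∈ MM L I C := by
  refine ⟨C.mul_mem ha.1 (hC _ _ hg), fun i j g1 g2 h1 h2 => MM_R1 hI hC hw ha hg h1 h2, ?_⟩
  intro i j k b c d hb hc hd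
  rcases pigeon4 l i j k with rfl | rfl | rfl | rfl | rfl | rfl
  · exact MM_R4 hI hC hw ha hg hb hc hd
  · rw [kf23]; exact I.neg_mem (MM_R4 hI hC hw ha hg hc hb hd)
  · rw [kf24]; exact I.neg_mem (MM_R4 hI hC hw ha hg hd hc hb)
  · rw [kf_same23 hb hc]; exact I.zero_mem
  · rw [kf_same24 hb hd]; exact I.zero_mem
  · rw [kf_same34 hc hd]; exact I.zero_mem

theorem MM_Lm {a g : A} {l : Fin 3} (ha : a ∈ MM L I C) (hg : Lt L l g) : g * a ∈ MM L I C := by
  refine ⟨C.mul_mem (hC _ _ hg) ha.1, fun i j g1 g2 h1 h2 => MM_L1 hI hC hw ha hg h1 h2, ?_⟩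
  intro i j k b c d hb hc hd
  rcases pigeon4 l i j k with rfl | rfl | rfl | rfl | rfl | rfl
  · exact MM_L4 hI hC hw ha hg hb hc hd
  · rw [kf23]; exact I.neg_mem (MM_L4 hI hC hw ha hg hc hb hd)
  · rw [kf24]; exact I.neg_mem (MM_L4 hI hC hw ha hg hd hc hb)
  · rw [kf_same23 hb hc]; exact I.zero_mem
  · rw [kf_same24 hb hd]; exact I.zero_mem
  · rw [kf_same34 hc hd]; exact I.zero_mem

theorem MM_letter {g : A} {l : Fin 3} (hg : Lt L l g) : g ∈ MM L I C :=
  ⟨hC _ _ hg, fun _ _ _ _ h1 h2 => asc_letters hI hC hw hg h1 h2,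
    fun _ _ _ _ _ _ h1 h2 h3 => by rw [kf_letters hg h1 h2 h3]; exact I.zero_mem⟩

omit [∀ i, IV (L i)] hI hC hw in
theorem MM_one (h1 : (1 : A) ∈ C) : (1 : A) ∈ MM L I C :=
  ⟨h1, fun _ _ _ _ _ _ => by rw [asc_one1]; exact I.zero_mem,
    fun _ _ _ _ _ _ _ _ _ => by unfold kf; simp [I.zero_mem]⟩

end letters

/-! ### comparison with the group ring -/

/-- left multiplications as a module endomorphism -/
def Lm (a : A) : Module.End ℤ A := (AddMonoidHom.mulLeft a).toIntLinearMap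

@[simp] theorem Lm_apply (a b : A) : Lm a b = a * b := rfl

/-- left multiplication by an invertible element as a unit -/
noncomputable def Lu (a : A) [IV a] : (Module.End ℤ A)ˣ where
  val := Lm a
  inv := Lm (iv a)
  val_inv := by ext b; exact mul_iv_cancel a b
  inv_val := by ext b; exact iv_mul_cancel a b

/-- the action of the free group -/
noncomputable def phi (L : Fin 3 → A) [∀ i, IV (L i)] : FreeGroup (Fin 3) →* Module.End ℤ A :=
  (Units.coeHom (Module.End ℤ A)).comp (FreeGroup.lift fun i => Lu (L i))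

/-- the section of the map to the group ring by iterated left multiplications -/
noncomputable def rr (L : Fin 3 → A) [∀ i, IV (L i)] (p : MonoidAlgebra ℤ (FreeGroup (Fin 3))) :
    A :=
  (MonoidAlgebra.lift ℤ (Module.End ℤ A) (FreeGroup (Fin 3)) (phi L) p) 1

section rr
variable (L : Fin 3 → A) [∀ i, IV (L i)]

theorem rr_add (p q : MonoidAlgebra ℤ (FreeGroup (Fin 3))) :
    rr L (p + q) = rr L p + rr L q := by
  unfold rr; rw [map_add]; rfl

theorem rr_neg (p : MonoidAlgebra ℤ (FreeGroup (Fin 3))) :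
    rr L (-p) = - rr L p := by
  unfold rr; rw [map_neg]; rfl

theorem rr_one : rr L 1 = 1 := by
  have h : MonoidAlgebra.lift ℤ (Module.End ℤ A) (FreeGroup (Fin 3)) (phi L) 1 = 1 := map_one _
  unfold rr; rw [h]; rfl

theorem rr_zero : rr L 0 = 0 := by
  unfold rr; rw [map_zero]; rfl

theorem rr_zsmul (n : ℤ) (p : MonoidAlgebra ℤ (FreeGroup (Fin 3))) :
    rr L (n • p) = n • rr L p := by
  unfold rr; rw [map_zsmul]; rfl

/-- shorthand for a group element in the group ring -/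
noncomputable def gr (w : FreeGroup (Fin 3)) : MonoidAlgebra ℤ (FreeGroup (Fin 3)) :=
  MonoidAlgebra.of ℤ (FreeGroup (Fin 3)) w

theorem gr_mul (w w' : FreeGroup (Fin 3)) : gr (w * w') = gr w * gr w' := map_mul _ _ _
theorem gr_one : gr 1 = 1 := map_one _

theorem rr_of_mul (i : Fin 3) (p : MonoidAlgebra ℤ (FreeGroup (Fin 3))) :
    rr L (gr (FreeGroup.of i) * p) = L i * rr L p := by
  unfold rr gr
  rw [map_mul, MonoidAlgebra.lift_of]
  have : phi L (FreeGroup.of i) = Lm (L i) := by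
    unfold phi
    rw [MonoidHom.comp_apply, FreeGroup.lift_apply_of]
    rfl
  rw [this]; rfl

theorem rr_inv_mul (i : Fin 3) (p : MonoidAlgebra ℤ (FreeGroup (Fin 3))) :
    rr L (gr (FreeGroup.of i)⁻¹ * p) = iv (L i) * rr L p := by
  unfold rr gr
  rw [map_mul, MonoidAlgebra.lift_of]
  have : phi L (FreeGroup.of i)⁻¹ = Lm (iv (L i)) := by
    unfold phi
    rw [MonoidHom.comp_apply, map_inv, FreeGroup.lift_apply_of]
    rfl
  rw [this]; rfl

end rr

section key
variable {L : Fin 3 → A} [∀ i, IV (L i)] {I : AddSubgroup A} {C : NonUnitalSubring A}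

/-- letter and group element correspond -/
def Cor (L : Fin 3 → A) (g : A) (w : FreeGroup (Fin 3)) : Prop :=
  ∃ i, (g = L i ∧ w = FreeGroup.of i) ∨ (g = iv (L i) ∧ w = (FreeGroup.of i)⁻¹)

omit [∀ i, IV (L i)] in
theorem Cor_Lt {g : A} {w : FreeGroup (Fin 3)} (h : Cor L g w) : ∃ i, Lt L i g := by
  obtain ⟨i, h | h⟩ := h
  · exact ⟨i, Or.inl h.1⟩
  · exact ⟨i, Or.inr h.1⟩

theorem rr_Cor {g : A} {w : FreeGroup (Fin 3)} (h : Cor L g w)
    (p : MonoidAlgebra ℤ (FreeGroup (Fin 3))) : rr L (gr w * p) = g * rr L p := by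
  obtain ⟨i, ⟨rfl, rfl⟩ | ⟨rfl, rfl⟩⟩ := h
  · exact rr_of_mul L i p
  · exact rr_inv_mul L i p

theorem rr_R (h1 : (1 : A) ∈ C) (hI : ∀ s ∈ I, ∀ a ∈ C, a * s ∈ I ∧ s * a ∈ I)
    (hC : ∀ i, ∀ g, Lt L i g → g ∈ C)
    (hM : ∀ a ∈ C, ∀ i j g g', Lt L i g → Lt L j g' → asc g a g' ∈ I)
    {g : A} {w : FreeGroup (Fin 3)} (hg : Cor L g w)
    (p : MonoidAlgebra ℤ (FreeGroup (Fin 3))) :
    rr L p ∈ C ∧ rr L (p * gr w) - rr L p * g ∈ I := by
  let P : MonoidAlgebra ℤ (FreeGroup (Fin 3)) → Prop := fun p =>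
    rr L p ∈ C ∧ rr L (p * gr w) - rr L p * g ∈ I
  obtain ⟨j, hj⟩ := Cor_Lt hg
  have step : ∀ (g' : A) (w' : FreeGroup (Fin 3)), Cor L g' w' → ∀ p, P p → P (gr w' * p) := by
    intro g' w' h' p hp
    obtain ⟨i, hi⟩ := Cor_Lt h'
    refine ⟨?_, ?_⟩
    · rw [rr_Cor h']; exact C.mul_mem (hC _ _ hi) hp.1
    · rw [mul_assoc, rr_Cor h', rr_Cor h']
      have e : g' * rr L (p * gr w) - (g' * rr L p) * g =
          g' * (rr L (p * gr w) - rr L p * g) - asc g' (rr L p) g := by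
        unfold asc; rw [mul_sub]; abel
      rw [e]
      exact I.sub_mem (hI _ hp.2 _ (hC _ _ hi)).1 (hM _ hp.1 _ _ _ _ hi hj)
  have word : ∀ v : FreeGroup (Fin 3), ∀ p, P p → P (gr v * p) := by
    intro v
    induction v using FreeGroup.induction_on with
    | C1 => intro p hp; rw [gr_one, one_mul]; exact hp
    | of i => intro p hp; exact step _ _ ⟨i, Or.inl ⟨rfl, rfl⟩⟩ p hp
    | inv_of i _ => intro p hp; exact step _ _ ⟨i, Or.inr ⟨rfl, rfl⟩⟩ p hp
    | mul a b iha ihb =>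
      intro p hp
      rw [gr_mul, mul_assoc]
      exact iha _ (ihb _ hp)
  have base : P 1 := by
    refine ⟨by rw [rr_one]; exact h1, ?_⟩
    rw [one_mul, rr_one, one_mul]
    have := rr_Cor hg 1
    rw [mul_one, rr_one, mul_one] at this
    rw [this, sub_self]
    exact I.zero_mem
  have hsingle : ∀ v : FreeGroup (Fin 3), P (gr v) := by
    intro v
    have := word v 1 base
    rwa [mul_one] at this
  change P p
  induction p using MonoidAlgebra.induction_on with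
  | of v => exact hsingle v
  | add a b ha hb =>
    refine ⟨by rw [rr_add]; exact C.add_mem ha.1 hb.1, ?_⟩
    have e : rr L ((a + b) * gr w) - rr L (a + b) * g =
        (rr L (a * gr w) - rr L a * g) + (rr L (b * gr w) - rr L b * g) := by
      rw [add_mul, rr_add, rr_add, add_mul]; abel
    rw [e]
    exact I.add_mem ha.2 hb.2
  | smul n a ha =>
    refine ⟨by rw [rr_zsmul]; exact zsmul_mem ha.1 n, ?_⟩
    rw [smul_mul_assoc, rr_zsmul, rr_zsmul, smul_mul_assoc, ← smul_sub]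
    exact I.zsmul_mem ha.2 n

end key

/-- an element of `C3` with zero image in the group ring of the free group lies in the ideal -/
theorem mem_of_map_zero {x y z : A} [IV x] [IV y] [IV z] {I : AddSubgroup A}
    (hI : ∀ s ∈ I, ∀ a ∈ C3 x y z, a * s ∈ I ∧ s * a ∈ I) (hw : asc x y z ∈ I)
    (π : A →+* MonoidAlgebra ℤ (FreeGroup (Fin 3)))
    (hx : π x = MonoidAlgebra.of ℤ (FreeGroup (Fin 3)) (FreeGroup.of 0))
    (hy : π y = MonoidAlgebra.of ℤ (FreeGroup (Fin 3)) (FreeGroup.of 1))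
    (hz : π z = MonoidAlgebra.of ℤ (FreeGroup (Fin 3)) (FreeGroup.of 2))
    {u : A} (huC : u ∈ C3 x y z) (hu : π u = 0) : u ∈ I := by
  let L : Fin 3 → A := ![x, y, z]
  have hLI : ∀ i, IV (L i) := by
    intro i
    fin_cases i
    · exact inferInstanceAs (IV x)
    · exact inferInstanceAs (IV y)
    · exact inferInstanceAs (IV z)
  have hC : ∀ i, ∀ g, Lt L i g → g ∈ C3 x y z := by
    intro i g hg
    refine NonUnitalSubring.subset_closure ?_
    fin_cases i <;> rcases hg with rfl | rfl <;> simp [L]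
  have h1C : (1 : A) ∈ C3 x y z := NonUnitalSubring.subset_closure (by simp)
  have hw' : asc (L 0) (L 1) (L 2) ∈ I := hw
  have hset : ∀ g, g ∈ ({1, x, y, z, iv x, iv y, iv z} : Set A) → g = 1 ∨ ∃ w, Cor L g w := by
    intro g hg
    simp only [Set.mem_insert_iff, Set.mem_singleton_iff] at hg
    rcases hg with h | h | h | h | h | h | h
    · exact Or.inl h
    · exact Or.inr ⟨_, 0, Or.inl ⟨h, rfl⟩⟩
    · exact Or.inr ⟨_, 1, Or.inl ⟨h, rfl⟩⟩
    · exact Or.inr ⟨_, 2, Or.inl ⟨h, rfl⟩⟩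
    · exact Or.inr ⟨_, 0, Or.inr ⟨h, rfl⟩⟩
    · exact Or.inr ⟨_, 1, Or.inr ⟨h, rfl⟩⟩
    · exact Or.inr ⟨_, 2, Or.inr ⟨h, rfl⟩⟩
  have hall : ∀ a ∈ C3 x y z, a ∈ MM L I (C3 x y z) := by
    intro a ha
    refine LR_mem (MM L I (C3 x y z)) {1, x, y, z, iv x, iv y, iv z} ?_ ?_ ?_ ha
    · intro g hg
      rcases hset g hg with rfl | ⟨w, hw⟩
      · exact MM_one h1C
      · obtain ⟨i, hi⟩ := Cor_Lt hw
        exact MM_letter hI hC hw' hi
    · intro g hg n hn
      rcases hset g hg with rfl | ⟨w, hw⟩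
      · rw [one_mul]; exact hn
      · obtain ⟨i, hi⟩ := Cor_Lt hw
        exact MM_Lm hI hC hw' hn hi
    · intro g hg n hn
      rcases hset g hg with rfl | ⟨w, hw⟩
      · rw [mul_one]; exact hn
      · obtain ⟨i, hi⟩ := Cor_Lt hw
        exact MM_R hI hC hw' hn hi
  have hM : ∀ a ∈ C3 x y z, ∀ i j g g', Lt L i g → Lt L j g' → asc g a g' ∈ I := by
    intro a ha i j g g' hg hg'
    rw [asc12]
    exact I.neg_mem ((hall a ha).2.1 _ _ _ _ hg hg')
  have hπ : ∀ g w, Cor L g w → π g = gr w := by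
    have hπL : ∀ i, π (L i) = gr (FreeGroup.of i) := by
      intro i
      fin_cases i
      · exact hx
      · exact hy
      · exact hz
    rintro g w ⟨i, ⟨rfl, rfl⟩ | ⟨rfl, rfl⟩⟩
    · exact hπL i
    · have e1 : π (L i) * π (iv (L i)) = 1 := by rw [← map_mul, mul_iv, map_one]
      rw [hπL] at e1
      calc π (iv (L i)) = gr ((FreeGroup.of i)⁻¹ * FreeGroup.of i) * π (iv (L i)) := by
            rw [inv_mul_cancel, gr_one, one_mul]
        _ = gr (FreeGroup.of i)⁻¹ * (gr (FreeGroup.of i) * π (iv (L i))) := by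
            rw [gr_mul, mul_assoc]
        _ = gr (FreeGroup.of i)⁻¹ := by rw [e1, mul_one]
  let N : AddSubgroup A :=
    { carrier := {a | a - rr L (π a) ∈ I}
      zero_mem' := by
        change (0 : A) - rr L (π 0) ∈ I
        rw [map_zero, rr_zero, sub_self]; exact I.zero_mem
      add_mem' := by
        intro a b ha hb
        change a + b - rr L (π (a + b)) ∈ I
        have e : a + b - rr L (π (a + b)) = (a - rr L (π a)) + (b - rr L (π b)) := by
          rw [map_add, rr_add]; abel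
        rw [e]; exact I.add_mem ha hb
      neg_mem' := by
        intro a ha
        change -a - rr L (π (-a)) ∈ I
        have e : -a - rr L (π (-a)) = -(a - rr L (π a)) := by
          rw [map_neg, rr_neg]; abel
        rw [e]; exact I.neg_mem ha }
  have hN1 : (1 : A) ∈ N := by
    change (1 : A) - rr L (π 1) ∈ I
    rw [map_one, rr_one, sub_self]; exact I.zero_mem
  have hNg : ∀ g w, Cor L g w → g ∈ N := by
    intro g w h
    change g - rr L (π g) ∈ I
    have := rr_Cor h 1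
    rw [mul_one, rr_one, mul_one] at this
    rw [hπ g w h, this, sub_self]; exact I.zero_mem
  have hNL : ∀ g w, Cor L g w → ∀ n ∈ N, g * n ∈ N := by
    intro g w h n hn
    obtain ⟨i, hi⟩ := Cor_Lt h
    change g * n - rr L (π (g * n)) ∈ I
    rw [map_mul, hπ g w h, rr_Cor h, ← mul_sub]
    exact (hI _ hn _ (hC _ _ hi)).1
  have hNR : ∀ g w, Cor L g w → ∀ n ∈ N, n * g ∈ N := by
    intro g w h n hn
    obtain ⟨i, hi⟩ := Cor_Lt h
    change n * g - rr L (π (n * g)) ∈ I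
    rw [map_mul, hπ g w h]
    have e : n * g - rr L (π n * gr w) = (n - rr L (π n)) * g -
        (rr L (π n * gr w) - rr L (π n) * g) := by
      rw [sub_mul]; abel
    rw [e]
    exact I.sub_mem (hI _ hn _ (hC _ _ hi)).2 (rr_R h1C hI hC hM h _).2
  have hkey : u ∈ N := by
    refine LR_mem N {1, x, y, z, iv x, iv y, iv z} ?_ ?_ ?_ huC
    · intro g hg
      rcases hset g hg with rfl | ⟨w, hw⟩
      · exact hN1
      · exact hNg g w hw
    · intro g hg n hn
      rcases hset g hg with rfl | ⟨w, hw⟩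
      · rw [one_mul]; exact hn
      · exact hNL g w hw n hn
    · intro g hg n hn
      rcases hset g hg with rfl | ⟨w, hw⟩
      · rw [mul_one]; exact hn
      · exact hNR g w hw n hn
  change u - rr L (π u) ∈ I at hkey
  rwa [hu, rr_zero, sub_zero] at hkey

end
end Pool.Agent.Lib.MP_1b6260_al
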