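import Pool.Agent.Lib.MP_1b6260_al.PCl

set_option autoImplicit false

/-!
# The localised orbit of the associator and its span
-/

namespace Pool.Agent.Lib.MP_1b6260_al

open Pool.Agent.Lib.MP_20522e_al

section
variable {A : Type*} [AltRing A]

open MulOpposite (op unop)

theorem U_U_iv (x m : A) [IV x] : U x (U (iv x) m) = m := by
  unfold U
  rw [flex (iv x) m, mul_iv_cancel, mul_iv_mul]

theorem U_iv_U (x m : A) [IV x] : U (iv x) (U x m) = m := by
  unfold U
  rw [flex x m, iv_mul_cancel, mul_mul_iv]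

theorem U_injective (x : A) [IV x] {m n : A} (h : U x m = U x n) : m = n := by
  rw [← U_iv_U x m, h, U_iv_U]

/-- the product of the three `U` operators -/
def TT (x y z m : A) : A := U x (U y (U z m))

theorem TT_add (x y z m n : A) : TT x y z (m + n) = TT x y z m + TT x y z n := by
  unfold TT; rw [U_add, U_add, U_add]

theorem TT_neg (x y z m : A) : TT x y z (-m) = -TT x y z m := by
  unfold TT; rw [U_neg, U_neg, U_neg]

theorem TT_injective (x y z : A) [IV x] [IV y] [IV z] {m n : A} (h : TT x y z m = TT x y z n) :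
    m = n := U_injective z (U_injective y (U_injective x h))

@[simp] theorem TT_zero (x y z : A) : TT x y z 0 = 0 := by unfold TT; simp

theorem iter_add (x y z : A) (N : ℕ) (m n : A) :
    (TT x y z)^[N] (m + n) = (TT x y z)^[N] m + (TT x y z)^[N] n := by
  induction N generalizing m n with
  | zero => rfl
  | succ N ih => simp only [Function.iterate_succ_apply]; rw [TT_add, ih]

theorem iter_neg (x y z : A) (N : ℕ) (m : A) :
    (TT x y z)^[N] (-m) = -(TT x y z)^[N] m := by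
  induction N generalizing m with
  | zero => rfl
  | succ N ih => simp only [Function.iterate_succ_apply]; rw [TT_neg, ih]

theorem iter_zero (x y z : A) (N : ℕ) : (TT x y z)^[N] 0 = 0 := by
  induction N with
  | zero => rfl
  | succ N ih => simp only [Function.iterate_succ_apply]; rw [TT_zero, ih]

theorem iter_injective (x y z : A) [IV x] [IV y] [IV z] (N : ℕ) {m : A}
    (h : (TT x y z)^[N] m = 0) : m = 0 := by
  induction N with
  | zero => exact h
  | succ N ih =>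
    rw [Function.iterate_succ_apply'] at h
    apply ih
    apply TT_injective x y z
    rw [h, TT_zero]

theorem Om_TT {x y z m : A} (hm : m ∈ Om x y z) : TT x y z m ∈ Om x y z :=
  Om_opr 3 (Om_opr 4 (Om_opr 5 hm))

theorem Om_iter {x y z m : A} (hm : m ∈ Om x y z) (N : ℕ) : (TT x y z)^[N] m ∈ Om x y z := by
  induction N with
  | zero => exact hm
  | succ N ih => rw [Function.iterate_succ_apply']; exact Om_TT ih

section
variable {x y z : A} [IV x] [IV y] [IV z]

theorem PP_TT {m : A} (h : PP x y z m) : PP x y z (TT x y z m) := PP_Ux (PP_Uy (PP_Uz h))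

theorem TT_opr {m : A} (h : PP x y z m) (i : Fin 10) :
    TT x y z (opr x y z i m) = opr x y z i (TT x y z m) := by
  change opr x y z 3 (opr x y z 4 (opr x y z 5 (opr x y z i m))) =
    opr x y z i (opr x y z 3 (opr x y z 4 (opr x y z 5 m)))
  rw [opr_comm h.old 5 i, opr_comm (opr_PP h 5).old 4 i,
    opr_comm (opr_PP (opr_PP h 5) 4).old 3 i]

theorem iter_opr {m : A} (h : PP x y z m) (N : ℕ) (i : Fin 10) :
    (TT x y z)^[N] (opr x y z i m) = opr x y z i ((TT x y z)^[N] m) := by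
  induction N generalizing m with
  | zero => rfl
  | succ N ih =>
    rw [Function.iterate_succ_apply, Function.iterate_succ_apply, TT_opr h, ih (PP_TT h)]

/-- the localised orbit -/
noncomputable def OL (x y z : A) [IV x] [IV y] [IV z] : AddSubgroup A where
  carrier := {m | PP x y z m ∧ ∃ N : ℕ, (TT x y z)^[N] m ∈ Om x y z}
  zero_mem' := ⟨PP_zero x y z, 0, AddSubgroup.zero_mem _⟩
  add_mem' := by
    rintro m n ⟨h1, N, hN⟩ ⟨h2, M, hM⟩
    refine ⟨PP_add h1 h2, N + M, ?_⟩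
    rw [iter_add]
    refine AddSubgroup.add_mem _ ?_ ?_
    · rw [add_comm, Function.iterate_add_apply]; exact Om_iter hN M
    · rw [Function.iterate_add_apply]; exact Om_iter hM N
  neg_mem' := by
    rintro m ⟨h1, N, hN⟩
    exact ⟨PP_neg h1, N, by rw [iter_neg]; exact AddSubgroup.neg_mem _ hN⟩

theorem OL_opr {m : A} (i : Fin 10) (hm : m ∈ OL x y z) : opr x y z i m ∈ OL x y z := by
  obtain ⟨h1, N, hN⟩ := hm
  exact ⟨opr_PP h1 i, N, by rw [iter_opr h1]; exact Om_opr i hN⟩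

theorem OL_Uix {m : A} (hm : m ∈ OL x y z) : U (iv x) m ∈ OL x y z := by
  obtain ⟨h1, N, hN⟩ := hm
  refine ⟨PP_Uix h1, N + 1, ?_⟩
  have h2 := PP_Uix h1
  have e : TT x y z (U (iv x) m) = opr x y z 4 (opr x y z 5 m) := by
    change opr x y z 3 (opr x y z 4 (opr x y z 5 (U (iv x) m))) = _
    rw [opr_comm (opr_PP h2 5).old 3 4, opr_comm h2.old 3 5]
    change opr x y z 4 (opr x y z 5 (U x (U (iv x) m))) = _
    rw [U_U_iv]
  rw [Function.iterate_succ_apply, e, iter_opr (opr_PP h1 5), iter_opr h1]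
  exact Om_opr 4 (Om_opr 5 hN)

theorem OL_Uiy {m : A} (hm : m ∈ OL x y z) : U (iv y) m ∈ OL x y z := by
  obtain ⟨h1, N, hN⟩ := hm
  refine ⟨PP_Uiy h1, N + 1, ?_⟩
  have h2 := PP_Uiy h1
  have e : TT x y z (U (iv y) m) = opr x y z 3 (opr x y z 5 m) := by
    change opr x y z 3 (opr x y z 4 (opr x y z 5 (U (iv y) m))) = _
    rw [opr_comm h2.old 4 5]
    change opr x y z 3 (opr x y z 5 (U y (U (iv y) m))) = _
    rw [U_U_iv]
  rw [Function.iterate_succ_apply, e, iter_opr (opr_PP h1 5), iter_opr h1]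
  exact Om_opr 3 (Om_opr 5 hN)

theorem OL_Uiz {m : A} (hm : m ∈ OL x y z) : U (iv z) m ∈ OL x y z := by
  obtain ⟨h1, N, hN⟩ := hm
  refine ⟨PP_Uiz h1, N + 1, ?_⟩
  have e : TT x y z (U (iv z) m) = opr x y z 3 (opr x y z 4 m) := by
    change opr x y z 3 (opr x y z 4 (U z (U (iv z) m))) = _
    rw [U_U_iv]
  rw [Function.iterate_succ_apply, e, iter_opr (opr_PP h1 4), iter_opr h1]
  exact Om_opr 3 (Om_opr 4 hN)

theorem asc_mem_OL : asc x y z ∈ OL x y z := ⟨PP_base x y z, 0, asc_mem_Om x y z⟩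

end

/-- stable subgroups which are also closed under the inverse operators -/
structure StabI (x y z : A) (N : AddSubgroup A) : Prop where
  st : Stab x y z N
  uix : ∀ m ∈ N, U (iv x) m ∈ N
  uiy : ∀ m ∈ N, U (iv y) m ∈ N
  uiz : ∀ m ∈ N, U (iv z) m ∈ N

theorem StabI.cyc {x y z : A} {N : AddSubgroup A} (h : StabI x y z N) : StabI y z x N :=
  ⟨h.st.cyc, h.uiy, h.uiz, h.uix⟩

theorem OL_StabI {x y z : A} [IV x] [IV y] [IV z] : StabI x y z (OL x y z) where
  st := {
    pp := fun _ hm => hm.1.old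
    vx := fun _ hm => OL_opr 0 hm
    vy := fun _ hm => OL_opr 1 hm
    vz := fun _ hm => OL_opr 2 hm
    ux := fun _ hm => OL_opr 3 hm
    uy := fun _ hm => OL_opr 4 hm
    uz := fun _ hm => OL_opr 5 hm
    uxy := fun _ hm => OL_opr 6 hm
    uxz := fun _ hm => OL_opr 7 hm
    uyz := fun _ hm => OL_opr 8 hm
    th := fun _ hm => OL_opr 9 hm }
  uix := fun _ hm => OL_Uix hm
  uiy := fun _ hm => OL_Uiy hm
  uiz := fun _ hm => OL_Uiz hm

section
variable {x y z : A} {N : AddSubgroup A}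

theorem mulL_apply (x s : A) : (AddMonoidHom.mulLeft x) s = x * s := rfl

theorem U_mul_self (x s : A) : x * ((s * x) * x) = (U x s) * x := by
  have h := flex x (s * x)
  unfold U
  rw [flex x s, h]

theorem SS_le_right [IV x] (h : StabI x y z N) :
    SS x y z N ≤ (SS x y z N).map (AddMonoidHom.mulRight x) := by
  have hs := h.st
  conv_lhs => rw [← SS_cyc hs]
  refine SS_le ?_ ?_ ?_ ?_ ?_ ?_ ?_ ?_ <;> intro m hm
  · refine ⟨x * U (iv x) m, SS_x_mul hs (SS0 (h.uix m hm)), ?_⟩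
    rw [AddMonoidHom.mulRight_apply]
    exact U_U_iv x m
  · refine ⟨x * (U (iv x) m * y), SS_x_mul hs (SS2 (h.uix m hm)), ?_⟩
    rw [AddMonoidHom.mulRight_apply]
    have e := Uz_mul_x (hs.pp _ (h.uix m hm)).cyc
    rw [U_U_iv] at e
    exact e
  · refine ⟨x * (U (iv x) m * z), SS_x_mul hs (SS3 (h.uix m hm)), ?_⟩
    rw [AddMonoidHom.mulRight_apply]
    have e := Uz_mul_y (hs.pp _ (h.uix m hm)).cyc
    rw [U_U_iv] at e
    exact e
  · exact ⟨m, SS0 hm, rfl⟩
  · refine ⟨x * ((U (iv x) m * y) * z) + U (iv x) m * asc x y z,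
      add_mem (SS_x_mul hs (SS23 (h.uix m hm))) (SS_asc hs (h.uix m hm)), ?_⟩
    rw [AddMonoidHom.mulRight_apply, add_mul]
    have e := Uz_mul_xy (hs.pp _ (h.uix m hm)).cyc
    rw [U_U_iv, ← asc_cyc] at e
    have e2 := m_asc_comm_x (hs.pp _ (h.uix m hm))
    rw [show x * (U (iv x) m * y * z) * x = U x (U (iv x) m * y * z) from rfl, e, e2]
    abel
  · exact ⟨m * y, SS2 hm, rfl⟩
  · exact ⟨m * z, SS3 hm, rfl⟩
  · exact ⟨(m * y) * z, SS23 hm, rfl⟩

theorem SS_mul_ix [IV x] (h : StabI x y z N) {s : A} (hs : s ∈ SS x y z N) :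
    s * iv x ∈ SS x y z N := by
  obtain ⟨t, ht, rfl⟩ := SS_le_right h hs
  rw [AddMonoidHom.mulRight_apply, mul_mul_iv]
  exact ht

theorem SS_mul_iy [IV y] (h : StabI x y z N) {s : A} (hs : s ∈ SS x y z N) :
    s * iv y ∈ SS x y z N := by
  rw [← SS_cyc h.st] at hs ⊢
  exact SS_mul_ix h.cyc hs

theorem SS_mul_iz [IV z] (h : StabI x y z N) {s : A} (hs : s ∈ SS x y z N) :
    s * iv z ∈ SS x y z N := by
  rw [← SS_cyc h.st] at hs ⊢
  exact SS_mul_iy h.cyc hs

theorem SS_le_left [IV x] (h : StabI x y z N) :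
    SS x y z N ≤ (SS x y z N).map (AddMonoidHom.mulLeft x) := by
  have hs := h.st
  conv_lhs => rw [← SS_cyc hs]
  refine SS_le ?_ ?_ ?_ ?_ ?_ ?_ ?_ ?_ <;> intro m hm
  · refine ⟨U (iv x) m * x, SS1 (h.uix m hm), ?_⟩
    rw [mulL_apply, ← U_def', U_U_iv]
  · refine ⟨(U (iv x) m * y) * x, SS21 hs (h.uix m hm), ?_⟩
    rw [mulL_apply, ← U_def']
    have e := Uz_mul_x (hs.pp _ (h.uix m hm)).cyc
    rw [U_U_iv] at e
    exact e
  · refine ⟨(U (iv x) m * z) * x, SS31 hs (h.uix m hm), ?_⟩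
    rw [mulL_apply, ← U_def']
    have e := Uz_mul_y (hs.pp _ (h.uix m hm)).cyc
    rw [U_U_iv] at e
    exact e
  · refine ⟨(U (iv x) m * x) * x, SS_mul_x hs (SS1 (h.uix m hm)), ?_⟩
    rw [mulL_apply, U_mul_self, U_U_iv]
  · refine ⟨((U (iv x) m * y) * z) * x + U (iv x) m * asc x y z,
      add_mem (SS231 hs (h.uix m hm)) (SS_asc hs (h.uix m hm)), ?_⟩
    rw [mulL_apply, mul_add, ← U_def']
    have e := Uz_mul_xy (hs.pp _ (h.uix m hm)).cyc
    rw [U_U_iv, ← asc_cyc] at e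
    rw [e]
    abel
  · refine ⟨((U (iv x) m * y) * x) * x, SS_mul_x hs (SS21 hs (h.uix m hm)), ?_⟩
    rw [mulL_apply, U_mul_self]
    have e := Uz_mul_x (hs.pp _ (h.uix m hm)).cyc
    rw [U_U_iv] at e
    rw [e]
  · refine ⟨((U (iv x) m * z) * x) * x, SS_mul_x hs (SS31 hs (h.uix m hm)), ?_⟩
    rw [mulL_apply, U_mul_self]
    have e := Uz_mul_y (hs.pp _ (h.uix m hm)).cyc
    rw [U_U_iv] at e
    rw [e]
  · refine ⟨(((U (iv x) m * y) * z) * x) * x + (U (iv x) m * asc x y z) * x,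
      add_mem (SS_mul_x hs (SS231 hs (h.uix m hm))) (SS_mul_x hs (SS_asc hs (h.uix m hm))), ?_⟩
    rw [mulL_apply, mul_add, U_mul_self]
    have e := Uz_mul_xy (hs.pp _ (h.uix m hm)).cyc
    rw [U_U_iv, ← asc_cyc] at e
    rw [e, sub_mul, ← flex x (U (iv x) m * asc x y z)]
    abel

theorem SS_ix_mul [IV x] (h : StabI x y z N) {s : A} (hs : s ∈ SS x y z N) :
    iv x * s ∈ SS x y z N := by
  obtain ⟨t, ht, rfl⟩ := SS_le_left h hs
  rw [mulL_apply, iv_mul_cancel]
  exact ht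

theorem SS_iy_mul [IV y] (h : StabI x y z N) {s : A} (hs : s ∈ SS x y z N) :
    iv y * s ∈ SS x y z N := by
  rw [← SS_cyc h.st] at hs ⊢
  exact SS_ix_mul h.cyc hs

theorem SS_iz_mul [IV z] (h : StabI x y z N) {s : A} (hs : s ∈ SS x y z N) :
    iv z * s ∈ SS x y z N := by
  rw [← SS_cyc h.st] at hs ⊢
  exact SS_iy_mul h.cyc hs

/-- `SS` is an ideal of the subring generated by `x, y, z` and their inverses -/
theorem SS_ideal [IV x] [IV y] [IV z] (h : StabI x y z N)
    {a : A} (ha : a ∈ NonUnitalSubring.closure {1, x, y, z, iv x, iv y, iv z}) {s : A}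
    (hs : s ∈ SS x y z N) : a * s ∈ SS x y z N ∧ s * a ∈ SS x y z N := by
  refine LR_closure (SS x y z N) {1, x, y, z, iv x, iv y, iv z} ?_ ?_ ha s hs
  · rintro g (rfl | rfl | rfl | rfl | rfl | rfl | rfl) n hn
    · rw [one_mul]; exact hn
    · exact SS_x_mul h.st hn
    · exact SS_y_mul h.st hn
    · exact SS_z_mul h.st hn
    · exact SS_ix_mul h hn
    · exact SS_iy_mul h hn
    · exact SS_iz_mul h hn
  · rintro g (rfl | rfl | rfl | rfl | rfl | rfl | rfl) n hn
    · rw [mul_one]; exact hn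
    · exact SS_mul_x h.st hn
    · exact SS_mul_y h.st hn
    · exact SS_mul_z h.st hn
    · exact SS_mul_ix h hn
    · exact SS_mul_iy h hn
    · exact SS_mul_iz h hn

end

/-! ### vanishing -/

section vanish
variable {R : Type*} [CommRing R] [IsDomain R] {p q r l m n a b g d : R}
  {x y z : A} [IV x] [IV y] [IV z]

theorem IV_map {B : Type*} [AltRing B] (ψ : A →+* B) (x : A) [IV x] : IV (ψ x) :=
  ⟨ψ (iv x), by rw [← map_mul, mul_iv, map_one], by rw [← map_mul, iv_mul, map_one]⟩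

theorem TT_map {B : Type*} [AltRing B] (ψ : A →+* B) (x y z m : A) :
    ψ (TT x y z m) = TT (ψ x) (ψ y) (ψ z) (ψ m) := by
  unfold TT U; simp only [map_mul]

theorem eval_loc (ψ : A →+* Oct R p q r)
    (hx : ψ x = XX p q r l) (hy : ψ y = YY p q r m n) (hz : ψ z = ZZ p q r a b g d)
    (u3 u4 u5 : R) (h3 : ee p q r l m n a b g d 3 * u3 = 1)
    (h4 : ee p q r l m n a b g d 4 * u4 = 1) (h5 : ee p q r l m n a b g d 5 * u5 = 1) (N : ℕ) :
    ∀ (w : A) (c : R), ψ ((TT x y z)^[N] w) = Wc p q r c →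
      ψ w = Wc p q r ((u3 * u4 * u5) ^ N * c) := by
  have i1 : IV (XX p q r l) := hx ▸ IV_map ψ x
  have i2 : IV (YY p q r m n) := hy ▸ IV_map ψ y
  have i3 : IV (ZZ p q r a b g d) := hz ▸ IV_map ψ z
  induction N with
  | zero => intro w c h; rw [pow_zero, one_mul]; exact h
  | succ N ih =>
    intro w c h
    rw [Function.iterate_succ_apply] at h
    have h' := ih _ _ h
    rw [TT_map, hx, hy, hz] at h'
    apply TT_injective (XX p q r l) (YY p q r m n) (ZZ p q r a b g d)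
    rw [h']
    change _ = opr (XX p q r l) (YY p q r m n) (ZZ p q r a b g d) 3
      (opr (XX p q r l) (YY p q r m n) (ZZ p q r a b g d) 4
        (opr (XX p q r l) (YY p q r m n) (ZZ p q r a b g d) 5 (Wc p q r _)))
    rw [opr_Wc, opr_Wc, opr_Wc]
    congr 1
    rw [pow_succ]
    linear_combination (-(u3 * u4 * u5) ^ N * c * (ee p q r l m n a b g d 4 * u4) *
      (ee p q r l m n a b g d 5 * u5)) * h3 - ((u3 * u4 * u5) ^ N * c *
      (ee p q r l m n a b g d 5 * u5)) * h4 - ((u3 * u4 * u5) ^ N * c) * h5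

/-- the vanishing statement for the localised orbit -/
theorem eq_zero_of_mem
    (hp : p ≠ 0) (hq : q ≠ 0) (hr : r ≠ 0) (h2 : (2 : R) ≠ 0)
    (h3 : IsUnit (ee p q r l m n a b g d 3)) (h4 : IsUnit (ee p q r l m n a b g d 4))
    (h5 : IsUnit (ee p q r l m n a b g d 5))
    (hinj : ∀ P : MvPolynomial (Fin 10) ℤ,
      MvPolynomial.eval₂Hom (Int.castRingHom R) (ee p q r l m n a b g d) P = 0 → P = 0)
    (ψ : A →+* Oct R p q r)
    (hx : ψ x = XX p q r l) (hy : ψ y = YY p q r m n) (hz : ψ z = ZZ p q r a b g d)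
    {u : A} (hu : u ∈ SS x y z (OL x y z)) (hψ : ψ u = 0) : u = 0 := by
  obtain ⟨u3, hu3⟩ := h3.exists_right_inv
  obtain ⟨u4, hu4⟩ := h4.exists_right_inv
  obtain ⟨u5, hu5⟩ := h5.exists_right_inv
  have key : ∀ w ∈ OL x y z, ∃ c : R, ψ w = Wc p q r c ∧ (c = 0 → w = 0) := by
    rintro w ⟨_, N, P, hP⟩
    have h := phi_eval p q r l m n a b g d ψ hx hy hz P
    rw [← hP] at h
    have h' := eval_loc ψ hx hy hz u3 u4 u5 hu3 hu4 hu5 N w _ h
    refine ⟨_, h', ?_⟩
    intro hc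
    have hne : (u3 * u4 * u5) ^ N ≠ 0 := by
      apply pow_ne_zero
      intro h0
      have : (ee p q r l m n a b g d 3 * ee p q r l m n a b g d 4 * ee p q r l m n a b g d 5) *
          (u3 * u4 * u5) = 1 := by
        linear_combination (ee p q r l m n a b g d 4 * u4) *
          (ee p q r l m n a b g d 5 * u5) * hu3 + (ee p q r l m n a b g d 5 * u5) * hu4 + hu5
      rw [h0, mul_zero] at this
      exact zero_ne_one this
    have hc1 := (mul_eq_zero.mp hc).resolve_left hne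
    have hP0 : P = 0 := hinj P ((mul_eq_zero.mp hc1).resolve_right h2)
    apply iter_injective x y z N
    rw [hP, hP0, map_zero]
    rfl
  obtain ⟨m0, h0, m1, h1, m2, h2', m3, h3', m4, h4', m5, h5', m6, h6, m7, h7, e⟩ := SS_form hu
  obtain ⟨c0, e0, k0⟩ := key m0 h0
  obtain ⟨c1, e1, k1⟩ := key m1 h1
  obtain ⟨c2, e2, k2⟩ := key m2 h2'
  obtain ⟨c3, e3, k3⟩ := key m3 h3'
  obtain ⟨c4, e4, k4⟩ := key m4 h4'
  obtain ⟨c5, e5, k5⟩ := key m5 h5'
  obtain ⟨c6, e6, k6⟩ := key m6 h6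
  obtain ⟨c7, e7, k7⟩ := key m7 h7
  rw [e] at hψ
  simp only [map_add, map_mul, e0, e1, e2, e3, e4, e5, e6, e7, hx, hy, hz] at hψ
  obtain ⟨q0, q1, q2, q3, q4, q5, q6, q7⟩ := words_indep p q r l m n a b g d hp hq hr hψ
  rw [e, k0 q0, k1 q1, k2 q2, k3 q3, k4 q4, k5 q5, k6 q6, k7 q7]
  simp

end vanish

end
end Pool.Agent.Lib.MP_1b6260_al
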