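import Mathlib

set_option autoImplicit false

/-!
# `1 + 2i, 1 + 2j, 1 + 2k` generate a free group of rank three modulo scalars
-/

namespace Pool.Agent.Lib.MP_1b6260_al

open Quaternion

theorem c_re (x : ℚ) : ((x : ℚ) : ℍ[ℚ]).re = x := rfl
theorem c_imI (x : ℚ) : ((x : ℚ) : ℍ[ℚ]).imI = 0 := rfl
theorem c_imJ (x : ℚ) : ((x : ℚ) : ℍ[ℚ]).imJ = 0 := rfl
theorem c_imK (x : ℚ) : ((x : ℚ) : ℍ[ℚ]).imK = 0 := rfl

theorem c_mul (x y : ℚ) : ((x * y : ℚ) : ℍ[ℚ]) = (x : ℍ[ℚ]) * (y : ℍ[ℚ]) := by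
  apply Quaternion.ext
  · rw [Quaternion.re_mul, c_re, c_re, c_re, c_imI, c_imI, c_imJ, c_imJ, c_imK, c_imK]; ring
  · rw [Quaternion.imI_mul, c_re, c_re, c_imI, c_imI, c_imI, c_imJ, c_imJ, c_imK, c_imK]; ring
  · rw [Quaternion.imJ_mul, c_re, c_re, c_imI, c_imI, c_imJ, c_imJ, c_imJ, c_imK, c_imK]; ring
  · rw [Quaternion.imK_mul, c_re, c_re, c_imI, c_imI, c_imJ, c_imJ, c_imK, c_imK, c_imK]; ring

theorem c_comm (x : ℚ) (y : ℍ[ℚ]) : (x : ℍ[ℚ]) * y = y * (x : ℍ[ℚ]) := by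
  apply Quaternion.ext
  · rw [Quaternion.re_mul, Quaternion.re_mul, c_re, c_imI, c_imJ, c_imK]; ring
  · rw [Quaternion.imI_mul, Quaternion.imI_mul, c_re, c_imI, c_imJ, c_imK]; ring
  · rw [Quaternion.imJ_mul, Quaternion.imJ_mul, c_re, c_imI, c_imJ, c_imK]; ring
  · rw [Quaternion.imK_mul, Quaternion.imK_mul, c_re, c_imI, c_imJ, c_imK]; ring

theorem c_normSq (x : ℚ) : Quaternion.normSq (x : ℍ[ℚ]) = x ^ 2 := by
  rw [Quaternion.normSq_def', c_re, c_imI, c_imJ, c_imK]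
  ring

/-- the three quaternions -/
def q3 (i : Fin 3) : ℍ[ℚ] :=
  match i with
  | 0 => ⟨1, 2, 0, 0⟩
  | 1 => ⟨1, 0, 2, 0⟩
  | 2 => ⟨1, 0, 0, 2⟩

theorem q3_ne (i : Fin 3) : q3 i ≠ 0 := by
  intro h
  have h1 := congrArg (fun q : ℍ[ℚ] => q.re) h
  fin_cases i <;> simp [q3] at h1

/-- the three quaternions as units -/
noncomputable def qu (i : Fin 3) : (ℍ[ℚ])ˣ := Units.mk0 (q3 i) (q3_ne i)

/-- the six letters of norm `5` -/
def aq (l : Fin 3 × Bool) : ℍ[ℚ] := cond l.2 (q3 l.1) (star (q3 l.1))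

/-- coordinates of the letters -/
def cc (t : Fin 3) (l : Fin 3 × Bool) : ℤ := if l.1 = t then cond l.2 2 (-2) else 0

theorem q3_re (i : Fin 3) : (q3 i).re = 1 := by fin_cases i <;> rfl
theorem q3_imI (i : Fin 3) : (q3 i).imI = if i = 0 then 2 else 0 := by fin_cases i <;> rfl
theorem q3_imJ (i : Fin 3) : (q3 i).imJ = if i = 1 then 2 else 0 := by fin_cases i <;> rfl
theorem q3_imK (i : Fin 3) : (q3 i).imK = if i = 2 then 2 else 0 := by fin_cases i <;> rfl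

theorem aq_re (l : Fin 3 × Bool) : (aq l).re = 1 := by
  obtain ⟨i, b⟩ := l
  cases b
  · show (star (q3 i)).re = 1
    rw [Quaternion.re_star, q3_re]
  · exact q3_re i

theorem aq_imI (l : Fin 3 × Bool) : (aq l).imI = cc 0 l := by
  obtain ⟨i, b⟩ := l
  cases b
  · show (star (q3 i)).imI = _
    rw [Quaternion.imI_star, q3_imI]
    by_cases h : i = 0 <;> simp [cc, h]
  · show (q3 i).imI = _
    rw [q3_imI]
    by_cases h : i = 0 <;> simp [cc, h]

theorem aq_imJ (l : Fin 3 × Bool) : (aq l).imJ = cc 1 l := by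
  obtain ⟨i, b⟩ := l
  cases b
  · show (star (q3 i)).imJ = _
    rw [Quaternion.imJ_star, q3_imJ]
    by_cases h : i = 1 <;> simp [cc, h]
  · show (q3 i).imJ = _
    rw [q3_imJ]
    by_cases h : i = 1 <;> simp [cc, h]

theorem aq_imK (l : Fin 3 × Bool) : (aq l).imK = cc 2 l := by
  obtain ⟨i, b⟩ := l
  cases b
  · show (star (q3 i)).imK = _
    rw [Quaternion.imK_star, q3_imK]
    by_cases h : i = 2 <;> simp [cc, h]
  · show (q3 i).imK = _
    rw [q3_imK]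
    by_cases h : i = 2 <;> simp [cc, h]

/-- integral quaternions -/
def Int4 (x : ℍ[ℚ]) : Prop := ∃ a b c d : ℤ, x.re = a ∧ x.imI = b ∧ x.imJ = c ∧ x.imK = d

/-- integral quaternions divisible by `5` -/
def I5 (x : ℍ[ℚ]) : Prop :=
  ∃ a b c d : ℤ, x.re = 5 * a ∧ x.imI = 5 * b ∧ x.imJ = 5 * c ∧ x.imK = 5 * d

theorem int4_one : Int4 1 := ⟨1, 0, 0, 0, by simp⟩

theorem int4_mul {x y : ℍ[ℚ]} (hx : Int4 x) (hy : Int4 y) : Int4 (x * y) := by
  obtain ⟨a, b, c, d, h1, h2, h3, h4⟩ := hx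
  obtain ⟨a', b', c', d', h1', h2', h3', h4'⟩ := hy
  refine ⟨a * a' - b * b' - c * c' - d * d', a * b' + b * a' + c * d' - d * c',
    a * c' - b * d' + c * a' + d * b', a * d' + b * c' - c * b' + d * a', ?_, ?_, ?_, ?_⟩
  · rw [Quaternion.re_mul, h1, h2, h3, h4, h1', h2', h3', h4']; push_cast; ring
  · rw [Quaternion.imI_mul, h1, h2, h3, h4, h1', h2', h3', h4']; push_cast; ring
  · rw [Quaternion.imJ_mul, h1, h2, h3, h4, h1', h2', h3', h4']; push_cast; ring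
  · rw [Quaternion.imK_mul, h1, h2, h3, h4, h1', h2', h3', h4']; push_cast; ring

theorem I5_mul {x y : ℍ[ℚ]} (hx : Int4 x) (hy : I5 y) : I5 (x * y) := by
  obtain ⟨a, b, c, d, h1, h2, h3, h4⟩ := hx
  obtain ⟨a', b', c', d', h1', h2', h3', h4'⟩ := hy
  refine ⟨a * a' - b * b' - c * c' - d * d', a * b' + b * a' + c * d' - d * c',
    a * c' - b * d' + c * a' + d * b', a * d' + b * c' - c * b' + d * a', ?_, ?_, ?_, ?_⟩
  · rw [Quaternion.re_mul, h1, h2, h3, h4, h1', h2', h3', h4']; push_cast; ring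
  · rw [Quaternion.imI_mul, h1, h2, h3, h4, h1', h2', h3', h4']; push_cast; ring
  · rw [Quaternion.imJ_mul, h1, h2, h3, h4, h1', h2', h3', h4']; push_cast; ring
  · rw [Quaternion.imK_mul, h1, h2, h3, h4, h1', h2', h3', h4']; push_cast; ring

theorem I5_sub {x y : ℍ[ℚ]} (hx : I5 x) (hy : I5 y) : I5 (x - y) := by
  obtain ⟨a, b, c, d, h1, h2, h3, h4⟩ := hx
  obtain ⟨a', b', c', d', h1', h2', h3', h4'⟩ := hy
  refine ⟨a - a', b - b', c - c', d - d', ?_, ?_, ?_, ?_⟩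
  · rw [Quaternion.re_sub, h1, h1']; push_cast; ring
  · rw [Quaternion.imI_sub, h2, h2']; push_cast; ring
  · rw [Quaternion.imJ_sub, h3, h3']; push_cast; ring
  · rw [Quaternion.imK_sub, h4, h4']; push_cast; ring

theorem I5_coe {x : ℍ[ℚ]} (hx : Int4 x) : I5 (((5 : ℚ) : ℍ[ℚ]) * x) := by
  obtain ⟨a, b, c, d, h1, h2, h3, h4⟩ := hx
  refine ⟨a, b, c, d, ?_, ?_, ?_, ?_⟩
  · rw [Quaternion.re_mul, h1, h2, h3, h4, c_re, c_imI, c_imJ, c_imK]; ring
  · rw [Quaternion.imI_mul, h1, h2, h3, h4, c_re, c_imI, c_imJ, c_imK]; ring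
  · rw [Quaternion.imJ_mul, h1, h2, h3, h4, c_re, c_imI, c_imJ, c_imK]; ring
  · rw [Quaternion.imK_mul, h1, h2, h3, h4, c_re, c_imI, c_imJ, c_imK]; ring

theorem I5_of_sixteen {x : ℍ[ℚ]} (hx : Int4 x) (h : I5 (((16 : ℚ) : ℍ[ℚ]) * x)) : I5 x := by
  obtain ⟨a, b, c, d, h1, h2, h3, h4⟩ := hx
  obtain ⟨a', b', c', d', h1', h2', h3', h4'⟩ := h
  rw [Quaternion.re_mul, h1, h2, h3, h4, c_re, c_imI, c_imJ, c_imK] at h1'
  rw [Quaternion.imI_mul, h1, h2, h3, h4, c_re, c_imI, c_imJ, c_imK] at h2'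
  rw [Quaternion.imJ_mul, h1, h2, h3, h4, c_re, c_imI, c_imJ, c_imK] at h3'
  rw [Quaternion.imK_mul, h1, h2, h3, h4, c_re, c_imI, c_imJ, c_imK] at h4'
  refine ⟨a' - 3 * a, b' - 3 * b, c' - 3 * c, d' - 3 * d, ?_, ?_, ?_, ?_⟩
  · rw [h1]; push_cast; linarith
  · rw [h2]; push_cast; linarith
  · rw [h3]; push_cast; linarith
  · rw [h4]; push_cast; linarith

theorem int4_aq (l : Fin 3 × Bool) : Int4 (aq l) :=
  ⟨1, cc 0 l, cc 1 l, cc 2 l, by rw [aq_re]; simp, aq_imI l, aq_imJ l, aq_imK l⟩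

theorem star_aq (l : Fin 3 × Bool) : star (aq l) = aq (l.1, !l.2) := by
  obtain ⟨i, b⟩ := l
  cases b <;> simp [aq]

theorem star_mul_aq (l : Fin 3 × Bool) : star (aq l) * aq l = ((5 : ℚ) : ℍ[ℚ]) := by
  have h5 : (cc 0 l) ^ 2 + (cc 1 l) ^ 2 + (cc 2 l) ^ 2 = 4 := by
    revert l; decide
  have h5' : ((cc 0 l : ℤ) : ℚ) ^ 2 + ((cc 1 l : ℤ) : ℚ) ^ 2 + ((cc 2 l : ℤ) : ℚ) ^ 2 = 4 := by
    exact_mod_cast h5
  apply Quaternion.ext
  · rw [Quaternion.re_mul, Quaternion.re_star, Quaternion.imI_star, Quaternion.imJ_star,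
      Quaternion.imK_star, aq_re, aq_imI, aq_imJ, aq_imK, c_re]
    linarith
  · rw [Quaternion.imI_mul, Quaternion.re_star, Quaternion.imI_star, Quaternion.imJ_star,
      Quaternion.imK_star, c_imI]
    ring
  · rw [Quaternion.imJ_mul, Quaternion.re_star, Quaternion.imI_star, Quaternion.imJ_star,
      Quaternion.imK_star, c_imJ]
    ring
  · rw [Quaternion.imK_mul, Quaternion.re_star, Quaternion.imI_star, Quaternion.imJ_star,
      Quaternion.imK_star, c_imK]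
    ring

theorem diff_unit (l l' : Fin 3 × Bool) (h : l ≠ l') :
    ∃ e : ℍ[ℚ], Int4 e ∧ e * (aq l - aq l') = ((16 : ℚ) : ℍ[ℚ]) := by
  have key : ∃ m : ℤ, m * ((cc 0 l - cc 0 l') ^ 2 + (cc 1 l - cc 1 l') ^ 2 +
      (cc 2 l - cc 2 l') ^ 2) = 16 := by
    have h1 : (cc 0 l - cc 0 l') ^ 2 + (cc 1 l - cc 1 l') ^ 2 + (cc 2 l - cc 2 l') ^ 2 = 16 ∨
      (cc 0 l - cc 0 l') ^ 2 + (cc 1 l - cc 1 l') ^ 2 + (cc 2 l - cc 2 l') ^ 2 = 8 := by
      revert l l'; decide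
    rcases h1 with h1 | h1
    · exact ⟨1, by rw [h1]; norm_num⟩
    · exact ⟨2, by rw [h1]; norm_num⟩
  obtain ⟨m, hm⟩ := key
  have hm' : (m : ℚ) * (((cc 0 l : ℤ) - (cc 0 l' : ℤ) : ℚ) ^ 2 +
      ((cc 1 l : ℤ) - (cc 1 l' : ℤ) : ℚ) ^ 2 + ((cc 2 l : ℤ) - (cc 2 l' : ℤ) : ℚ) ^ 2) = 16 := by
    exact_mod_cast hm
  refine ⟨((m : ℚ) : ℍ[ℚ]) * star (aq l - aq l'), ?_, ?_⟩
  · refine int4_mul ⟨m, 0, 0, 0, by simp⟩ ?_
    refine ⟨0, -(cc 0 l - cc 0 l'), -(cc 1 l - cc 1 l'), -(cc 2 l - cc 2 l'), ?_, ?_, ?_, ?_⟩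
    · rw [Quaternion.re_star, Quaternion.re_sub, aq_re, aq_re]; simp
    · rw [Quaternion.imI_star, Quaternion.imI_sub, aq_imI, aq_imI]; simp
    · rw [Quaternion.imJ_star, Quaternion.imJ_sub, aq_imJ, aq_imJ]; simp
    · rw [Quaternion.imK_star, Quaternion.imK_sub, aq_imK, aq_imK]; simp
  · set x : ℍ[ℚ] := aq l - aq l' with hx
    have e1 : x.re = 0 := by rw [hx, Quaternion.re_sub, aq_re, aq_re]; simp
    have e2 : x.imI = (cc 0 l : ℤ) - (cc 0 l' : ℤ) := by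
      rw [hx, Quaternion.imI_sub, aq_imI, aq_imI]
    have e3 : x.imJ = (cc 1 l : ℤ) - (cc 1 l' : ℤ) := by
      rw [hx, Quaternion.imJ_sub, aq_imJ, aq_imJ]
    have e4 : x.imK = (cc 2 l : ℤ) - (cc 2 l' : ℤ) := by
      rw [hx, Quaternion.imK_sub, aq_imK, aq_imK]
    rw [mul_assoc]
    have hxx : star x * x = (((x.imI ^ 2 + x.imJ ^ 2 + x.imK ^ 2 : ℚ)) : ℍ[ℚ]) := by
      apply Quaternion.ext
      · rw [Quaternion.re_mul, Quaternion.re_star, Quaternion.imI_star, Quaternion.imJ_star,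
          Quaternion.imK_star, c_re, e1]
        ring
      · rw [Quaternion.imI_mul, Quaternion.re_star, Quaternion.imI_star, Quaternion.imJ_star,
          Quaternion.imK_star, c_imI]
        ring
      · rw [Quaternion.imJ_mul, Quaternion.re_star, Quaternion.imI_star, Quaternion.imJ_star,
          Quaternion.imK_star, c_imJ]
        ring
      · rw [Quaternion.imK_mul, Quaternion.re_star, Quaternion.imI_star, Quaternion.imJ_star,
          Quaternion.imK_star, c_imK]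
        ring
    rw [hxx, ← c_mul, e2, e3, e4, hm']

/-- the main induction on reduced words -/
theorem reduced_word (L : List (Fin 3 × Bool)) : ∀ l : Fin 3 × Bool,
    FreeGroup.IsReduced (l :: L) →
    Int4 (((l :: L).map aq).prod) ∧ ¬ I5 (((l :: L).map aq).prod) ∧
      I5 (star (aq l) * ((l :: L).map aq).prod) := by
  induction L with
  | nil =>
    intro l _
    simp only [List.map_cons, List.map_nil, List.prod_cons, List.prod_nil, mul_one]
    refine ⟨int4_aq l, ?_, ?_⟩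
    · rintro ⟨a, b, c, d, h1, -⟩
      rw [aq_re] at h1
      have h3 : (1 : ℤ) = 5 * a := by exact_mod_cast h1
      omega
    · rw [star_mul_aq]
      have := I5_coe int4_one
      rwa [mul_one] at this
  | cons l' L ih =>
    intro l hl
    rw [FreeGroup.isReduced_cons_cons] at hl
    obtain ⟨hne, hr⟩ := hl
    obtain ⟨i1, i2, i3⟩ := ih l' hr
    set P' : ℍ[ℚ] := ((l' :: L).map aq).prod with hP'
    have hP : ((l :: l' :: L).map aq).prod = aq l * P' := by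
      rw [hP', List.map_cons, List.prod_cons]
    rw [hP]
    refine ⟨int4_mul (int4_aq l) i1, ?_, ?_⟩
    · intro h5
      apply i2
      have hll : l ≠ (l'.1, !l'.2) := by
        intro h
        have h1 : l.1 = l'.1 := by rw [h]
        have h2 := hne h1
        rw [h] at h2
        simp at h2
      obtain ⟨e, he, hee⟩ := diff_unit l (l'.1, !l'.2) hll
      have h6 : I5 (aq l * P' - star (aq l') * P') := I5_sub h5 i3
      rw [star_aq, ← sub_mul] at h6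
      have h7 := I5_mul he h6
      rw [← mul_assoc, hee] at h7
      exact I5_of_sixteen i1 h7
    · rw [← mul_assoc, star_mul_aq]
      exact I5_coe i1

theorem five_inv_q3 (i : Fin 3) : ((5 : ℚ) : ℍ[ℚ]) * (q3 i)⁻¹ = star (q3 i) := by
  have h1 : star (q3 i) * q3 i = ((5 : ℚ) : ℍ[ℚ]) := star_mul_aq (i, true)
  rw [← h1, mul_assoc, mul_inv_cancel₀ (q3_ne i), mul_one]

/-- the image of a word in the units of the rational quaternions -/
theorem word_image (L : List (Fin 3 × Bool)) : ∃ r : ℚ, r ≠ 0 ∧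
    ((r : ℚ) : ℍ[ℚ]) * (((L.map fun x => cond x.2 (qu x.1) (qu x.1)⁻¹).prod : (ℍ[ℚ])ˣ) : ℍ[ℚ]) =
      (L.map aq).prod := by
  induction L with
  | nil => exact ⟨1, one_ne_zero, by simp⟩
  | cons l L ih =>
    obtain ⟨r, hr, h⟩ := ih
    obtain ⟨i, b⟩ := l
    cases b
    · refine ⟨5 * r, by positivity, ?_⟩
      simp only [List.map_cons, List.prod_cons, cond_false, Units.val_mul]
      rw [← h]
      have h1 : (((qu i)⁻¹ : (ℍ[ℚ])ˣ) : ℍ[ℚ]) = (q3 i)⁻¹ := by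
        rw [Units.val_inv_eq_inv_val]
        rfl
      have h2 : aq (i, false) = star (q3 i) := rfl
      rw [h1, h2, ← five_inv_q3, c_mul]
      have hc : ((r : ℚ) : ℍ[ℚ]) * (q3 i)⁻¹ = (q3 i)⁻¹ * ((r : ℚ) : ℍ[ℚ]) :=
        (c_comm r _)
      rw [mul_assoc, ← mul_assoc ((r : ℚ) : ℍ[ℚ]), hc]
      simp only [mul_assoc]
    · refine ⟨r, hr, ?_⟩
      simp only [List.map_cons, List.prod_cons, cond_true, Units.val_mul]
      rw [← h]
      have h2 : ((qu i : (ℍ[ℚ])ˣ) : ℍ[ℚ]) = aq (i, true) := rfl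
      rw [h2, ← mul_assoc, c_comm r, mul_assoc]

theorem normSq_word (L : List (Fin 3 × Bool)) :
    Quaternion.normSq ((L.map aq).prod) = 5 ^ L.length := by
  induction L with
  | nil => simp
  | cons l L ih =>
    rw [List.map_cons, List.prod_cons, map_mul, ih, List.length_cons, pow_succ, mul_comm]
    congr 1
    have h1 := star_mul_aq l
    have h2 : Quaternion.normSq (star (aq l)) * Quaternion.normSq (aq l) = 5 * 5 := by
      rw [← map_mul, h1, c_normSq]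
      norm_num
    rw [Quaternion.normSq_star] at h2
    have h3 : 0 ≤ Quaternion.normSq (aq l) := Quaternion.normSq_nonneg
    nlinarith

/-- an element of the free group with scalar image is trivial (reduction modulo 5: the elements
`a(l)` are of norm `5`, `a(l) - a(l')` is invertible modulo 5 for distinct letters) -/
theorem free_mod_scalars (g : FreeGroup (Fin 3)) (c : ℚ)
    (h : ((FreeGroup.lift qu g : (ℍ[ℚ])ˣ) : ℍ[ℚ]) = (c : ℍ[ℚ])) : g = 1 := by
  rw [← FreeGroup.toWord_eq_nil_iff]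
  rcases hw : g.toWord with _ | ⟨l, L⟩
  · rfl
  exfalso
  have hred : FreeGroup.IsReduced (l :: L) := hw ▸ FreeGroup.isReduced_toWord
  obtain ⟨i1, i2, -⟩ := reduced_word L l hred
  obtain ⟨r, hr, h2⟩ := word_image (l :: L)
  have h3 : FreeGroup.lift qu g =
      ((l :: L).map fun x => cond x.2 (qu x.1) (qu x.1)⁻¹).prod := by
    rw [← FreeGroup.lift_mk, ← hw, FreeGroup.mk_toWord]
  rw [← h3, h, ← c_mul] at h2
  have hn := normSq_word (l :: L)
  rw [← h2] at i1 i2 hn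
  rw [c_normSq] at hn
  obtain ⟨s, _, _, _, hs, -⟩ := i1
  rw [c_re] at hs
  rw [hs] at hn i2
  have hn' : s ^ 2 = 5 ^ (l :: L).length := by exact_mod_cast hn
  have h5 : (5 : ℤ) ∣ s := by
    have : (5 : ℤ) ∣ s ^ 2 := by
      rw [hn', List.length_cons]
      exact dvd_pow_self 5 (Nat.succ_ne_zero _)
    exact (show Prime (5 : ℤ) by norm_num).dvd_of_dvd_pow this
  obtain ⟨s', rfl⟩ := h5
  apply i2
  exact ⟨s', 0, 0, 0, by simp⟩

end Pool.Agent.Lib.MP_1b6260_al
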