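import Pool.Agent.Lib.MP_20522e_al.Center
import Pool.Agent.Lib.MP_1b6260_al.Fre

set_option autoImplicit false

/-!
# Generic octonions over a ring of power series, with a quaternion specialisation
-/

namespace Pool.Agent.Lib.MP_1b6260_al

open Pool.Agent.Lib.MP_20522e_al
open Quaternion

/-- the ring of power series in ten variables -/
abbrev RR : Type := MvPowerSeries (Fin 10) ℚ

instance : IsDomain RR := NoZeroDivisors.to_isDomain _

/-- the base point `p = q = -4, r = 0, l = m = a = 1, n = b = g = 0, d = 1/2` -/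
def bp (i : Fin 10) : ℚ :=
  match i with
  | 0 => -4
  | 1 => -4
  | 2 => 0
  | 3 => 1
  | 4 => 1
  | 5 => 0
  | 6 => 1
  | 7 => 0
  | 8 => 0
  | 9 => 1 / 2

/-- the ten parameters -/
noncomputable def vv (i : Fin 10) : RR := MvPowerSeries.C (bp i) + MvPowerSeries.X i

theorem cc_vv (i : Fin 10) : MvPowerSeries.constantCoeff (vv i) = bp i := by
  simp [vv]

/-- generic octonions -/
abbrev OO : Type := Oct RR (vv 0) (vv 1) (vv 2)

/-- the generators -/
noncomputable def gX : OO := XX _ _ _ (vv 3)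
noncomputable def gY : OO := YY _ _ _ (vv 4) (vv 5)
noncomputable def gZ : OO := ZZ _ _ _ (vv 6) (vv 7) (vv 8) (vv 9)

/-- the ten eigenvalues -/
noncomputable def eev (i : Fin 10) : RR :=
  ee (vv 0) (vv 1) (vv 2) (vv 3) (vv 4) (vv 5) (vv 6) (vv 7) (vv 8) (vv 9) i

theorem vv0_ne : vv 0 ≠ 0 := by
  intro h
  have h1 := congrArg (MvPowerSeries.constantCoeff (σ := Fin 10) (R := ℚ)) h
  rw [cc_vv, map_zero] at h1
  norm_num [bp] at h1
theorem vv1_ne : vv 1 ≠ 0 := by
  intro h
  have h1 := congrArg (MvPowerSeries.constantCoeff (σ := Fin 10) (R := ℚ)) h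
  rw [cc_vv, map_zero] at h1
  norm_num [bp] at h1
theorem vv2_ne : vv 2 ≠ 0 := by
  intro h
  have h1 := congrArg (MvPowerSeries.coeff (R := ℚ) (Finsupp.single (2 : Fin 10) 1)) h
  have e : vv 2 = MvPowerSeries.X 2 := by
    unfold vv bp
    simp
  rw [e, MvPowerSeries.coeff_index_single_self_X, map_zero] at h1
  exact one_ne_zero h1
theorem two_ne : (2 : RR) ≠ 0 := by
  intro h
  have h1 := congrArg (MvPowerSeries.constantCoeff (σ := Fin 10) (R := ℚ)) h
  rw [map_ofNat, map_zero] at h1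
  norm_num at h1
/-- the norms of the generators are units -/
theorem eev3_unit : IsUnit (eev 3) := by
  rw [MvPowerSeries.isUnit_iff_constantCoeff]
  simp only [eev, ee, map_sub, map_add, map_mul, map_pow, cc_vv, bp]
  norm_num
theorem eev4_unit : IsUnit (eev 4) := by
  rw [MvPowerSeries.isUnit_iff_constantCoeff]
  simp only [eev, ee, map_sub, map_add, map_mul, map_pow, cc_vv, bp]
  norm_num
theorem eev5_unit : IsUnit (eev 5) := by
  rw [MvPowerSeries.isUnit_iff_constantCoeff]
  simp only [eev, ee, map_sub, map_add, map_mul, map_pow, cc_vv, bp]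
  norm_num

/-- the substitution of the shifted variables -/
noncomputable def sg : MvPolynomial (Fin 10) ℤ →+* RR :=
  MvPolynomial.eval₂Hom (Int.castRingHom RR) vv

/-- the shift of the variables -/
noncomputable def sh (s : ℚ) : MvPolynomial (Fin 10) ℚ →ₐ[ℚ] MvPolynomial (Fin 10) ℚ :=
  MvPolynomial.aeval fun i => MvPolynomial.X i + MvPolynomial.C (s * bp i)

theorem sh_sh (P : MvPolynomial (Fin 10) ℚ) : sh (-1) (sh 1 P) = P := by
  have : (sh (-1)).comp (sh 1) = AlgHom.id ℚ _ := by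
    apply MvPolynomial.algHom_ext
    intro i
    simp only [AlgHom.comp_apply, sh, MvPolynomial.aeval_X, map_add, AlgHom.id_apply,
      MvPolynomial.aeval_C, MvPolynomial.algebraMap_eq, one_mul]
    rw [add_assoc, ← MvPolynomial.C_add]
    have : -1 * bp i + bp i = 0 := by ring
    rw [this, MvPolynomial.C_0, add_zero]
  have h := congrArg (fun f : MvPolynomial (Fin 10) ℚ →ₐ[ℚ] MvPolynomial (Fin 10) ℚ => f P) this
  simpa using h

theorem sg_eq : sg = ((MvPolynomial.coeToMvPowerSeries.ringHom (σ := Fin 10) (R := ℚ)).comp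
    (sh 1).toRingHom).comp (MvPolynomial.map (Int.castRingHom ℚ)) := by
  apply MvPolynomial.ringHom_ext
  · intro k
    simp [sg]
  · intro i
    simp only [sg, MvPolynomial.eval₂Hom_X', RingHom.comp_apply, MvPolynomial.map_X]
    have e : (sh 1).toRingHom (MvPolynomial.X i)
        = MvPolynomial.X i + MvPolynomial.C (bp i) := by
      change sh 1 (MvPolynomial.X i) = _
      simp [sh]
    rw [e, map_add, MvPolynomial.coeToMvPowerSeries.ringHom_apply,
      MvPolynomial.coeToMvPowerSeries.ringHom_apply, MvPolynomial.coe_X, MvPolynomial.coe_C,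
      add_comm]
    rfl

theorem sg_inj (P : MvPolynomial (Fin 10) ℤ) (hP : sg P = 0) : P = 0 := by
  rw [sg_eq] at hP
  simp only [RingHom.comp_apply, MvPolynomial.coeToMvPowerSeries.ringHom_apply] at hP
  have h1 : (sh 1).toRingHom (MvPolynomial.map (Int.castRingHom ℚ) P) = 0 :=
    MvPolynomial.coe_injective _ _ (hP.trans (MvPolynomial.coe_zero).symm)
  have h2 : sh 1 (MvPolynomial.map (Int.castRingHom ℚ) P) = 0 := h1
  have h3 := sh_sh (MvPolynomial.map (Int.castRingHom ℚ) P)
  rw [h2, map_zero] at h3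
  have hinj := MvPolynomial.map_injective (σ := Fin 10) (Int.castRingHom ℚ)
    (RingHom.injective_int _)
  exact hinj (by rw [← h3, map_zero])

/-- the eigenvalues are algebraically independent (use `ee_inj`, `ee_map`) -/
theorem eev_inj (P : MvPolynomial (Fin 10) ℤ)
    (hP : MvPolynomial.eval₂Hom (Int.castRingHom RR) eev P = 0) : P = 0 := by
  apply ee_inj
  apply sg_inj
  rw [← RingHom.comp_apply]
  have : sg.comp (MvPolynomial.eval₂Hom (Int.castRingHom (MvPolynomial (Fin 10) ℤ))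
      (ee (MvPolynomial.X 0) (MvPolynomial.X 1) (MvPolynomial.X 2) (MvPolynomial.X 3)
        (MvPolynomial.X 4) (MvPolynomial.X 5) (MvPolynomial.X 6) (MvPolynomial.X 7)
        (MvPolynomial.X 8) (MvPolynomial.X 9)))
      = MvPolynomial.eval₂Hom (Int.castRingHom RR) eev := by
    apply MvPolynomial.ringHom_ext
    · intro k
      simp
    · intro i
      rw [RingHom.comp_apply, MvPolynomial.eval₂Hom_X', MvPolynomial.eval₂Hom_X', ee_map]
      have hX : ∀ j, sg (MvPolynomial.X j) = vv j := fun j => MvPolynomial.eval₂Hom_X' _ _ _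
      simp only [hX]
      rfl
  rw [this]
  exact hP

/-- the norm -/
def nm {R : Type*} [CommRing R] {p q r : R} (u : Oct R p q r) : R :=
  u.c0 ^ 2 - p * u.c1 ^ 2 - q * u.c2 ^ 2 + p * q * u.c3 ^ 2 - r * u.c4 ^ 2 + p * r * u.c5 ^ 2 +
    q * r * u.c6 ^ 2 - p * q * r * u.c7 ^ 2

theorem nm_mul {R : Type*} [CommRing R] {p q r : R} (u v : Oct R p q r) :
    nm (u * v) = nm u * nm v := by
  obtain ⟨a0, a1, a2, a3, a4, a5, a6, a7⟩ := u
  obtain ⟨b0, b1, b2, b3, b4, b5, b6, b7⟩ := v
  simp only [nm, Oct.mul_def]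
  ring

theorem nm_one {R : Type*} [CommRing R] {p q r : R} : nm (1 : Oct R p q r) = 1 := by
  simp [nm, Oct.one_def]

/-- an octonion with invertible norm is invertible -/
theorem inv_of_nm {R : Type*} [CommRing R] {p q r : R} (u : Oct R p q r) (h : IsUnit (nm u)) :
    ∃ v : Oct R p q r, u * v = 1 ∧ v * u = 1 := by
  obtain ⟨w, hw⟩ := h.exists_right_inv
  refine ⟨⟨w * u.c0, -(w * u.c1), -(w * u.c2), -(w * u.c3), -(w * u.c4), -(w * u.c5),
    -(w * u.c6), -(w * u.c7)⟩, ?_, ?_⟩
  · rw [Oct.mul_def, Oct.one_def]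
    unfold nm at hw
    ext
    · simp only; linear_combination hw
    all_goals simp only; ring
  · rw [Oct.mul_def, Oct.one_def]
    unfold nm at hw
    ext
    · simp only; linear_combination hw
    all_goals simp only; ring

theorem cc0 : MvPowerSeries.constantCoeff (vv 0) = -4 := by rw [cc_vv]; rfl
theorem cc1 : MvPowerSeries.constantCoeff (vv 1) = -4 := by rw [cc_vv]; rfl
theorem cc2 : MvPowerSeries.constantCoeff (vv 2) = 0 := by rw [cc_vv]; rfl

theorem qq_mul (a b c d a' b' c' d' : ℚ) :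
    ((⟨a, b, c, d⟩ : ℍ[ℚ]) * (⟨a', b', c', d'⟩ : ℍ[ℚ])) =
    ⟨a * a' - b * b' - c * c' - d * d', a * b' + b * a' + c * d' - d * c',
      a * c' - b * d' + c * a' + d * b', a * d' + b * c' - c * b' + d * a'⟩ := by
  apply Quaternion.ext
  · exact Quaternion.re_mul _ _
  · exact Quaternion.imI_mul _ _
  · exact Quaternion.imJ_mul _ _
  · exact Quaternion.imK_mul _ _

theorem qq_add (a b c d a' b' c' d' : ℚ) :
    ((⟨a, b, c, d⟩ : ℍ[ℚ]) + (⟨a', b', c', d'⟩ : ℍ[ℚ])) =
    ⟨a + a', b + b', c + c', d + d'⟩ := rfl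

/-- the specialisation -/
noncomputable def sp : OO →+* ℍ[ℚ] where
  toFun u := ⟨MvPowerSeries.constantCoeff u.c0, 2 * MvPowerSeries.constantCoeff u.c1,
    2 * MvPowerSeries.constantCoeff u.c2, 4 * MvPowerSeries.constantCoeff u.c3⟩
  map_zero' := by
    rw [Oct.zero_def]
    ext <;> simp
  map_one' := by
    rw [Oct.one_def]
    ext <;> simp
  map_add' := by
    intro u v
    rw [Oct.add_def]
    refine Eq.trans ?_ (qq_add _ _ _ _ _ _ _ _).symm
    ext <;> simp only [map_add] <;> ring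
  map_mul' := by
    intro u v
    rw [Oct.mul_def]
    refine Eq.trans ?_ (qq_mul _ _ _ _ _ _ _ _).symm
    ext <;> simp only [map_add, map_sub, map_mul, cc0, cc1, cc2] <;> ring

theorem sp_gX : sp gX = q3 0 := by
  change (⟨_, _, _, _⟩ : ℍ[ℚ]) = ⟨1, 2, 0, 0⟩
  ext <;> simp [gX, XX, cc_vv, bp]
theorem sp_gY : sp gY = q3 1 := by
  change (⟨_, _, _, _⟩ : ℍ[ℚ]) = ⟨1, 0, 2, 0⟩
  ext <;> simp [gY, YY, cc_vv, bp]
theorem sp_gZ : sp gZ = q3 2 := by
  change (⟨_, _, _, _⟩ : ℍ[ℚ]) = ⟨1, 0, 0, 2⟩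
  ext <;> simp [gZ, ZZ, cc_vv, bp] <;> norm_num

/-- the inverses of the generators -/
theorem gX_inv : ∃ v : OO, gX * v = 1 ∧ v * gX = 1 := by
  apply inv_of_nm
  have : nm gX = eev 3 := by
    simp only [nm, gX, XX, eev, ee]; ring
  rw [this]; exact eev3_unit
theorem gY_inv : ∃ v : OO, gY * v = 1 ∧ v * gY = 1 := by
  apply inv_of_nm
  have : nm gY = eev 4 := by
    simp only [nm, gY, YY, eev, ee]; ring
  rw [this]; exact eev4_unit
theorem gZ_inv : ∃ v : OO, gZ * v = 1 ∧ v * gZ = 1 := by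
  apply inv_of_nm
  have : nm gZ = eev 5 := by
    simp only [nm, gZ, ZZ, eev, ee]; ring
  rw [this]; exact eev5_unit

end Pool.Agent.Lib.MP_1b6260_al
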