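import Pool.Agent.Lib.MP_1b6260_al.Lop
import Pool.Agent.Lib.MP_1b6260_al.Pow

set_option autoImplicit false

/-!
# Perturbation of octonions: nuclear elements have scalar values
-/

namespace Pool.Agent.Lib.MP_1b6260_al

open Pool.Agent.Lib.MP_20522e_al

universe u v

/-! ### scalars and coordinates -/

section smul
variable {R : Type u} [CommRing R] {p q r : R}

/-- scalar multiplication -/
def sm (s : R) (u : Oct R p q r) : Oct R p q r :=
  ⟨s * u.c0, s * u.c1, s * u.c2, s * u.c3, s * u.c4, s * u.c5, s * u.c6, s * u.c7⟩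

theorem sm_mul_left (s : R) (u v : Oct R p q r) : sm s u * v = sm s (u * v) := by
  simp only [sm, Oct.mul_def]
  ext <;> simp only <;> ring

theorem sm_mul_right (s : R) (u v : Oct R p q r) : u * sm s v = sm s (u * v) := by
  simp only [sm, Oct.mul_def]
  ext <;> simp only <;> ring

theorem sm_add (s : R) (u v : Oct R p q r) : sm s (u + v) = sm s u + sm s v := by
  simp only [sm, Oct.add_def]
  ext <;> simp only <;> ring

theorem sm_sub (s : R) (u v : Oct R p q r) : sm s (u - v) = sm s u - sm s v := by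
  rw [sub_eq_add_neg, sub_eq_add_neg, sm_add]
  congr 1
  simp only [sm, Oct.neg_def]
  ext <;> simp only <;> ring

theorem sm_zero (s : R) : sm s (0 : Oct R p q r) = 0 := by
  simp only [sm, Oct.zero_def, mul_zero]

theorem asc_sm2 (s : R) (v a b : Oct R p q r) : asc v (sm s a) b = sm s (asc v a b) := by
  unfold asc
  rw [sm_mul_right, sm_mul_left, sm_mul_left, sm_mul_right, sm_sub]

theorem asc_sm3 (s : R) (v a b : Oct R p q r) : asc v a (sm s b) = sm s (asc v a b) := by
  unfold asc
  rw [sm_mul_right, sm_mul_right, sm_mul_right, sm_sub]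

/-- coordinates -/
def co (i : Fin 8) : Oct R p q r →+ R where
  toFun u := ![u.c0, u.c1, u.c2, u.c3, u.c4, u.c5, u.c6, u.c7] i
  map_zero' := by fin_cases i <;> rfl
  map_add' u v := by fin_cases i <;> rfl

theorem co_ext {u v : Oct R p q r} (h : ∀ i, co i u = co i v) : u = v := by
  ext
  · exact h 0
  · exact h 1
  · exact h 2
  · exact h 3
  · exact h 4
  · exact h 5
  · exact h 6
  · exact h 7

theorem co_sm (i : Fin 8) (s : R) (u : Oct R p q r) : co i (sm s u) = s * co i u := by
  fin_cases i <;> rfl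

/-- the basis -/
def bas (i : Fin 8) : Oct R p q r :=
  ⟨if i = 0 then 1 else 0, if i = 1 then 1 else 0, if i = 2 then 1 else 0,
    if i = 3 then 1 else 0, if i = 4 then 1 else 0, if i = 5 then 1 else 0,
    if i = 6 then 1 else 0, if i = 7 then 1 else 0⟩

theorem co_bas (i j : Fin 8) : co j (bas i : Oct R p q r) = if i = j then 1 else 0 := by
  fin_cases j <;> rfl

/-- the eight words -/
def wd (a b c : Oct R p q r) (i : Fin 8) : Oct R p q r :=
  match i with
  | 0 => 1
  | 1 => a
  | 2 => b
  | 3 => a * b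
  | 4 => c
  | 5 => a * c
  | 6 => b * c
  | 7 => (a * b) * c

/-- the coordinate matrix of eight octonions -/
def cm (W : Fin 8 → Oct R p q r) : Matrix (Fin 8) (Fin 8) R := Matrix.of fun i j => co j (W i)

theorem adj_sum (W : Fin 8 → Oct R p q r) (k : Fin 8) :
    ∑ i, sm ((cm W).adjugate k i) (W i) = sm (cm W).det (bas k) := by
  apply co_ext
  intro j
  rw [map_sum, co_sm, co_bas]
  have h := congrFun (congrFun (Matrix.adjugate_mul (cm W)) k) j
  rw [Matrix.mul_apply, Matrix.smul_apply, Matrix.one_apply, smul_eq_mul] at h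
  rw [← h]
  refine Finset.sum_congr rfl fun i _ => ?_
  rw [co_sm]
  rfl

theorem sm_eq_zero [IsDomain R] {s : R} (hs : s ≠ 0) {u : Oct R p q r} (h : sm s u = 0) :
    u = 0 := by
  apply co_ext
  intro i
  have := congrArg (co i) h
  rw [co_sm, map_zero] at this
  rw [map_zero]
  exact (mul_eq_zero.mp this).resolve_left hs

theorem asc_bas_of_wd [IsDomain R] {W : Fin 8 → Oct R p q r} (hdet : (cm W).det ≠ 0)
    {v : Oct R p q r} (h : ∀ i j, asc v (W i) (W j) = 0) (k l : Fin 8) :
    asc v (bas k) (bas l) = 0 := by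
  let f2 : Oct R p q r → (Oct R p q r →+ Oct R p q r) := fun b =>
    { toFun := fun a => asc v a b
      map_zero' := by simp
      map_add' := fun a a' => asc_add2 v a a' b }
  let f3 : Oct R p q r → (Oct R p q r →+ Oct R p q r) := fun a =>
    { toFun := fun b => asc v a b
      map_zero' := by simp
      map_add' := fun b b' => asc_add3 v a b b' }
  have h1 : ∀ k j, asc v (bas k) (W j) = 0 := by
    intro k j
    apply sm_eq_zero hdet
    rw [← asc_sm2, ← adj_sum W k]
    change f2 (W j) (∑ i, sm ((cm W).adjugate k i) (W i)) = 0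
    rw [map_sum]
    refine Finset.sum_eq_zero fun i _ => ?_
    change asc v (sm _ (W i)) (W j) = 0
    rw [asc_sm2, h, sm_zero]
  apply sm_eq_zero hdet
  rw [← asc_sm3, ← adj_sum W l]
  change f3 (bas k) (∑ i, sm ((cm W).adjugate l i) (W i)) = 0
  rw [map_sum]
  refine Finset.sum_eq_zero fun i _ => ?_
  change asc v (bas k) (sm _ (W i)) = 0
  rw [asc_sm3, h1, sm_zero]

theorem scalar_of_wd [IsDomain R] (hp : p ≠ 0) (hq : q ≠ 0) (h2 : (2 : R) ≠ 0)
    {W : Fin 8 → Oct R p q r} (hdet : (cm W).det ≠ 0)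
    {v : Oct R p q r} (h : ∀ i j, asc v (W i) (W j) = 0) :
    ∃ c : R, v = ⟨c, 0, 0, 0, 0, 0, 0, 0⟩ := by
  have e1 : (bas 1 : Oct R p q r) = XX p q r 0 := rfl
  have e2 : (bas 2 : Oct R p q r) = YY p q r 0 0 := rfl
  have e4 : (bas 4 : Oct R p q r) = ZZ p q r 0 0 0 0 := rfl
  have h12 := asc_bas_of_wd hdet h 1 2
  have h14 := asc_bas_of_wd hdet h 1 4
  have h24 := asc_bas_of_wd hdet h 2 4
  rw [e1, e2] at h12
  rw [e1, e4] at h14
  rw [e2, e4] at h24
  exact oct_nucleus 0 0 0 0 0 0 0 hp hq h2 (sub_eq_zero.mp h12) (sub_eq_zero.mp h14)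
    (sub_eq_zero.mp h24)

theorem wd_bas (i : Fin 8) : wd (bas 1 : Oct R p q r) (bas 2) (bas 4) i = bas i := by
  fin_cases i
  · rfl
  · rfl
  · rfl
  · change (bas 1 : Oct R p q r) * bas 2 = bas 3
    simp only [bas, Oct.mul_def]
    ext <;> simp
  · rfl
  · change (bas 1 : Oct R p q r) * bas 4 = bas 5
    simp only [bas, Oct.mul_def]
    ext <;> simp
  · change (bas 2 : Oct R p q r) * bas 4 = bas 6
    simp only [bas, Oct.mul_def]
    ext <;> simp
  · change ((bas 1 : Oct R p q r) * bas 2) * bas 4 = bas 7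
    simp only [bas, Oct.mul_def]
    ext <;> simp

theorem cm_bas : cm (fun i => (bas i : Oct R p q r)) = 1 := by
  ext i j
  change co j (bas i : Oct R p q r) = _
  rw [co_bas, Matrix.one_apply]

end smul

/-! ### change of rings -/

section omap
variable {R : Type u} {S : Type v} [CommRing R] [CommRing S] (f : R →+* S) {p q r : R}
  {p' q' r' : S} (hp : f p = p') (hq : f q = q') (hr : f r = r')

/-- change of rings -/
def omap : Oct R p q r →+* Oct S p' q' r' where
  toFun u := ⟨f u.c0, f u.c1, f u.c2, f u.c3, f u.c4, f u.c5, f u.c6, f u.c7⟩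
  map_zero' := by simp [Oct.zero_def]
  map_one' := by simp [Oct.one_def]
  map_add' u v := by simp only [Oct.add_def, map_add]
  map_mul' u v := by
    subst hp hq hr
    simp only [Oct.mul_def, map_add, map_sub, map_mul]

theorem co_omap (i : Fin 8) (u : Oct R p q r) : co i (omap f hp hq hr u) = f (co i u) := by
  fin_cases i <;> rfl

theorem wd_omap (a b c : Oct R p q r) (i : Fin 8) :
    wd (omap f hp hq hr a) (omap f hp hq hr b) (omap f hp hq hr c) i =
      omap f hp hq hr (wd a b c i) := by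
  fin_cases i
  · exact (map_one _).symm
  · rfl
  · rfl
  · exact (map_mul _ _ _).symm
  · rfl
  · exact (map_mul _ _ _).symm
  · exact (map_mul _ _ _).symm
  · change (omap f hp hq hr a * omap f hp hq hr b) * omap f hp hq hr c =
      omap f hp hq hr ((a * b) * c)
    rw [map_mul, map_mul]

theorem det_omap (a b c : Oct R p q r) :
    (cm (wd (omap f hp hq hr a) (omap f hp hq hr b) (omap f hp hq hr c))).det =
      f (cm (wd a b c)).det := by
  rw [RingHom.map_det]
  congr 1
  ext i j
  change co j (wd _ _ _ i) = f (co j (wd a b c i))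
  rw [wd_omap, co_omap]

theorem nm_omap (u : Oct R p q r) : nm (omap f hp hq hr u) = f (nm u) := by
  subst hp hq hr
  unfold nm omap
  simp only [RingHom.coe_mk, MonoidHom.coe_mk, OneHom.coe_mk, map_add, map_sub, map_mul, map_pow]

end omap

/-! ### the perturbation -/

section path
variable {R : Type u} [CommRing R] {p q r : R}

open Polynomial in
/-- the segment from `a` to the basis element `k` -/
noncomputable def seg (a : Oct R p q r) (k : Fin 8) :
    Oct R[X] (C p) (C q) (C r) :=
  sm (1 - X) (omap C rfl rfl rfl a) + sm X (bas k)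

theorem evC (a : R) : Polynomial.evalRingHom (1 : R) (Polynomial.C a) = a := by simp

theorem seg_one (a : Oct R p q r) (k : Fin 8) :
    omap (Polynomial.evalRingHom 1) (evC p) (evC q) (evC r) (seg a k) =
      (bas k : Oct R p q r) := by
  apply co_ext
  intro i
  rw [co_omap]
  unfold seg
  rw [map_add, co_sm, co_sm, co_omap, co_bas, co_bas]
  split_ifs <;> simp

theorem det_seg [Nontrivial R] (a b c : Oct R p q r) :
    (cm (wd (seg a 1) (seg b 2) (seg c 4))).det ≠ 0 := by
  intro h
  have h1 := det_omap (Polynomial.evalRingHom (1 : R)) (evC p) (evC q) (evC r) (seg a 1)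
    (seg b 2) (seg c 4)
  rw [seg_one, seg_one, seg_one, h, map_zero] at h1
  have h2 : (wd (bas 1 : Oct R p q r) (bas 2) (bas 4)) = fun i => bas i := funext wd_bas
  rw [h2, cm_bas, Matrix.det_one] at h1
  exact one_ne_zero h1

end path

/-! ### nuclear elements -/

/-- two homomorphisms to an alternative ring which agree on the generators agree -/
theorem hom_unique_alt {A : Type v} [AltRing A] {X : Type u} {f g : FreeMoufang X → A}
    (f1 : f 1 = 1) (fm : ∀ a b, f (a * b) = f a * f b)
    (g1 : g 1 = 1) (gm : ∀ a b, g (a * b) = g a * g b)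
    (h : ∀ x, f (FreeMoufang.of x) = g (FreeMoufang.of x)) (w : FreeMoufang X) : f w = g w := by
  induction w using FreeMoufang.ind with
  | hof x => exact h x
  | hone => rw [f1, g1]
  | hmul a b iha ihb => rw [fm, gm, iha, ihb]
  | hl a b iha ihb => rw [hom_ldiv f1 fm, hom_ldiv g1 gm, iha, ihb]
  | hr a b iha ihb => rw [hom_rdiv f1 fm, hom_rdiv g1 gm, iha, ihb]

theorem nm_unit_of_IV {R : Type u} [CommRing R] {p q r : R} (u : Oct R p q r) [IV u] :
    IsUnit (nm u) := by
  have e := congrArg nm (mul_iv u)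
  rw [nm_mul, nm_one] at e
  exact IsUnit.of_mul_eq_one _ e

theorem IV_of_nm {R : Type u} [CommRing R] {p q r : R} (u : Oct R p q r) (h : IsUnit (nm u)) :
    IV u := ⟨inv_of_nm u h⟩

/-- the words in the three generators -/
def wdF {X : Type u} (x1 x2 x3 : X) (i : Fin 8) : FreeMoufang X :=
  match i with
  | 0 => 1
  | 1 => FreeMoufang.of x1
  | 2 => FreeMoufang.of x2
  | 3 => FreeMoufang.of x1 * FreeMoufang.of x2
  | 4 => FreeMoufang.of x3
  | 5 => FreeMoufang.of x1 * FreeMoufang.of x3
  | 6 => FreeMoufang.of x2 * FreeMoufang.of x3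
  | 7 => (FreeMoufang.of x1 * FreeMoufang.of x2) * FreeMoufang.of x3

open Classical in
/-- the perturbed generators with polynomial coordinates -/
noncomputable def gP {X : Type u} (x1 x2 x3 : X) {R : Type v} [CommRing R] {p q r : R}
    (f : X → UL (Oct R p q r)) (x : X) :
    Oct (Polynomial R) (Polynomial.C p) (Polynomial.C q) (Polynomial.C r) :=
  if x = x1 then seg (f x).1 1 else if x = x2 then seg (f x).1 2 else
    if x = x3 then seg (f x).1 4 else omap Polynomial.C rfl rfl rfl (f x).1

theorem seg_zero {R : Type v} [CommRing R] {p q r : R} (a : Oct R p q r) (k i : Fin 8) :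
    (co i (seg a k)).coeff 0 = co i a := by
  unfold seg
  rw [map_add, co_sm, co_sm, co_omap, co_bas]
  split_ifs <;> simp [sub_mul]

theorem gP_zero {X : Type u} (x1 x2 x3 : X) {R : Type v} [CommRing R] {p q r : R}
    (f : X → UL (Oct R p q r)) (x : X) (i : Fin 8) :
    (co i (gP x1 x2 x3 f x)).coeff 0 = co i (f x).1 := by
  unfold gP
  split_ifs
  · exact seg_zero _ _ _
  · exact seg_zero _ _ _
  · exact seg_zero _ _ _
  · rw [co_omap]; simp

section nuclear
variable {X : Type u} {x1 x2 x3 : X} {R : Type v} [CommRing R] {p q r : R}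

open Polynomial in
/-- the inclusion of polynomials in power series -/
noncomputable def toPS (R : Type v) [CommRing R] : R[X] →+* PowerSeries R :=
  Polynomial.coeToPowerSeries.ringHom

/-- octonions over power series -/
abbrev OS (R : Type v) [CommRing R] (p q r : R) : Type v :=
  Oct (PowerSeries R) (toPS R (Polynomial.C p)) (toPS R (Polynomial.C q)) (toPS R (Polynomial.C r))

theorem cc_toPS (P : Polynomial R) : PowerSeries.constantCoeff (toPS R P) = P.coeff 0 := by
  unfold toPS
  simp [Polynomial.coeToPowerSeries.ringHom_apply]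

theorem cc_C (a : R) : PowerSeries.constantCoeff (toPS R (Polynomial.C a)) = a := by
  rw [cc_toPS]; simp

/-- specialisation at zero -/
noncomputable def sp0 : OS R p q r →+* Oct R p q r :=
  omap (PowerSeries.constantCoeff) (cc_C p) (cc_C q) (cc_C r)

/-- the perturbed generators -/
noncomputable def gS (x1 x2 x3 : X) (f : X → UL (Oct R p q r)) (x : X) : OS R p q r :=
  omap (toPS R) rfl rfl rfl (gP x1 x2 x3 f x)

theorem sp0_gS (f : X → UL (Oct R p q r)) (x : X) : sp0 (gS x1 x2 x3 f x) = (f x).1 := by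
  apply co_ext
  intro i
  unfold sp0 gS
  rw [co_omap, co_omap, cc_toPS, gP_zero]

theorem IV_gS (f : X → UL (Oct R p q r)) (x : X) : IV (gS x1 x2 x3 f x) := by
  apply IV_of_nm
  rw [PowerSeries.isUnit_iff_constantCoeff]
  have h1 := nm_omap (PowerSeries.constantCoeff) (cc_C p) (cc_C q) (cc_C r) (gS x1 x2 x3 f x)
  rw [← h1]
  change IsUnit (nm (sp0 (gS x1 x2 x3 f x)))
  rw [sp0_gS]
  have := (f x).2
  exact nm_unit_of_IV _

theorem scalar_of_nuclear [IsDomain R] (h12 : x1 ≠ x2) (h13 : x1 ≠ x3) (h23 : x2 ≠ x3)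
    (hp : p ≠ 0) (hq : q ≠ 0) (h2 : (2 : R) ≠ 0) (f : X → UL (Oct R p q r))
    (w : FreeMoufang X)
    (hw : ∀ χ : FreeMoufang X → OS R p q r, χ 1 = 1 → (∀ a b, χ (a * b) = χ a * χ b) →
      ∀ u v, (χ w * χ u) * χ v = χ w * (χ u * χ v)) :
    ∃ c : R, (FreeMoufang.lift f w).1 = ⟨c, 0, 0, 0, 0, 0, 0, 0⟩ := by
  let g : X → UL (OS R p q r) := fun x => ⟨gS x1 x2 x3 f x, IV_gS f x⟩
  let χ : FreeMoufang X → OS R p q r := fun w => (FreeMoufang.lift g w).1
  have χ1 : χ 1 = 1 := rfl
  have χm : ∀ a b, χ (a * b) = χ a * χ b := by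
    intro a b
    change (FreeMoufang.lift g (a * b)).1 = _
    rw [FreeMoufang.lift_mul]; rfl
  have hχ := hw χ χ1 χm
  have hinj : Function.Injective (toPS R) := Polynomial.coe_injective R
  have hwd : ∀ i, χ (wdF x1 x2 x3 i) =
      wd (gS x1 x2 x3 f x1) (gS x1 x2 x3 f x2) (gS x1 x2 x3 f x3) i := by
    intro i
    fin_cases i
    · rfl
    · rfl
    · rfl
    · exact χm _ _
    · rfl
    · exact χm _ _
    · exact χm _ _
    · change χ ((FreeMoufang.of x1 * FreeMoufang.of x2) * FreeMoufang.of x3) = _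
      rw [χm, χm]; rfl
  have hdet : (cm (fun i => χ (wdF x1 x2 x3 i))).det ≠ 0 := by
    rw [show (fun i => χ (wdF x1 x2 x3 i)) = wd (gS x1 x2 x3 f x1) (gS x1 x2 x3 f x2)
      (gS x1 x2 x3 f x3) from funext hwd]
    unfold gS
    rw [det_omap]
    have e1 : gP x1 x2 x3 f x1 = seg (f x1).1 1 := by unfold gP; rw [if_pos rfl]
    have e2 : gP x1 x2 x3 f x2 = seg (f x2).1 2 := by
      unfold gP; rw [if_neg h12.symm, if_pos rfl]
    have e3 : gP x1 x2 x3 f x3 = seg (f x3).1 4 := by
      unfold gP; rw [if_neg h13.symm, if_neg h23.symm, if_pos rfl]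
    rw [e1, e2, e3, Ne, map_eq_zero_iff _ hinj]
    exact det_seg _ _ _
  have hne : ∀ s : R, s ≠ 0 → toPS R (Polynomial.C s) ≠ 0 := by
    intro s hs
    rw [Ne, map_eq_zero_iff _ hinj]
    simpa using hs
  have h2' : (2 : PowerSeries R) ≠ 0 := by
    have := hne 2 h2
    rwa [map_ofNat, map_ofNat] at this
  obtain ⟨c, hc⟩ := scalar_of_wd (hne p hp) (hne q hq) h2' hdet (v := χ w) (by
    intro i j
    unfold asc
    exact sub_eq_zero.mpr (hχ _ _))
  refine ⟨PowerSeries.constantCoeff c, ?_⟩
  have huniq : (FreeMoufang.lift f w).1 = sp0 (χ w) := by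
    refine hom_unique_alt (f := fun w => (FreeMoufang.lift f w).1) (g := fun w => sp0 (χ w))
      rfl ?_ ?_ ?_ ?_ w
    · intro a b
      change (FreeMoufang.lift f (a * b)).1 = _
      rw [FreeMoufang.lift_mul]; rfl
    · change sp0 (χ 1) = 1
      rw [χ1, map_one]
    · intro a b
      change sp0 (χ (a * b)) = sp0 (χ a) * sp0 (χ b)
      rw [χm, map_mul]
    · intro x
      exact (sp0_gS f x).symm
  rw [huniq, hc]
  change (⟨PowerSeries.constantCoeff c, PowerSeries.constantCoeff (0 : PowerSeries R), _, _, _, _, _,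
    _⟩ : Oct R p q r) = _
  rw [map_zero]

end nuclear

end Pool.Agent.Lib.MP_1b6260_al
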