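import Pool.Agent.Lib.MP_1b6260_al.Lop
import Pool.Agent.Lib.MP_1b6260_al.Loc
import Pool.Agent.Lib.MP_1b6260_al.Grp
import Pool.Agent.Lib.MP_1b6260_al.Prt

set_option autoImplicit false

/-!
# The free special Moufang loop of rank three
-/

namespace Pool.Agent.Lib.MP_1b6260_al

open Pool.Agent.Lib.MP_20522e_al
open Quaternion

universe u v

/-- abbreviation for the free Moufang loop of rank three -/
abbrev F3 : Type := FreeMoufang (Fin 3)

/-! ### the generic octonions -/

/-- images of the generators -/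
noncomputable def gO (i : Fin 3) : UL OO :=
  match i with
  | 0 => ⟨gX, ⟨gX_inv⟩⟩
  | 1 => ⟨gY, ⟨gY_inv⟩⟩
  | 2 => ⟨gZ, ⟨gZ_inv⟩⟩

/-- the generic octonion evaluation -/
noncomputable def Psi (w : F3) : OO := (FreeMoufang.lift gO w).1

theorem Psi_one : Psi 1 = 1 := rfl
theorem Psi_mul (a b : F3) : Psi (a * b) = Psi a * Psi b := by
  unfold Psi; rw [FreeMoufang.lift_mul]; rfl
theorem Psi_of0 : Psi (FreeMoufang.of 0) = gX := rfl
theorem Psi_of1 : Psi (FreeMoufang.of 1) = gY := rfl
theorem Psi_of2 : Psi (FreeMoufang.of 2) = gZ := rfl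

/-- the map to the free group -/
def Pi (w : F3) : FreeGroup (Fin 3) :=
  letI := groupLoop (FreeGroup (Fin 3))
  FreeMoufang.lift FreeGroup.of w

theorem Pi_one : Pi 1 = 1 := rfl
theorem Pi_mul (a b : F3) : Pi (a * b) = Pi a * Pi b := by
  letI := groupLoop (FreeGroup (Fin 3))
  exact FreeMoufang.lift_mul FreeGroup.of a b
theorem Pi_of (i : Fin 3) : Pi (FreeMoufang.of i) = FreeGroup.of i := rfl

/-- two multiplicative maps to a group which agree on the generators agree -/
theorem hom_unique {G : Type v} [Group G] {X : Type u} {f g : FreeMoufang X → G}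
    (f1 : f 1 = 1) (fm : ∀ a b, f (a * b) = f a * f b)
    (g1 : g 1 = 1) (gm : ∀ a b, g (a * b) = g a * g b)
    (h : ∀ x, f (FreeMoufang.of x) = g (FreeMoufang.of x)) (w : FreeMoufang X) : f w = g w := by
  induction w using FreeMoufang.ind with
  | hof x => exact h x
  | hone => rw [f1, g1]
  | hmul a b iha ihb => rw [fm, gm, iha, ihb]
  | hl a b iha ihb =>
    have e1 := fm a (MoufangLoop.ldiv a b)
    have e2 := gm a (MoufangLoop.ldiv a b)
    rw [MoufangLoop.mul_ldiv] at e1 e2
    rw [iha, ihb] at e1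
    exact mul_left_cancel (e1.symm.trans e2)
  | hr a b iha ihb =>
    have e1 := fm (MoufangLoop.rdiv a b) b
    have e2 := gm (MoufangLoop.rdiv a b) b
    rw [MoufangLoop.rdiv_mul] at e1 e2
    rw [iha, ihb] at e1
    exact mul_right_cancel (e1.symm.trans e2)

theorem sp_Psi (w : F3) : sp (Psi w) = ((FreeGroup.lift qu (Pi w) : (ℍ[ℚ])ˣ) : ℍ[ℚ]) := by
  have hI : ∀ a : F3, IV (Psi a) := hom_IV Psi_one Psi_mul
  let f : F3 → (ℍ[ℚ])ˣ := fun a =>
    { val := sp (Psi a)
      inv := sp (iv (Psi a))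
      val_inv := by have := hI a; rw [← map_mul, mul_iv, map_one]
      inv_val := by have := hI a; rw [← map_mul, iv_mul, map_one] }
  have key : f w = FreeGroup.lift qu (Pi w) := by
    refine hom_unique (f := f) (g := fun a => FreeGroup.lift qu (Pi a)) ?_ ?_ ?_ ?_ ?_ w
    · apply Units.ext
      change sp (Psi 1) = 1
      rw [Psi_one, map_one]
    · intro a b
      apply Units.ext
      change sp (Psi (a * b)) = sp (Psi a) * sp (Psi b)
      rw [Psi_mul, map_mul]
    · rw [Pi_one, map_one]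
    · intro a b
      rw [Pi_mul, map_mul]
    · intro i
      apply Units.ext
      rw [Pi_of, FreeGroup.lift_apply_of]
      fin_cases i
      · exact sp_gX
      · exact sp_gY
      · exact sp_gZ
  exact congrArg Units.val key

theorem nm_Psi_unit (w : F3) : IsUnit (nm (Psi w)) := by
  have := hom_IV Psi_one Psi_mul w
  have e := congrArg nm (mul_iv (Psi w))
  rw [nm_mul, nm_one] at e
  exact IsUnit.of_mul_eq_one _ e

theorem nm_Psi {w : F3} (hw : Pi w = 1) : nm (Psi w) = 1 := by
  let f : F3 → RRˣ := fun a => (nm_Psi_unit a).unit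
  let h : FreeGroup (Fin 3) →* RRˣ := FreeGroup.lift (fun i => f (FreeMoufang.of i))
  have key : f w = h (Pi w) := by
    refine hom_unique (f := f) (g := fun a => h (Pi a)) ?_ ?_ ?_ ?_ ?_ w
    · apply Units.ext
      change nm (Psi 1) = 1
      rw [Psi_one, nm_one]
    · intro a b
      apply Units.ext
      change nm (Psi (a * b)) = nm (Psi a) * nm (Psi b)
      rw [Psi_mul, nm_mul]
    · rw [Pi_one, map_one]
    · intro a b
      rw [Pi_mul, map_mul]
    · intro i
      rw [Pi_of, FreeGroup.lift_apply_of]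
  rw [hw, map_one] at key
  exact congrArg Units.val key

/-- an element with scalar generic octonion value is trivial in the free group and in the generic
octonions -/
theorem trivial_of_scalar {w : F3} {c : RR} (hc : Psi w = ⟨c, 0, 0, 0, 0, 0, 0, 0⟩) :
    Psi w = 1 ∧ Pi w = 1 := by
  have hs := sp_Psi w
  have hsc : sp (Psi w) = ((MvPowerSeries.constantCoeff c : ℚ) : ℍ[ℚ]) := by
    rw [hc]
    change (⟨MvPowerSeries.constantCoeff c, 2 * MvPowerSeries.constantCoeff (0 : RR),
      2 * MvPowerSeries.constantCoeff (0 : RR), 4 * MvPowerSeries.constantCoeff (0 : RR)⟩ :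
      ℍ[ℚ]) = _
    rw [map_zero, mul_zero, mul_zero]
    ext <;> simp
  have hPi : Pi w = 1 := by
    apply free_mod_scalars (Pi w) (MvPowerSeries.constantCoeff c)
    rw [← hs, hsc]
  have hn := nm_Psi hPi
  have hcc : c * c = 1 := by
    rw [hc] at hn
    unfold nm at hn
    linear_combination hn
  have hcst : MvPowerSeries.constantCoeff c = (1 : ℚ) := by
    rw [hsc, hPi, map_one] at hs
    have := congrArg (fun q : ℍ[ℚ] => q.re) hs
    simpa using this
  have hc1 : c = 1 := by
    have h2 : (c - 1) * (c + 1) = 0 := by linear_combination hcc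
    rcases mul_eq_zero.mp h2 with h | h
    · exact sub_eq_zero.mp h
    · exfalso
      have h3 : c = -1 := eq_neg_of_add_eq_zero_left h
      rw [h3, map_neg, map_one] at hcst
      norm_num at hcst
  refine ⟨?_, hPi⟩
  rw [hc, hc1]
  rfl

/-! ### the product ring -/

instance prodAlt {A : Type u} {B : Type v} [AltRing A] [AltRing B] : AltRing (A × B) where
  left_alt a b := Prod.ext (AltRing.left_alt a.1 b.1) (AltRing.left_alt a.2 b.2)
  right_alt a b := Prod.ext (AltRing.right_alt a.1 b.1) (AltRing.right_alt a.2 b.2)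

/-- associative rings are alternative -/
@[reducible] def ringAlt (B : Type u) [Ring B] : AltRing B where
  left_alt a b := mul_assoc a a b
  right_alt a b := mul_assoc b a a

/-- the group ring of the free group -/
abbrev GR : Type := MonoidAlgebra ℤ (FreeGroup (Fin 3))

noncomputable instance : AltRing GR := ringAlt GR

section main
variable {A : Type u} [AltRing A] (φ : F3 → A) (h1 : φ 1 = 1)
  (hm : ∀ a b, φ (a * b) = φ a * φ b)

/-- the combined map -/
noncomputable def Phi (w : F3) : (A × OO) × GR :=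
  ((φ w, Psi w), MonoidAlgebra.of ℤ (FreeGroup (Fin 3)) (Pi w))

include h1 hm

theorem Phi_one : Phi φ 1 = 1 := by
  unfold Phi
  rw [h1, Psi_one, Pi_one, map_one]
  rfl

theorem Phi_mul (a b : F3) : Phi φ (a * b) = Phi φ a * Phi φ b := by
  unfold Phi
  rw [hm, Psi_mul, Pi_mul, map_mul]
  rfl

theorem Phi_mem (w : F3) :
    Phi φ w ∈ C3 (Phi φ (FreeMoufang.of 0)) (Phi φ (FreeMoufang.of 1)) (Phi φ (FreeMoufang.of 2)) ∧
    iv (Phi φ w) ∈
      C3 (Phi φ (FreeMoufang.of 0)) (Phi φ (FreeMoufang.of 1)) (Phi φ (FreeMoufang.of 2)) := by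
  have P1 := Phi_one φ h1 hm
  have Pm := Phi_mul φ h1 hm
  have hI : ∀ a : F3, IV (Phi φ a) := hom_IV P1 Pm
  induction w using FreeMoufang.ind with
  | hof x =>
    fin_cases x
    · exact ⟨NonUnitalSubring.subset_closure (by simp), NonUnitalSubring.subset_closure (by simp)⟩
    · exact ⟨NonUnitalSubring.subset_closure (by simp), NonUnitalSubring.subset_closure (by simp)⟩
    · exact ⟨NonUnitalSubring.subset_closure (by simp), NonUnitalSubring.subset_closure (by simp)⟩
  | hone =>
    have e : (1 : (A × OO) × GR) ∈ C3 (Phi φ (FreeMoufang.of 0)) (Phi φ (FreeMoufang.of 1))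
        (Phi φ (FreeMoufang.of 2)) := NonUnitalSubring.subset_closure (by simp)
    rw [P1, iv_unique (one_mul 1) (one_mul 1)]
    exact ⟨e, e⟩
  | hmul a b iha ihb =>
    have := hI a
    have := hI b
    rw [Pm, iv_mul_rev]
    exact ⟨mul_mem iha.1 ihb.1, mul_mem ihb.2 iha.2⟩
  | hl a b iha ihb =>
    have := hI a
    have := hI b
    rw [hom_ldiv P1 Pm, iv_mul_rev, iv_iv]
    exact ⟨mul_mem iha.2 ihb.1, mul_mem ihb.2 iha.1⟩
  | hr a b iha ihb =>
    have := hI a
    have := hI b
    rw [hom_rdiv P1 Pm, iv_mul_rev, iv_iv]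
    exact ⟨mul_mem iha.1 ihb.2, mul_mem ihb.1 iha.2⟩

theorem main_vanish {w : F3} (hPsi : Psi w = 1) (hPi : Pi w = 1) : φ w = 1 := by
  have P1 := Phi_one φ h1 hm
  have Pm := Phi_mul φ h1 hm
  have hI : ∀ a : F3, IV (Phi φ a) := hom_IV P1 Pm
  have i0 := hI (FreeMoufang.of 0)
  have i1 := hI (FreeMoufang.of 1)
  have i2 := hI (FreeMoufang.of 2)
  have hmem : Phi φ w - 1 ∈ C3 (Phi φ (FreeMoufang.of 0)) (Phi φ (FreeMoufang.of 1))
      (Phi φ (FreeMoufang.of 2)) :=
    sub_mem (Phi_mem φ h1 hm w).1 (NonUnitalSubring.subset_closure (by simp))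
  have hSS : Phi φ w - 1 ∈ SS (Phi φ (FreeMoufang.of 0)) (Phi φ (FreeMoufang.of 1))
      (Phi φ (FreeMoufang.of 2)) (OL (Phi φ (FreeMoufang.of 0)) (Phi φ (FreeMoufang.of 1))
      (Phi φ (FreeMoufang.of 2))) := by
    refine mem_of_map_zero (fun s hs a ha => SS_ideal OL_StabI ha hs) (SS0 asc_mem_OL)
      (RingHom.snd (A × OO) GR) rfl rfl rfl hmem ?_
    rw [map_sub, map_one]
    change MonoidAlgebra.of ℤ (FreeGroup (Fin 3)) (Pi w) - 1 = 0
    rw [hPi, map_one, sub_self]
  have h0 : Phi φ w - 1 = 0 := by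
    refine eq_zero_of_mem vv0_ne vv1_ne vv2_ne two_ne eev3_unit eev4_unit eev5_unit eev_inj
      ((RingHom.snd A OO).comp (RingHom.fst (A × OO) GR)) rfl rfl rfl hSS ?_
    rw [map_sub, map_one]
    change Psi w - 1 = 0
    rw [hPsi, sub_self]
  have h2 := sub_eq_zero.mp h0
  have h3 := congrArg (fun t : (A × OO) × GR => t.1.1) h2
  exact h3

end main

/-- the main theorem -/
theorem main_theorem {X : Type u} (hX : 3 ≤ Cardinal.mk X) (w : FreeMoufang X)
    (hw : IsSpecialNuclear w) {A : Type v} [NonAssocRing A] (hA : IsAlternative A)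
    {μ : FreeMoufang (Fin 3) → A} (hμ : IsMulHom μ) {φ : FreeMoufang X → A} (hφ : IsMulHom φ)
    (himg : ∀ x : X, ∃ v : FreeMoufang (Fin 3), φ (FreeMoufang.of x) = μ v) : φ w = 1 := by
  letI : AltRing A := { ‹NonAssocRing A› with
    left_alt := fun a b => (hA a b).1
    right_alt := fun a b => (hA a b).2 }
  have hXf : ∃ g : Fin 3 → X, Function.Injective g := by
    have h : Cardinal.lift.{u} (Cardinal.mk (Fin 3)) ≤ Cardinal.lift.{0} (Cardinal.mk X) := by
      simpa using hX
    obtain ⟨g⟩ := Cardinal.lift_mk_le'.mp h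
    exact ⟨g, g.injective⟩
  obtain ⟨g, hg⟩ := hXf
  choose θ0 hθ0 using himg
  let θ : FreeMoufang X → F3 := FreeMoufang.lift θ0
  have θ1 : θ 1 = 1 := rfl
  have θm : ∀ a b, θ (a * b) = θ a * θ b := FreeMoufang.lift_mul θ0
  have hfac : φ w = μ (θ w) := by
    refine hom_unique_alt (f := φ) (g := fun w => μ (θ w)) hφ.1 hφ.2 ?_ ?_ ?_ w
    · change μ (θ 1) = 1
      rw [θ1, hμ.1]
    · intro a b
      change μ (θ (a * b)) = μ (θ a) * μ (θ b)
      rw [θm, hμ.2]
    · intro x
      exact hθ0 x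
  obtain ⟨c, hc⟩ := scalar_of_nuclear (x1 := g 0) (x2 := g 1) (x3 := g 2)
    (hg.ne (by decide)) (hg.ne (by decide)) (hg.ne (by decide)) vv0_ne vv1_ne two_ne
    (fun x => FreeMoufang.lift gO (θ0 x)) w (by
      intro χ χ1 χm a b
      have hB : IsAlternative (OS RR (vv 0) (vv 1) (vv 2)) := fun a b =>
        ⟨AltRing.left_alt a b, AltRing.right_alt a b⟩
      exact (hw _ hB χ ⟨χ1, χm⟩ a b).1)
  have hc' : Psi (θ w) = ⟨c, 0, 0, 0, 0, 0, 0, 0⟩ := by
    rw [← hc]
    refine hom_unique_alt (f := fun w => Psi (θ w))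
      (g := fun w => (FreeMoufang.lift (fun x => FreeMoufang.lift gO (θ0 x)) w).1) ?_ ?_ ?_ ?_ ?_ w
    · change Psi (θ 1) = 1
      rw [θ1, Psi_one]
    · intro a b
      change Psi (θ (a * b)) = Psi (θ a) * Psi (θ b)
      rw [θm, Psi_mul]
    · rfl
    · intro a b
      rw [FreeMoufang.lift_mul]; rfl
    · intro x
      rfl
  obtain ⟨hPsi, hPi⟩ := trivial_of_scalar hc'
  rw [hfac]
  exact main_vanish μ hμ.1 hμ.2 hPsi hPi

end Pool.Agent.Lib.MP_1b6260_al
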