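import Pool.Agent.Lib.MP_1b6260_al.Wrd

set_option autoImplicit false

namespace Pool.Agent.Lib.MP_1b6260_al

open Pool.Agent.Lib.MP_20522e_al

section
variable {A : Type*} [AltRing A]

open MulOpposite (op unop)

theorem RC_asc_mem (x y c : A) [IV x] [IV y] : RC x y (asc x y c) := by
  refine RC_of_module (NN x y) ?_ ?_ ?_ ?_ ?_ ?_ (⟨c, rfl⟩ : asc x y c ∈ NN x y)
  · rintro _ ⟨c, rfl⟩
    exact ⟨_, asc_mul_x _ _ _⟩
  · rintro _ ⟨c, rfl⟩
    exact ⟨_, asc_mul_y _ _ _⟩
  · rintro _ ⟨c, rfl⟩
    exact ⟨_, (asc_iv_left x y c).symm⟩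
  · rintro _ ⟨c, rfl⟩
    refine ⟨iv y * c, ?_⟩
    rw [asc12 x y (iv y * c), asc_iv_left, asc12 x y c, neg_mul]
  · rintro _ ⟨c, rfl⟩
    exact asc_gen _ _ _
  · rintro _ ⟨c, rfl⟩
    have h := asc_gen y x c
    rw [asc12 x y c]
    simp only [neg_mul]
    rw [h]

theorem CC_asc_mem (x y c : A) [IV x] [IV y] : CC x y (asc x y c) := by
  refine ⟨RC_asc_mem x y c, ?_⟩
  apply RC_op.1
  rw [← asc_op]
  exact RC_asc_mem _ _ _

/-! ### the relations `F` -/

/-- `(m b)(x^k c) = m (x^k (c b))` for `b ∈ {y, z}` and `c ∈ ⟨1, y, z, y⁻¹, z⁻¹⟩` -/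
def FR (x y z : A) (k : ℤ) (m : A) : Prop :=
  ∀ c ∈ Kc y z, (m * y) * (pw x k * c) = m * (pw x k * (c * y)) ∧
    (m * z) * (pw x k * c) = m * (pw x k * (c * z))

theorem FR_zero_iff {x y z m : A} [IV y] [IV z] : FR x y z 0 m ↔ RC y z m := by
  constructor
  · intro h
    apply RC_of_gen
    · intro c hc; have := (h c hc).1; simpa using this
    · intro c hc; have := (h c hc).2; simpa using this
  · intro h c hc
    simp only [pw_zero, one_mul]
    exact ⟨h y (left_mem_Kc y z) c hc, h z (right_mem_Kc y z) c hc⟩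

theorem FR_iff {x y z m : A} [IV y] [IV z] {k : ℤ} (hxy : RC x y m) (hxz : RC x z m)
    (hyz : RC y z m) : FR x y z k m ↔ RC y z (V (pw x k) m) := by
  have hy : ∀ c ∈ Kc y z, (m * y) * (pw x k * c) - m * (pw x k * (c * y)) =
      (V (pw x k) m * y) * c - V (pw x k) m * (c * y) := fun c hc =>
    FR_aux (V_mul_right hxy (pw_mem_left x y k) (right_mem_Kc x y))
      (hyz y (left_mem_Kc y z) c hc)
  have hz : ∀ c ∈ Kc y z, (m * z) * (pw x k * c) - m * (pw x k * (c * z)) =
      (V (pw x k) m * z) * c - V (pw x k) m * (c * z) := fun c hc =>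
    FR_aux (V_mul_right hxz (pw_mem_left x z k) (right_mem_Kc x z))
      (hyz z (right_mem_Kc y z) c hc)
  constructor
  · intro h
    apply RC_of_gen
    · intro c hc
      have := hy c hc
      rw [(h c hc).1, sub_self] at this
      exact (sub_eq_zero.mp this.symm)
    · intro c hc
      have := hz c hc
      rw [(h c hc).2, sub_self] at this
      exact (sub_eq_zero.mp this.symm)
  · intro h c hc
    constructor
    · have := hy c hc
      rw [h y (left_mem_Kc y z) c hc, sub_self] at this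
      exact (sub_eq_zero.mp this)
    · have := hz c hc
      rw [h z (right_mem_Kc y z) c hc, sub_self] at this
      exact (sub_eq_zero.mp this)

theorem FR_U_iff {x y z m : A} [IV x] {k : ℤ} (hxy : RC x y m) (hxz : RC x z m) :
    FR x y z (k + 1) m ↔ FR x y z k (U x m) := by
  have key : ∀ b : A, RC x b m → b ∈ Kc y z → ∀ c ∈ Kc y z,
      ((m * b) * (pw x (k + 1) * c) = m * (pw x (k + 1) * (c * b)) ↔
      (U x m * b) * (pw x k * c) = U x m * (pw x k * (c * b))) := by
    intro b hb hbK c hc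
    have e1 : U x m * b = x * ((m * b) * x) := by
      unfold U
      rw [lmouf, hb b (right_mem_Kc x b) x (left_mem_Kc x b)]
    have e2 : U x m * (pw x k * (c * b)) = x * (m * (pw x (k + 1) * (c * b))) := by
      unfold U
      rw [lmouf, pw_assoc1]
    rw [e1, e2, ← flex, lmouf, pw_assoc1]
    exact ⟨fun h => by rw [h], fun h => mul_left_inj_iv h⟩
  constructor
  · intro h c hc
    exact ⟨(key y hxy (left_mem_Kc y z) c hc).1 (h c hc).1,
      (key z hxz (right_mem_Kc y z) c hc).1 (h c hc).2⟩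
  · intro h c hc
    exact ⟨(key y hxy (left_mem_Kc y z) c hc).2 (h c hc).1,
      (key z hxz (right_mem_Kc y z) c hc).2 (h c hc).2⟩

theorem FR_U {x y z m : A} [IV x] {k : ℤ} (hxy : RC x y m) (hxz : RC x z m)
    (h : FR x y z (k + 1) m) : FR x y z k (U x m) := (FR_U_iff hxy hxz).1 h

/-! ### the base element -/

theorem kf_pw (x y z : A) (j : ℤ) : kf x (pw x j) y z = 0 := by
  rw [← kf_even]
  unfold kf
  have h : ∀ m : A, asc m x (pw x j) = 0 := fun m =>
    artin (left_mem_Kc m x) (right_mem_Kc m x) (pw_mem_right m x j)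
  rw [h, h, h]; simp

theorem kf_pw' (x y z : A) (j : ℤ) : kf (pw x j) x y z = 0 := by
  rw [kf12, kf_pw, neg_zero]

/-- `ω_j = (x^j, y, z)` -/
noncomputable def om (x y z : A) (j : ℤ) : A := asc (pw x j) y z

theorem om_succ (x y z : A) [IV x] (j : ℤ) :
    om x y z (j + 1) = pw x j * asc x y z + om x y z j * x := by
  have h := kf_pw x y z j
  unfold kf at h
  unfold om
  rw [pw_succ]
  linear_combination (norm := abel) h

theorem om_succ' (x y z : A) [IV x] (j : ℤ) :
    om x y z (j + 1) = x * om x y z j + asc x y z * pw x j := by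
  have h := kf_pw' x y z j
  unfold kf at h
  unfold om
  rw [pw_succ, ← pw_comm]
  linear_combination (norm := abel) h

theorem om_zero (x y z : A) : om x y z 0 = 0 := by unfold om; simp

theorem om_one (x y z : A) : om x y z 1 = asc x y z := by unfold om; simp

theorem V_om (x y z : A) [IV x] (j : ℤ) :
    V x (om x y z (j + 1)) = om x y z (j + 2) + U x (om x y z j) := by
  have h1 := om_succ' x y z (j + 1)
  have h2 := om_succ' x y z j
  have h3 : (asc x y z * pw x j) * x = asc x y z * pw x (j + 1) := by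
    rw [artin_assoc (left_mem_Kc _ x) (pw_mem_right _ x j) (right_mem_Kc _ x), pw_comm, pw_succ]
  unfold V U
  rw [show j + 2 = (j + 1) + 1 by ring, h1]
  conv_lhs => rw [add_comm]
  nth_rewrite 1 [h2]
  rw [add_mul, h3]
  abel

theorem CC_yz_om (x y z : A) [IV y] [IV z] (j : ℤ) : CC y z (om x y z j) := by
  unfold om; rw [asc_cyc]; exact CC_asc_mem _ _ _

theorem CC_xy_asc (x y z : A) [IV x] [IV y] : CC x y (asc x y z) := CC_asc_mem _ _ _

theorem CC_xz_asc (x y z : A) [IV x] [IV z] : CC x z (asc x y z) := by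
  rw [asc23]; exact CC_neg (CC_asc_mem _ _ _)

theorem om_pred (x y z : A) [IV x] (j : ℤ) :
    om x y z (j - 1) = (om x y z j - pw x (j - 1) * asc x y z) * iv x := by
  have h := om_succ x y z (j - 1)
  rw [sub_add_cancel] at h
  rw [h, add_sub_cancel_left, mul_mul_iv]

theorem CC_xy_om (x y z : A) [IV x] [IV y] (j : ℤ) : CC x y (om x y z j) := by
  induction j using Int.induction_on with
  | zero => rw [om_zero]; exact CC_zero _ _
  | succ j ih =>
    rw [om_succ]
    exact CC_add (CC_mul_left (CC_xy_asc x y z) (pw_mem_left x y j))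
      (CC_mul_right ih (left_mem_Kc x y))
  | pred j ih =>
    rw [om_pred]
    exact CC_mul_right (CC_sub ih (CC_mul_left (CC_xy_asc x y z) (pw_mem_left x y _)))
      (ivl_mem_Kc x y)

theorem CC_xz_om (x y z : A) [IV x] [IV z] (j : ℤ) : CC x z (om x y z j) := by
  induction j using Int.induction_on with
  | zero => rw [om_zero]; exact CC_zero _ _
  | succ j ih =>
    rw [om_succ]
    exact CC_add (CC_mul_left (CC_xz_asc x y z) (pw_mem_left x z j))
      (CC_mul_right ih (left_mem_Kc x z))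
  | pred j ih =>
    rw [om_pred]
    exact CC_mul_right (CC_sub ih (CC_mul_left (CC_xz_asc x y z) (pw_mem_left x z _)))
      (ivl_mem_Kc x z)

/-- `V_{x^{n+2}} m = V_x V_{x^{n+1}} m - U_x V_{x^n} m` -/
theorem V_pw_rec (x m : A) [IV x] (n : ℤ) :
    V (pw x (n + 2)) m = V x (V (pw x (n + 1)) m) - U x (V (pw x n) m) := by
  have ha : ∀ {a b c : A}, a ∈ Kc x m → b ∈ Kc x m → c ∈ Kc x m → (a * b) * c = a * (b * c) :=
    fun ha hb hc => artin_assoc ha hb hc
  have hx := left_mem_Kc x m
  have hm := right_mem_Kc x m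
  have hp := fun k => pw_mem_left x m k
  unfold V U
  simp only [mul_add, add_mul]
  rw [show n + 2 = (n + 1) + 1 by ring, pw_succ x (n + 1), pw_succ x n]
  have e1 : x * (m * (x * pw x n)) = (x * (m * pw x n)) * x := by
    rw [← pw_comm, ← ha hm (hp n) hx, ← ha hx (mul_mem hm (hp n)) hx]
  have e2 : (x * (x * pw x n)) * m = x * ((x * pw x n) * m) := ha hx (mul_mem hx (hp n)) hm
  have e3 : m * (x * (x * pw x n)) = (m * (x * pw x n)) * x := by
    rw [ha hm (mul_mem hx (hp n)) hx, ← pw_succ, ← pw_succ, pw_comm, ← pw_succ]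
  have e4 : ((x * pw x n) * m) * x = (x * (pw x n * m)) * x := by
    rw [ha hx (hp n) hm]
  rw [e1, e2, e3, e4]
  abel

theorem V_pw_comm (x m : A) [IV x] (n : ℤ) : V x (V (pw x n) m) = V (pw x n) (V x m) := by
  have ha : ∀ {a b c : A}, a ∈ Kc x m → b ∈ Kc x m → c ∈ Kc x m → (a * b) * c = a * (b * c) :=
    fun ha hb hc => artin_assoc ha hb hc
  have hx := left_mem_Kc x m
  have hm := right_mem_Kc x m
  have hp := fun k => pw_mem_left x m k
  unfold V
  simp only [mul_add, add_mul]
  rw [← ha hx (hp n) hm, ← ha hx hm (hp n), ha (hp n) hm hx, ha hm (hp n) hx, pw_comm,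
    ← ha (hp n) hx hm, pw_comm, ha hm hx (hp n)]
  abel

theorem U_pw_comm (x m : A) [IV x] (n : ℤ) : U x (V (pw x n) m) = V (pw x n) (U x m) := by
  have ha : ∀ {a b c : A}, a ∈ Kc x m → b ∈ Kc x m → c ∈ Kc x m → (a * b) * c = a * (b * c) :=
    fun ha hb hc => artin_assoc ha hb hc
  have hx := left_mem_Kc x m
  have hm := right_mem_Kc x m
  have hp := fun k => pw_mem_left x m k
  unfold V U
  simp only [mul_add, add_mul]
  congr 1
  · rw [← ha hx (hp n) hm, ← pw_comm, ha (hp n) hx hm, ha (hp n) (mul_mem hx hm) hx]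
  · rw [ha hx (mul_mem hm (hp n)) hx, ha hm (hp n) hx, pw_comm, ← ha hm hx (hp n),
      ← ha hx (mul_mem hm hx) (hp n), ha hx hm hx]

section
variable (x y z : A) [IV x] [IV y] [IV z]

theorem FR_om_nat (n : ℕ) : ∀ j : ℤ, FR x y z n (om x y z j) := by
  induction n using Nat.strong_induction_on with
  | _ n ihn =>
  match n, ihn with
  | 0, _ => exact fun j => FR_zero_iff.2 (CC_yz_om x y z j).1
  | 1, ihn =>
    have base : ∀ j, FR x y z ((1 : ℕ) : ℤ) (om x y z j) ↔
        RC y z (V (pw x 1) (om x y z j)) := fun j =>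
      FR_iff (CC_xy_om x y z j).1 (CC_xz_om x y z j).1 (CC_yz_om x y z j).1
    have hU : ∀ j, FR x y z ((1 : ℕ) : ℤ) (om x y z j) ↔ RC y z (U x (om x y z j)) := fun j => by
      rw [← FR_zero_iff (x := x), ← FR_U_iff (CC_xy_om x y z j).1 (CC_xz_om x y z j).1]
      rfl
    have step : ∀ j, FR x y z ((1 : ℕ) : ℤ) (om x y z (j + 1)) ↔
        FR x y z ((1 : ℕ) : ℤ) (om x y z j) := by
      intro j
      rw [base, pw_one, V_om, hU]
      constructor
      · intro h
        have := RC_sub h (CC_yz_om x y z (j + 2)).1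
        rwa [add_sub_cancel_left] at this
      · intro h
        exact RC_add (CC_yz_om x y z _).1 h
    intro j
    induction j using Int.induction_on with
    | zero =>
      rw [base, om_zero, V_zero]
      exact RC_zero _ _
    | succ j ihj => exact (step _).2 ihj
    | pred j ihj =>
      have := (step (-(j : ℤ) - 1)).1
      rw [sub_add_cancel] at this
      exact this ihj
  | n + 2, ihn =>
    have base : ∀ j, FR x y z ((n + 2 : ℕ) : ℤ) (om x y z j) ↔
        RC y z (V (pw x (n + 2)) (om x y z j)) := fun j => by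
      have := FR_iff (k := ((n + 2 : ℕ) : ℤ)) (CC_xy_om x y z j).1 (CC_xz_om x y z j).1
        (CC_yz_om x y z j).1
      push_cast at this ⊢
      exact this
    have hUyz : ∀ j, RC y z (U x (om x y z j)) := fun j =>
      FR_zero_iff.1 (FR_U (CC_xy_om x y z j).1 (CC_xz_om x y z j).1 (ihn 1 (by omega) j))
    have hUiff : ∀ (k : ℤ) j, FR x y z k (U x (om x y z j)) ↔
        RC y z (V (pw x k) (U x (om x y z j))) :=
      fun k j => FR_iff (CC_U (CC_xy_om x y z j) (left_mem_Kc x y)).1
        (CC_U (CC_xz_om x y z j) (left_mem_Kc x z)).1 (hUyz j)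
    have hU2 : ∀ (k : ℤ) j, FR x y z (k + 1) (om x y z j) ↔
        RC y z (V (pw x k) (U x (om x y z j))) := fun k j => by
      rw [← hUiff, ← FR_U_iff (CC_xy_om x y z j).1 (CC_xz_om x y z j).1]
    have ih1 : ∀ j, FR x y z ((n : ℤ) + 1) (om x y z j) := fun j => by
      have := ihn (n + 1) (by omega) j
      push_cast at this
      exact this
    have step : ∀ j, FR x y z ((n + 2 : ℕ) : ℤ) (om x y z (j + 1)) ↔
        FR x y z ((n + 2 : ℕ) : ℤ) (om x y z j) := by
      intro j
      have e1 : V (pw x ((n : ℤ) + 2)) (om x y z (j + 1)) =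
          V (pw x ((n : ℤ) + 1)) (om x y z (j + 2)) +
          V (pw x ((n : ℤ) + 1)) (U x (om x y z j)) -
          V (pw x (n : ℤ)) (U x (om x y z (j + 1))) := by
        rw [V_pw_rec, V_pw_comm, V_om, V_add, U_pw_comm]
      have e2 : FR x y z ((n + 2 : ℕ) : ℤ) (om x y z j) ↔
          RC y z (V (pw x ((n : ℤ) + 1)) (U x (om x y z j))) := by
        rw [← hU2]
        push_cast
        rw [show (n : ℤ) + 1 + 1 = n + 2 by ring]
      have e3 : RC y z (V (pw x ((n : ℤ) + 1)) (om x y z (j + 2))) :=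
        (FR_iff (CC_xy_om x y z _).1 (CC_xz_om x y z _).1 (CC_yz_om x y z _).1).1 (ih1 _)
      have e4 : RC y z (V (pw x (n : ℤ)) (U x (om x y z (j + 1)))) := (hU2 _ _).1 (ih1 _)
      rw [base, e1, e2]
      constructor
      · intro h
        have := RC_sub (RC_add h e4) e3
        have e5 : V (pw x ((n : ℤ) + 1)) (om x y z (j + 2)) +
            V (pw x ((n : ℤ) + 1)) (U x (om x y z j)) -
            V (pw x (n : ℤ)) (U x (om x y z (j + 1))) + V (pw x (n : ℤ)) (U x (om x y z (j + 1))) -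
            V (pw x ((n : ℤ) + 1)) (om x y z (j + 2)) =
            V (pw x ((n : ℤ) + 1)) (U x (om x y z j)) := by abel
        rwa [e5] at this
      · intro h
        exact RC_sub (RC_add e3 h) e4
    intro j
    induction j using Int.induction_on with
    | zero =>
      rw [base, om_zero, V_zero]
      exact RC_zero _ _
    | succ j ihj => exact (step _).2 ihj
    | pred j ihj =>
      have := (step (-(j : ℤ) - 1)).1
      rw [sub_add_cancel] at this
      exact this ihj

theorem FR_om (k : ℤ) (j : ℤ) : FR x y z k (om x y z j) := by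
  rcases Int.le_total 0 k with hk | hk
  · obtain ⟨n, rfl⟩ := Int.eq_ofNat_of_zero_le hk
    exact FR_om_nat x y z n j
  · obtain ⟨n, hn⟩ := Int.eq_ofNat_of_zero_le (a := -k) (by omega)
    have h := FR_om_nat (iv x) y z n (-j)
    have e1 : om (iv x) y z (-j) = om x y z j := by
      unfold om; rw [pw_iv, neg_neg]
    rw [e1] at h
    have hk' : k = -(n : ℤ) := by omega
    intro c hc
    have := h c hc
    rw [pw_iv, ← hk'] at this
    exact this

theorem RC_V_asc (k : ℤ) : RC y z (V (pw x k) (asc x y z)) := by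
  rw [← om_one]
  exact (FR_iff (CC_xy_om x y z _).1 (CC_xz_om x y z _).1 (CC_yz_om x y z _).1).1 (FR_om x y z k 1)

theorem CC_V_asc (k : ℤ) : CC y z (V (pw x k) (asc x y z)) := by
  refine ⟨RC_V_asc x y z k, ?_⟩
  apply RC_op.1
  rw [← V_op, ← asc_op, ← pw_op]
  exact RC_V_asc _ _ _ _

end

end
end Pool.Agent.Lib.MP_1b6260_al
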