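import Pool.Agent.Lib.MP_1b6260_al.Inv

set_option autoImplicit false

namespace Pool.Agent.Lib.MP_1b6260_al

open Pool.Agent.Lib.MP_20522e_al

section
variable {A : Type*} [AltRing A]

open MulOpposite (op unop)

theorem op_mem_Kc {x y a : A} (ha : a ∈ Kc x y) : op a ∈ Kc (op x) (op y) := by
  induction ha using Kc_induction with
  | one => exact one_mem_Kc _ _
  | left => exact left_mem_Kc _ _
  | right => exact right_mem_Kc _ _
  | ivl => rw [← iv_op]; exact ivl_mem_Kc _ _
  | ivr => rw [← iv_op]; exact ivr_mem_Kc _ _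
  | zero => exact zero_mem _
  | add a b _ _ iha ihb => exact add_mem iha ihb
  | neg a _ iha => exact neg_mem iha
  | mul a b _ _ iha ihb => exact mul_mem ihb iha

theorem unop_mem_Kc {x y : A} {a : Aᵐᵒᵖ} (ha : a ∈ Kc (op x) (op y)) : unop a ∈ Kc x y := by
  induction ha using Kc_induction with
  | one => exact one_mem_Kc _ _
  | left => exact left_mem_Kc _ _
  | right => exact right_mem_Kc _ _
  | ivl => rw [iv_op]; exact ivl_mem_Kc _ _
  | ivr => rw [iv_op]; exact ivr_mem_Kc _ _
  | zero => exact zero_mem _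
  | add a b _ _ iha ihb => exact add_mem iha ihb
  | neg a _ iha => exact neg_mem iha
  | mul a b _ _ iha ihb => exact mul_mem ihb iha

/-! ### the classes -/

/-- right Cayley relations with respect to the subring generated by `x` and `y` -/
def RC (x y m : A) : Prop := ∀ a ∈ Kc x y, ∀ b ∈ Kc x y, (m * a) * b = m * (b * a)

/-- left Cayley relations with respect to the subring generated by `x` and `y` -/
def LC (x y m : A) : Prop := ∀ a ∈ Kc x y, ∀ b ∈ Kc x y, a * (b * m) = (b * a) * m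

/-- two-sided Cayley relations -/
def CC (x y m : A) : Prop := RC x y m ∧ LC x y m

theorem RC_comm {x y m : A} (h : RC x y m) : RC y x m := by
  unfold RC at *; rw [Kc_comm]; exact h
theorem LC_comm {x y m : A} (h : LC x y m) : LC y x m := by
  unfold LC at *; rw [Kc_comm]; exact h
theorem CC_comm {x y m : A} (h : CC x y m) : CC y x m := ⟨RC_comm h.1, LC_comm h.2⟩

theorem RC_op {x y m : A} : RC (op x) (op y) (op m) ↔ LC x y m := by
  constructor
  · intro h a ha b hb
    have := h (op b) (op_mem_Kc hb) (op a) (op_mem_Kc ha)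
    exact congrArg unop this
  · intro h a ha b hb
    have := h (unop b) (unop_mem_Kc hb) (unop a) (unop_mem_Kc ha)
    exact congrArg op this

theorem LC_op {x y m : A} : LC (op x) (op y) (op m) ↔ RC x y m := by
  constructor
  · intro h a ha b hb
    have := h (op b) (op_mem_Kc hb) (op a) (op_mem_Kc ha)
    exact congrArg unop this
  · intro h a ha b hb
    have := h (unop b) (unop_mem_Kc hb) (unop a) (unop_mem_Kc ha)
    exact congrArg op this

theorem CC_op {x y m : A} : CC (op x) (op y) (op m) ↔ CC x y m :=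
  ⟨fun h => ⟨LC_op.1 h.2, RC_op.1 h.1⟩, fun h => ⟨RC_op.2 h.2, LC_op.2 h.1⟩⟩

/-! additivity -/

theorem RC_zero (x y : A) : RC x y 0 := by intro a _ b _; simp
theorem RC_add {x y m n : A} (hm : RC x y m) (hn : RC x y n) : RC x y (m + n) := by
  intro a ha b hb
  rw [add_mul, add_mul, add_mul, hm a ha b hb, hn a ha b hb]
theorem RC_neg {x y m : A} (hm : RC x y m) : RC x y (-m) := by
  intro a ha b hb
  rw [neg_mul, neg_mul, neg_mul, hm a ha b hb]
theorem RC_sub {x y m n : A} (hm : RC x y m) (hn : RC x y n) : RC x y (m - n) := by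
  rw [sub_eq_add_neg]; exact RC_add hm (RC_neg hn)
theorem LC_zero (x y : A) : LC x y 0 := by intro a _ b _; simp
theorem LC_add {x y m n : A} (hm : LC x y m) (hn : LC x y n) : LC x y (m + n) := by
  intro a ha b hb
  rw [mul_add, mul_add, mul_add, hm a ha b hb, hn a ha b hb]
theorem LC_neg {x y m : A} (hm : LC x y m) : LC x y (-m) := by
  intro a ha b hb
  rw [mul_neg, mul_neg, mul_neg, hm a ha b hb]
theorem LC_sub {x y m n : A} (hm : LC x y m) (hn : LC x y n) : LC x y (m - n) := by
  rw [sub_eq_add_neg]; exact LC_add hm (LC_neg hn)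
theorem CC_zero (x y : A) : CC x y 0 := ⟨RC_zero x y, LC_zero x y⟩
theorem CC_add {x y m n : A} (hm : CC x y m) (hn : CC x y n) : CC x y (m + n) :=
  ⟨RC_add hm.1 hn.1, LC_add hm.2 hn.2⟩
theorem CC_neg {x y m : A} (hm : CC x y m) : CC x y (-m) := ⟨RC_neg hm.1, LC_neg hm.2⟩
theorem CC_sub {x y m n : A} (hm : CC x y m) (hn : CC x y n) : CC x y (m - n) :=
  ⟨RC_sub hm.1 hn.1, LC_sub hm.2 hn.2⟩

/-! closure under multiplication -/

theorem RC_asc {x y m a b : A} (h : RC x y m) (ha : a ∈ Kc x y) (hb : b ∈ Kc x y) :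
    asc m a b = m * (b * a) - m * (a * b) := by
  unfold asc; rw [h a ha b hb]

theorem LC_asc {x y m a b : A} (h : LC x y m) (ha : a ∈ Kc x y) (hb : b ∈ Kc x y) :
    asc a b m = (a * b) * m - (b * a) * m := by
  unfold asc; rw [h a ha b hb]

theorem RC_mul_right {x y m h : A} (hm : RC x y m) (hh : h ∈ Kc x y) : RC x y (m * h) := by
  intro a ha b hb
  rw [hm h hh a ha, hm _ (mul_mem ha hh) b hb, hm h hh _ (mul_mem hb ha),
    artin_assoc hb ha hh]

theorem RC_left_mul {x y m a h : A} (hm : RC x y m) (ha : a ∈ Kc x y) (hh : h ∈ Kc x y) :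
    (h * m) * a = h * (m * a) + (m * (h * a) - m * (a * h)) := by
  have h1 := RC_asc hm hh ha
  have h2 := asc12 h m a
  unfold asc at h1 h2
  linear_combination (norm := abel) h2 - h1

theorem RC_mul_left {x y m h : A} (hm : RC x y m) (hh : h ∈ Kc x y) : RC x y (h * m) := by
  intro a ha b hb
  rw [RC_left_mul hm ha hh, add_mul, sub_mul, RC_left_mul (RC_mul_right hm ha) hb hh,
    RC_left_mul hm (mul_mem hb ha) hh, hm a ha b hb, hm _ (mul_mem hh ha) b hb,
    hm _ (mul_mem ha hh) b hb, hm a ha _ (mul_mem hh hb), hm a ha _ (mul_mem hb hh),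
    artin_assoc hb ha hh, artin_assoc hb hh ha, artin_assoc hh hb ha]
  abel

theorem LC_mul_left {x y m h : A} (hm : LC x y m) (hh : h ∈ Kc x y) : LC x y (h * m) :=
  RC_op.1 (RC_mul_right (RC_op.2 hm) (op_mem_Kc hh))

theorem LC_mul_right {x y m h : A} (hm : LC x y m) (hh : h ∈ Kc x y) : LC x y (m * h) :=
  RC_op.1 (RC_mul_left (RC_op.2 hm) (op_mem_Kc hh))

theorem CC_mul_left {x y m h : A} (hm : CC x y m) (hh : h ∈ Kc x y) : CC x y (h * m) :=
  ⟨RC_mul_left hm.1 hh, LC_mul_left hm.2 hh⟩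

theorem CC_mul_right {x y m h : A} (hm : CC x y m) (hh : h ∈ Kc x y) : CC x y (m * h) :=
  ⟨RC_mul_right hm.1 hh, LC_mul_right hm.2 hh⟩

/-! ### the operators -/

theorem CC_V {x y m a : A} (hm : CC x y m) (ha : a ∈ Kc x y) : CC x y (V a m) :=
  CC_add (CC_mul_left hm ha) (CC_mul_right hm ha)
theorem CC_U {x y m a : A} (hm : CC x y m) (ha : a ∈ Kc x y) : CC x y (U a m) :=
  CC_mul_right (CC_mul_left hm ha) ha
theorem CC_U2 {x y m a b : A} (hm : CC x y m) (ha : a ∈ Kc x y) (hb : b ∈ Kc x y) :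
    CC x y (U2 a b m) :=
  CC_add (CC_mul_right (CC_mul_left hm ha) hb) (CC_mul_right (CC_mul_left hm hb) ha)
theorem RC_V {x y m a : A} (hm : RC x y m) (ha : a ∈ Kc x y) : RC x y (V a m) :=
  RC_add (RC_mul_left hm ha) (RC_mul_right hm ha)
theorem RC_U {x y m a : A} (hm : RC x y m) (ha : a ∈ Kc x y) : RC x y (U a m) :=
  RC_mul_right (RC_mul_left hm ha) ha

/-- `V a` commutes with right multiplications on the class `RC` -/
theorem V_mul_right {x y m a b : A} (hm : RC x y m) (ha : a ∈ Kc x y) (hb : b ∈ Kc x y) :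
    V a (m * b) = V a m * b := by
  have h1 := RC_left_mul hm hb ha
  have h2 := hm a ha b hb
  have h3 := hm b hb a ha
  unfold V
  rw [add_mul, h1, h2, h3]
  abel

theorem V_mul_left {x y m a b : A} (hm : LC x y m) (ha : a ∈ Kc x y) (hb : b ∈ Kc x y) :
    V a (b * m) = b * V a m := by
  have h := V_mul_right (RC_op.2 hm) (op_mem_Kc ha) (op_mem_Kc hb)
  rw [← MulOpposite.op_mul, V_op, V_op, ← MulOpposite.op_mul] at h
  exact MulOpposite.op_injective h

theorem U2_mul_right' {p q m c : A} (hp : m * (p * c) = (m * c) * p)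
    (hq : m * (q * c) = (m * c) * q) : U2 p q (m * c) = U2 p q m * c := by
  have h := lmouf2 p q m c
  rw [U2_def' p q (m * c)]
  unfold U2
  rw [h, hp, hq]

theorem U2_mul_left' {p q m c : A} (hp : (c * p) * m = p * (c * m))
    (hq : (c * q) * m = q * (c * m)) : U2 p q (c * m) = c * U2 p q m := by
  have h := rmouf2 c p q m
  unfold U2
  rw [← h, hp, hq]

theorem U_mul_right' {p m c : A} (hp : m * (p * c) = (m * c) * p) :
    U p (m * c) = U p m * c := by
  have h := lmouf p m c
  rw [U_def' p (m * c)]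
  unfold U
  rw [h, hp]

theorem U_mul_left' {p m c : A} (hp : (c * p) * m = p * (c * m)) :
    U p (c * m) = c * U p m := by
  have h := rmouf c p m
  unfold U
  rw [← h, hp]

theorem U2_mul_right {x y m p q c : A} (hm : RC x y m) (hp : p ∈ Kc x y) (hq : q ∈ Kc x y)
    (hc : c ∈ Kc x y) : U2 p q (m * c) = U2 p q m * c :=
  U2_mul_right' (hm c hc p hp).symm (hm c hc q hq).symm

theorem U2_mul_left {x y m p q c : A} (hm : LC x y m) (hp : p ∈ Kc x y) (hq : q ∈ Kc x y)
    (hc : c ∈ Kc x y) : U2 p q (c * m) = c * U2 p q m :=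
  U2_mul_left' (hm p hp c hc).symm (hm q hq c hc).symm

theorem U_mul_right {x y m p c : A} (hm : RC x y m) (hp : p ∈ Kc x y)
    (hc : c ∈ Kc x y) : U p (m * c) = U p m * c :=
  U_mul_right' (hm c hc p hp).symm

theorem U_mul_left {x y m p c : A} (hm : LC x y m) (hp : p ∈ Kc x y)
    (hc : c ∈ Kc x y) : U p (c * m) = c * U p m :=
  U_mul_left' (hm p hp c hc).symm

end
end Pool.Agent.Lib.MP_1b6260_al

namespace Pool.Agent.Lib.MP_1b6260_al

open Pool.Agent.Lib.MP_20522e_al

section
variable {A : Type*} [AltRing A]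

theorem RC_iv_left {x y m : A} [IV x] : RC (iv x) y m ↔ RC x y m := by
  unfold RC; rw [Kc_iv_left]
theorem RC_iv_right {x y m : A} [IV y] : RC x (iv y) m ↔ RC x y m := by
  unfold RC; rw [Kc_iv_right]
theorem LC_iv_left {x y m : A} [IV x] : LC (iv x) y m ↔ LC x y m := by
  unfold LC; rw [Kc_iv_left]
theorem LC_iv_right {x y m : A} [IV y] : LC x (iv y) m ↔ LC x y m := by
  unfold LC; rw [Kc_iv_right]
theorem CC_iv_left {x y m : A} [IV x] : CC (iv x) y m ↔ CC x y m := by
  unfold CC; rw [RC_iv_left, LC_iv_left]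
theorem CC_iv_right {x y m : A} [IV y] : CC x (iv y) m ↔ CC x y m := by
  unfold CC; rw [RC_iv_right, LC_iv_right]

theorem RC.old {x y m : A} (h : RC x y m) : Pool.Agent.Lib.MP_20522e_al.RC x y m :=
  fun a ha b hb => h a (old_Kc_le x y ha) b (old_Kc_le x y hb)
theorem LC.old {x y m : A} (h : LC x y m) : Pool.Agent.Lib.MP_20522e_al.LC x y m :=
  fun a ha b hb => h a (old_Kc_le x y ha) b (old_Kc_le x y hb)
theorem CC.old {x y m : A} (h : CC x y m) : Pool.Agent.Lib.MP_20522e_al.CC x y m :=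
  ⟨RC.old h.1, LC.old h.2⟩

end
end Pool.Agent.Lib.MP_1b6260_al
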