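import Mathlib

set_option autoImplicit false

/-!
# Moufang loops, the free Moufang loop, the nucleus
-/

namespace Pool.Agent.Lib.MP_1b6260_al

universe u v

/-- Moufang loops in the signature with multiplication, left and right division and `1`.
`ldiv a b` is the solution of `a x = b`, `rdiv b a` is the solution of `x a = b`. -/
class MoufangLoop (L : Type u) extends Mul L, One L where
  /-- left division -/
  ldiv : L → L → L
  /-- right division -/
  rdiv : L → L → L
  one_mul : ∀ a : L, 1 * a = a
  mul_one : ∀ a : L, a * 1 = a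
  mul_ldiv : ∀ a b : L, a * ldiv a b = b
  ldiv_mul : ∀ a b : L, ldiv a (a * b) = b
  rdiv_mul : ∀ a b : L, rdiv b a * a = b
  mul_rdiv : ∀ a b : L, rdiv (b * a) a = b
  moufang : ∀ x y z : L, (x * y) * (z * x) = (x * (y * z)) * x

/-- Terms over a set `X` of variables in the signature of loops. -/
inductive LTerm (X : Type u) : Type u
  | var : X → LTerm X
  | one : LTerm X
  | mul : LTerm X → LTerm X → LTerm X
  | ldiv : LTerm X → LTerm X → LTerm X
  | rdiv : LTerm X → LTerm X → LTerm X

/-- The congruence on terms generated by the laws of Moufang loops. -/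
inductive LRel (X : Type u) : LTerm X → LTerm X → Prop
  | refl (a : LTerm X) : LRel X a a
  | symm {a b : LTerm X} : LRel X a b → LRel X b a
  | trans {a b c : LTerm X} : LRel X a b → LRel X b c → LRel X a c
  | congr_mul {a b c d : LTerm X} : LRel X a b → LRel X c d → LRel X (.mul a c) (.mul b d)
  | congr_ldiv {a b c d : LTerm X} : LRel X a b → LRel X c d → LRel X (.ldiv a c) (.ldiv b d)
  | congr_rdiv {a b c d : LTerm X} : LRel X a b → LRel X c d → LRel X (.rdiv a c) (.rdiv b d)
  | one_mul (a : LTerm X) : LRel X (.mul .one a) a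
  | mul_one (a : LTerm X) : LRel X (.mul a .one) a
  | mul_ldiv (a b : LTerm X) : LRel X (.mul a (.ldiv a b)) b
  | ldiv_mul (a b : LTerm X) : LRel X (.ldiv a (.mul a b)) b
  | rdiv_mul (a b : LTerm X) : LRel X (.mul (.rdiv b a) a) b
  | mul_rdiv (a b : LTerm X) : LRel X (.rdiv (.mul b a) a) b
  | moufang (x y z : LTerm X) :
      LRel X (.mul (.mul x y) (.mul z x)) (.mul (.mul x (.mul y z)) x)

/-- The setoid of the congruence. -/
def lsetoid (X : Type u) : Setoid (LTerm X) where
  r := LRel X
  iseqv := ⟨LRel.refl, LRel.symm, LRel.trans⟩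

/-- The free Moufang loop on the set `X`. -/
def FreeMoufang (X : Type u) : Type u := Quotient (lsetoid X)

namespace FreeMoufang

variable {X : Type u}

/-- The free generators. -/
def of (x : X) : FreeMoufang X := Quotient.mk (lsetoid X) (LTerm.var x)

instance : MoufangLoop (FreeMoufang X) where
  mul := Quotient.map₂ LTerm.mul (fun _ _ h _ _ h' => LRel.congr_mul h h')
  one := Quotient.mk (lsetoid X) LTerm.one
  ldiv := Quotient.map₂ LTerm.ldiv (fun _ _ h _ _ h' => LRel.congr_ldiv h h')
  rdiv := Quotient.map₂ LTerm.rdiv (fun _ _ h _ _ h' => LRel.congr_rdiv h h')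
  one_mul a := Quotient.inductionOn a fun a => Quotient.sound (LRel.one_mul a)
  mul_one a := Quotient.inductionOn a fun a => Quotient.sound (LRel.mul_one a)
  mul_ldiv a b := Quotient.inductionOn₂ a b fun a b => Quotient.sound (LRel.mul_ldiv a b)
  ldiv_mul a b := Quotient.inductionOn₂ a b fun a b => Quotient.sound (LRel.ldiv_mul a b)
  rdiv_mul a b := Quotient.inductionOn₂ a b fun a b => Quotient.sound (LRel.rdiv_mul a b)
  mul_rdiv a b := Quotient.inductionOn₂ a b fun a b => Quotient.sound (LRel.mul_rdiv a b)
  moufang x y z := Quotient.inductionOn₃ x y z fun x y z => Quotient.sound (LRel.moufang x y z)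

end FreeMoufang

/-- The nucleus (associative center) of a loop. -/
def nucleus (L : Type u) [Mul L] : Set L :=
  {a | ∀ x y : L, (a * x) * y = a * (x * y) ∧ (x * a) * y = x * (a * y) ∧
    (x * y) * a = x * (y * a)}

/-- The alternative laws `(a a) b = a (a b)` and `(b a) a = b (a a)` for a unital ring. -/
def IsAlternative (A : Type u) [NonAssocRing A] : Prop :=
  ∀ a b : A, (a * a) * b = a * (a * b) ∧ (b * a) * a = b * (a * a)

/-- Multiplicative maps which send `1` to `1`. For a Moufang loop `L` and a unital alternative
ring `A` these are the homomorphisms from `L` to the Moufang loop of invertible elements of `A`;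
the images are the special Moufang loops. -/
def IsMulHom {L : Type u} {A : Type v} [Mul L] [One L] [Mul A] [One A] (φ : L → A) : Prop :=
  φ 1 = 1 ∧ ∀ a b : L, φ (a * b) = φ a * φ b

/-- The element `w` of the free Moufang loop is nuclear in all special Moufang loops: its image
under every homomorphism into the invertible elements of an alternative ring associates with all
pairs of elements of the image, in every position. -/
def IsSpecialNuclear {X : Type u} (w : FreeMoufang X) : Prop :=
  ∀ (B : Type) [NonAssocRing B], IsAlternative B → ∀ χ : FreeMoufang X → B, IsMulHom χ →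
    ∀ a b : FreeMoufang X, (χ w * χ a) * χ b = χ w * (χ a * χ b) ∧
      (χ a * χ w) * χ b = χ a * (χ w * χ b) ∧ (χ a * χ b) * χ w = χ a * (χ b * χ w)

end Pool.Agent.Lib.MP_1b6260_al
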