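import Pool.Agent.Lib.MP_20522e_al.Center

set_option autoImplicit false

/-!
# Inverses in alternative rings, Artin theorem with inverses, integral powers
-/

namespace Pool.Agent.Lib.MP_1b6260_al

open Pool.Agent.Lib.MP_20522e_al

section
variable {A : Type*} [AltRing A]

open MulOpposite (op unop)

/-- the element has a two-sided inverse -/
class IV (a : A) : Prop where
  has : ∃ b : A, a * b = 1 ∧ b * a = 1

open Classical in
/-- the inverse, zero if there is none -/
noncomputable def iv (a : A) : A :=
  if h : ∃ b : A, a * b = 1 ∧ b * a = 1 then h.choose else 0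

theorem mul_iv (a : A) [h : IV a] : a * iv a = 1 := by
  unfold iv; rw [dif_pos h.has]; exact h.has.choose_spec.1

theorem iv_mul (a : A) [h : IV a] : iv a * a = 1 := by
  unfold iv; rw [dif_pos h.has]; exact h.has.choose_spec.2

theorem iv_cases (a : A) : IV a ∨ iv a = 0 := by
  by_cases h : ∃ b : A, a * b = 1 ∧ b * a = 1
  · exact Or.inl ⟨h⟩
  · right; unfold iv; rw [dif_neg h]

theorem asc_inv {a b : A} (h1 : a * b = 1) (h2 : b * a = 1) (c : A) : asc a b c = 0 := by
  set u := asc a b c with hu
  have e1 : a * u = 0 := by rw [hu, ← mo_b, h2, asc_one2]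
  have e2 : u * b = 0 := by
    have e : asc b a c = -u := by rw [hu, asc12 a b c, neg_neg]
    have := mo_a b a c
    rw [h2, asc_one2, e, neg_mul] at this
    exact neg_eq_zero.mp this.symm
  have e3 : asc b a u = 0 := by
    rw [asc_cyc]; unfold asc; rw [e1, e2, zero_mul, mul_zero, sub_zero]
  unfold asc at e3
  rw [h2, one_mul, e1, mul_zero, sub_zero] at e3
  exact e3

theorem asc_iv (a c : A) : asc a (iv a) c = 0 := by
  rcases iv_cases a with h | h
  · exact asc_inv (mul_iv a) (iv_mul a) c
  · rw [h, asc_zero2]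

theorem asc_iv' (a c : A) : asc (iv a) a c = 0 := by
  rw [asc12, asc_iv, neg_zero]

theorem asc_iv3 (a c : A) : asc c a (iv a) = 0 := by
  rw [asc_cyc, asc_iv]

theorem asc_iv3' (a c : A) : asc c (iv a) a = 0 := by
  rw [asc_cyc, asc_iv']

theorem iv_mul_cancel (a c : A) [IV a] : iv a * (a * c) = c := by
  have := asc_iv' a c
  unfold asc at this
  rw [iv_mul, one_mul] at this
  exact (sub_eq_zero.mp this).symm

theorem mul_iv_cancel (a c : A) [IV a] : a * (iv a * c) = c := by
  have := asc_iv a c
  unfold asc at this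
  rw [mul_iv, one_mul] at this
  exact (sub_eq_zero.mp this).symm

theorem mul_mul_iv (a c : A) [IV a] : (c * a) * iv a = c := by
  have := asc_iv3 a c
  unfold asc at this
  rw [mul_iv, mul_one] at this
  exact (sub_eq_zero.mp this)

theorem mul_iv_mul (a c : A) [IV a] : (c * iv a) * a = c := by
  have := asc_iv3' a c
  unfold asc at this
  rw [iv_mul, mul_one] at this
  exact (sub_eq_zero.mp this)

theorem iv_unique {a b : A} (h1 : a * b = 1) (h2 : b * a = 1) : iv a = b := by
  haveI : IV a := ⟨b, h1, h2⟩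
  have := iv_mul_cancel a b
  rwa [h1, mul_one] at this

instance IV_iv (a : A) [IV a] : IV (iv a) := ⟨a, iv_mul a, mul_iv a⟩

theorem iv_iv (a : A) [IV a] : iv (iv a) = a := iv_unique (iv_mul a) (mul_iv a)

theorem mul_left_inj_iv {a b c : A} [IV a] (h : a * b = a * c) : b = c := by
  rw [← iv_mul_cancel a b, h, iv_mul_cancel]

theorem mul_right_inj_iv {a b c : A} [IV a] (h : b * a = c * a) : b = c := by
  rw [← mul_mul_iv a b, h, mul_mul_iv]

instance IV_op (a : A) [h : IV a] : IV (op a) :=
  ⟨op (iv a), by rw [← MulOpposite.op_mul, iv_mul, MulOpposite.op_one],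
    by rw [← MulOpposite.op_mul, mul_iv, MulOpposite.op_one]⟩

theorem iv_op (a : A) : iv (op a) = op (iv a) := by
  rcases iv_cases a with h | h
  · apply iv_unique
    · rw [← MulOpposite.op_mul, iv_mul, MulOpposite.op_one]
    · rw [← MulOpposite.op_mul, mul_iv, MulOpposite.op_one]
  · rcases iv_cases (op a) with h' | h'
    · have hb : IV a := ⟨unop (iv (op a)), by
        have := congrArg unop (iv_mul (op a)); exact this, by
        have := congrArg unop (mul_iv (op a)); exact this⟩
      apply iv_unique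
      · rw [← MulOpposite.op_mul, iv_mul, MulOpposite.op_one]
      · rw [← MulOpposite.op_mul, mul_iv, MulOpposite.op_one]
    · rw [h, h']; rfl

instance IV_one : IV (1 : A) := ⟨1, one_mul 1, one_mul 1⟩

theorem kf_iv (a b c : A) : kf a (iv a) b c = 0 := by
  rw [kf_even]; unfold kf
  rw [asc_iv3, asc_iv3, asc_iv3]; simp

theorem kf_iv' (a b c : A) : kf (iv a) a b c = 0 := by
  rw [kf12, kf_iv, neg_zero]

/-- the inverse in an associator -/
theorem asc_iv1 (a b c : A) : asc (iv a) b c = -((iv a * asc a b c) * iv a) := by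
  rcases iv_cases a with h | h
  · have e := kf_iv a b c
    unfold kf at e
    rw [mul_iv, asc_one1, zero_sub] at e
    have e2 : asc (iv a) b c * a = -(iv a * asc a b c) := by
      linear_combination (norm := abel) -e
    rw [← mul_mul_iv a (asc (iv a) b c), e2, neg_mul]
  · rw [h]; simp

theorem asc_iv_left (a b c : A) : asc a b (iv a * c) = asc a b c * iv a := by
  rcases iv_cases a with h | h
  · have e := mo_a' a b (iv a * c)
    rw [mul_iv_cancel] at e
    rw [e, mul_mul_iv]
  · rw [h]; simp

theorem asc_iv_right (a b c : A) : asc a b (c * iv a) = iv a * asc a b c := by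
  rcases iv_cases a with h | h
  · have e := mo_b' a b (c * iv a)
    rw [mul_iv_mul] at e
    rw [e, iv_mul_cancel]
  · rw [h]; simp

/-- the unital subring generated by two elements and their inverses -/
def Kc (x y : A) : NonUnitalSubring A := NonUnitalSubring.closure {1, x, y, iv x, iv y}

theorem one_mem_Kc (x y : A) : (1 : A) ∈ Kc x y :=
  NonUnitalSubring.subset_closure (by simp)
theorem left_mem_Kc (x y : A) : x ∈ Kc x y :=
  NonUnitalSubring.subset_closure (by simp)
theorem right_mem_Kc (x y : A) : y ∈ Kc x y :=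
  NonUnitalSubring.subset_closure (by simp)
theorem ivl_mem_Kc (x y : A) : iv x ∈ Kc x y :=
  NonUnitalSubring.subset_closure (by simp)
theorem ivr_mem_Kc (x y : A) : iv y ∈ Kc x y :=
  NonUnitalSubring.subset_closure (by simp)

theorem Kc_comm (x y : A) : Kc x y = Kc y x := by
  unfold Kc
  congr 1
  ext a
  simp only [Set.mem_insert_iff, Set.mem_singleton_iff]
  tauto

theorem Kc_le {x y : A} {S : NonUnitalSubring A} (h1 : (1 : A) ∈ S) (hx : x ∈ S) (hy : y ∈ S)
    (hx' : iv x ∈ S) (hy' : iv y ∈ S) : Kc x y ≤ S := by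
  unfold Kc
  rw [NonUnitalSubring.closure_le]
  intro a ha
  simp only [Set.mem_insert_iff, Set.mem_singleton_iff] at ha
  rcases ha with rfl | rfl | rfl | rfl | rfl <;> assumption

@[elab_as_elim]
theorem Kc_induction {x y : A} {p : (a : A) → a ∈ Kc x y → Prop}
    (one : p 1 (one_mem_Kc x y)) (left : p x (left_mem_Kc x y)) (right : p y (right_mem_Kc x y))
    (ivl : p (iv x) (ivl_mem_Kc x y)) (ivr : p (iv y) (ivr_mem_Kc x y))
    (zero : p 0 (zero_mem _))
    (add : ∀ a b ha hb, p a ha → p b hb → p (a + b) (add_mem ha hb))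
    (neg : ∀ a ha, p a ha → p (-a) (neg_mem ha))
    (mul : ∀ a b ha hb, p a ha → p b hb → p (a * b) (mul_mem ha hb))
    {a : A} (ha : a ∈ Kc x y) : p a ha := by
  have key : ∀ a ∈ NonUnitalSubring.closure {1, x, y, iv x, iv y}, ∀ h : a ∈ Kc x y, p a h := by
    intro a ha'
    induction ha' using NonUnitalSubring.closure_induction with
    | mem g hg =>
      intro h
      simp only [Set.mem_insert_iff, Set.mem_singleton_iff] at hg
      rcases hg with rfl | rfl | rfl | rfl | rfl
      · exact one
      · exact left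
      · exact right
      · exact ivl
      · exact ivr
    | zero => intro _; exact zero
    | add a b ha hb iha ihb => intro _; exact add a b ha hb (iha ha) (ihb hb)
    | neg a ha iha => intro _; exact neg a ha (iha ha)
    | mul a b ha hb iha ihb => intro _; exact mul a b ha hb (iha ha) (ihb hb)
  exact key a ha ha

theorem artin1 (y z : A) {m : A} (hm : m ∈ Kc y z) : asc m y z = 0 := by
  let N : AddSubgroup A :=
    { carrier := {m | asc m y z = 0}
      zero_mem' := by simp
      add_mem' := by
        intro a b ha hb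
        simp only [Set.mem_ofPred_eq] at *
        rw [asc_add1, ha, hb, add_zero]
      neg_mem' := by
        intro a ha
        simp only [Set.mem_ofPred_eq] at *
        rw [asc_neg1, ha, neg_zero] }
  have key : m ∈ N := by
    refine LR_mem N {1, y, z, iv y, iv z} ?_ ?_ ?_ hm
    · intro g hg
      simp only [Set.mem_insert_iff, Set.mem_singleton_iff] at hg
      change asc g y z = 0
      rcases hg with rfl | rfl | rfl | rfl | rfl
      · simp
      · exact asc_aa _ _
      · exact asc_aba _ _
      · exact asc_iv' _ _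
      · rw [asc_cyc, asc_iv3]
    · intro g hg n hn
      simp only [Set.mem_insert_iff, Set.mem_singleton_iff] at hg
      change asc n y z = 0 at hn
      change asc (g * n) y z = 0
      rcases hg with rfl | rfl | rfl | rfl | rfl
      · rw [one_mul]; exact hn
      · rw [asc12, mo_a, asc12, hn]; simp
      · rw [← asc_cyc, mo_a, asc_cyc, hn]; simp
      · rw [asc_cyc (iv y * n), asc_iv_left, asc_cyc y z n, asc_cyc z n y, hn]; simp
      · rw [asc_cyc (iv z * n), asc12, asc_iv_left, asc12 z y n, asc_cyc y z n, asc_cyc z n y, hn]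
        simp
    · intro g hg n hn
      simp only [Set.mem_insert_iff, Set.mem_singleton_iff] at hg
      change asc n y z = 0 at hn
      change asc (n * g) y z = 0
      rcases hg with rfl | rfl | rfl | rfl | rfl
      · rw [mul_one]; exact hn
      · rw [asc12, mo_b, asc12, hn]; simp
      · rw [← asc_cyc, mo_b, asc_cyc, hn]; simp
      · rw [asc_cyc (n * iv y), asc_iv_right, asc_cyc y z n, asc_cyc z n y, hn]; simp
      · rw [asc_cyc (n * iv z), asc12, asc_iv_right, asc12 z y n, asc_cyc y z n, asc_cyc z n y, hn]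
        simp
  exact key

theorem artin2 (y z : A) {a : A} (ha : a ∈ Kc y z) :
    ∀ m ∈ Kc y z, asc a y m = 0 ∧ asc a z m = 0 := by
  have hyz : ∀ m ∈ Kc y z, asc y z m = 0 := fun m hm => by
    rw [asc_cyc y z m, asc_cyc z m y, artin1 y z hm]
  have hzy : ∀ m ∈ Kc y z, asc z y m = 0 := fun m hm => by
    rw [asc12, hyz m hm, neg_zero]
  induction ha using Kc_induction with
  | one => intro m _; simp
  | left =>
    intro m hm
    exact ⟨asc_aa _ _, hyz m hm⟩
  | right =>
    intro m hm
    exact ⟨hzy m hm, asc_aa _ _⟩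
  | ivl =>
    intro m hm
    exact ⟨asc_iv' _ _, by rw [asc_iv1, hyz m hm]; simp⟩
  | ivr =>
    intro m hm
    exact ⟨by rw [asc_iv1, hzy m hm]; simp, asc_iv' _ _⟩
  | zero => intro m _; simp
  | add a b ha hb iha ihb =>
    intro m hm
    have h1 := iha m hm
    have h2 := ihb m hm
    rw [asc_add1, asc_add1, h1.1, h1.2, h2.1, h2.2]; simp
  | neg a ha iha =>
    intro m hm
    have h1 := iha m hm
    rw [asc_neg1, asc_neg1, h1.1, h1.2]; simp
  | mul a b ha hb iha ihb =>
    intro m hm
    have key : ∀ g : A, (∀ m ∈ Kc y z, asc a g m = 0) → (∀ m ∈ Kc y z, asc b g m = 0) →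
        asc (a * b) g m = 0 := by
      intro g hga hgb
      have e : kf a b g m = 0 := by
        rw [kf12, kf24, kf34]
        unfold kf
        rw [asc_cyc (b * m), asc_cyc b, asc_cyc m]
        rw [hga _ (mul_mem hb hm), hga _ hb, hga _ hm]
        simp
      unfold kf at e
      rw [hga m hm, hgb m hm] at e
      simpa using e
    exact ⟨key y (fun m hm => (iha m hm).1) (fun m hm => (ihb m hm).1),
      key z (fun m hm => (iha m hm).2) (fun m hm => (ihb m hm).2)⟩

/-- Artin's theorem -/
theorem artin {y z : A} {a b c : A} (ha : a ∈ Kc y z) (hb : b ∈ Kc y z) (hc : c ∈ Kc y z) :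
    asc a b c = 0 := by
  induction hb using Kc_induction generalizing a c with
  | one => simp
  | left => exact (artin2 _ _ ha c hc).1
  | right => exact (artin2 _ _ ha c hc).2
  | ivl => rw [asc12, asc_iv1, asc12 y a c, (artin2 _ _ ha c hc).1]; simp
  | ivr => rw [asc12, asc_iv1, asc12 z a c, (artin2 _ _ ha c hc).2]; simp
  | zero => simp
  | add b b' hb hb' ih ih' =>
    rw [asc_add2, ih ha hc, ih' ha hc, add_zero]
  | neg b hb ih => rw [asc_neg2, ih ha hc, neg_zero]
  | mul b b' hb hb' ih ih' =>
    have h := teich a b b' c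
    rw [ih' (mul_mem ha hb) hc, ih ha (mul_mem hb' hc), ih' hb hc, ih ha hb'] at h
    linear_combination (norm := simp) -h

theorem artin_assoc {y z : A} {a b c : A} (ha : a ∈ Kc y z) (hb : b ∈ Kc y z) (hc : c ∈ Kc y z) :
    (a * b) * c = a * (b * c) := by
  have := artin ha hb hc
  unfold asc at this
  exact sub_eq_zero.mp this

theorem Kc_iv_left (x y : A) [IV x] : Kc (iv x) y = Kc x y := by
  unfold Kc
  rw [iv_iv]
  congr 1
  ext a
  simp only [Set.mem_insert_iff, Set.mem_singleton_iff]
  tauto

theorem Kc_iv_right (x y : A) [IV y] : Kc x (iv y) = Kc x y := by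
  rw [Kc_comm, Kc_iv_left, Kc_comm]

/-- the old subring is contained in the new one -/
theorem old_Kc_le (x y : A) : Pool.Agent.Lib.MP_20522e_al.Kc x y ≤ Kc x y :=
  Pool.Agent.Lib.MP_20522e_al.Kc_le (one_mem_Kc x y) (left_mem_Kc x y) (right_mem_Kc x y)

/-- integral powers -/
noncomputable def pw (x : A) : ℤ → A
  | Int.ofNat n => Pool.Agent.Lib.MP_20522e_al.pw x n
  | Int.negSucc n => Pool.Agent.Lib.MP_20522e_al.pw (iv x) (n + 1)

theorem pw_nat (x : A) (n : ℕ) : pw x (n : ℤ) = Pool.Agent.Lib.MP_20522e_al.pw x n := rfl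
@[simp] theorem pw_zero (x : A) : pw x 0 = 1 := rfl

theorem pw_succ (x : A) [IV x] (n : ℤ) : pw x (n + 1) = x * pw x n := by
  match n with
  | Int.ofNat n => rfl
  | Int.negSucc 0 =>
    change (1 : A) = x * (iv x * 1)
    rw [mul_iv_cancel]
  | Int.negSucc (k + 1) =>
    change Pool.Agent.Lib.MP_20522e_al.pw (iv x) (k + 1) =
      x * (iv x * Pool.Agent.Lib.MP_20522e_al.pw (iv x) (k + 1))
    rw [mul_iv_cancel]

@[simp] theorem pw_one (x : A) : pw x 1 = x := by
  change x * 1 = x
  rw [mul_one]

theorem pw_pred (x : A) [IV x] (n : ℤ) : pw x (n - 1) = iv x * pw x n := by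
  have := pw_succ x (n - 1)
  rw [sub_add_cancel] at this
  rw [this, iv_mul_cancel]

theorem pw_neg_one (x : A) [IV x] : pw x (-1) = iv x := by
  have := pw_pred x 0
  rwa [zero_sub, pw_zero, mul_one] at this

theorem pw_mem_left (x y : A) (n : ℤ) : pw x n ∈ Kc x y := by
  have h1 : ∀ n : ℕ, Pool.Agent.Lib.MP_20522e_al.pw x n ∈ Kc x y := by
    intro n
    induction n with
    | zero => exact one_mem_Kc x y
    | succ n ih => exact mul_mem (left_mem_Kc x y) ih
  have h2 : ∀ n : ℕ, Pool.Agent.Lib.MP_20522e_al.pw (iv x) n ∈ Kc x y := by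
    intro n
    induction n with
    | zero => exact one_mem_Kc x y
    | succ n ih => exact mul_mem (ivl_mem_Kc x y) ih
  match n with
  | Int.ofNat n => exact h1 n
  | Int.negSucc n => exact h2 (n + 1)

theorem pw_mem_right (x y : A) (n : ℤ) : pw y n ∈ Kc x y := by
  rw [Kc_comm]; exact pw_mem_left y x n

theorem pw_mul (x : A) [IV x] (i j : ℤ) : pw x i * pw x j = pw x (i + j) := by
  induction i using Int.induction_on with
  | zero => rw [pw_zero, one_mul, zero_add]
  | succ i ih =>
    rw [pw_succ, artin_assoc (left_mem_Kc x x) (pw_mem_left x x _) (pw_mem_left x x j), ih,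
      show (i : ℤ) + 1 + j = (i + j) + 1 by ring, pw_succ]
  | pred i ih =>
    rw [pw_pred, artin_assoc (ivl_mem_Kc x x) (pw_mem_left x x _) (pw_mem_left x x j), ih,
      show -(i : ℤ) - 1 + j = (-i + j) - 1 by ring, pw_pred]

theorem pw_comm (x : A) [IV x] (i : ℤ) : pw x i * x = x * pw x i := by
  have h1 := pw_mul x i 1
  have h2 := pw_mul x 1 i
  rw [pw_one] at h1 h2
  rw [h1, h2, add_comm]

theorem pw_assoc (x c : A) [IV x] (i j : ℤ) : pw x i * (pw x j * c) = pw x (i + j) * c := by
  rw [← pw_mul, artin_assoc (pw_mem_left x c i) (pw_mem_left x c j) (right_mem_Kc x c)]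

theorem pw_assoc1 (x c : A) [IV x] (j : ℤ) : x * (pw x j * c) = pw x (j + 1) * c := by
  rw [pw_succ, artin_assoc (left_mem_Kc x c) (pw_mem_left x c j) (right_mem_Kc x c)]

theorem pw_iv (x : A) [IV x] (n : ℤ) : pw (iv x) n = pw x (-n) := by
  induction n using Int.induction_on with
  | zero => simp
  | succ i ih => rw [pw_succ, ih, ← pw_pred]; congr 1; ring
  | pred i ih => rw [pw_pred, ih, iv_iv, ← pw_succ]; congr 1; ring

theorem pw_op (x : A) [IV x] (k : ℤ) : pw (op x) k = op (pw x k) := by
  induction k using Int.induction_on with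
  | zero => rfl
  | succ k ih => rw [pw_succ, ih, ← MulOpposite.op_mul, pw_comm, pw_succ]
  | pred k ih =>
    have e : pw x (-(k : ℤ)) * iv x = iv x * pw x (-(k : ℤ)) := by
      have h1 := pw_mul x (-(k : ℤ)) (-1)
      have h2 := pw_mul x (-1) (-(k : ℤ))
      rw [pw_neg_one] at h1 h2
      rw [h1, h2, add_comm]
    rw [pw_pred, ih, iv_op, ← MulOpposite.op_mul, e, pw_pred]

end
end Pool.Agent.Lib.MP_1b6260_al
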