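import Pool.Agent.Lib.MP_1b6260_al.Defs
import Pool.Agent.Lib.MP_1b6260_al.Inv

set_option autoImplicit false

/-!
# Homomorphisms from free Moufang loops to alternative rings and to groups
-/

namespace Pool.Agent.Lib.MP_1b6260_al

open Pool.Agent.Lib.MP_20522e_al

universe u v

namespace MoufangLoop

variable {L : Type u} [MoufangLoop L]

theorem cancel_left {a b c : L} (h : a * b = a * c) : b = c := by
  rw [← ldiv_mul a b, h, ldiv_mul]

theorem cancel_right {a b c : L} (h : b * a = c * a) : b = c := by
  rw [← mul_rdiv a b, h, mul_rdiv]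

theorem mul_ldiv_one (a : L) : a * ldiv a 1 = 1 := mul_ldiv a 1

theorem left_inv (a z : L) : a * (ldiv a 1 * z) = z := by
  have h := moufang a (ldiv a 1) z
  rw [mul_ldiv_one, one_mul] at h
  exact (cancel_right h).symm

theorem ldiv_one_mul (a : L) : ldiv a 1 * a = 1 := by
  apply cancel_left (a := a)
  rw [left_inv, mul_one]

end MoufangLoop

namespace FreeMoufang

variable {X : Type u}

/-- induction on elements of the free Moufang loop -/
theorem ind {p : FreeMoufang X → Prop} (hof : ∀ x, p (of x)) (hone : p 1)
    (hmul : ∀ a b, p a → p b → p (a * b))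
    (hl : ∀ a b, p a → p b → p (MoufangLoop.ldiv a b))
    (hr : ∀ a b, p a → p b → p (MoufangLoop.rdiv a b)) (w : FreeMoufang X) : p w := by
  induction w using Quotient.inductionOn with
  | h t =>
    induction t with
    | var x => exact hof x
    | one => exact hone
    | mul a b iha ihb => exact hmul _ _ iha ihb
    | ldiv a b iha ihb => exact hl _ _ iha ihb
    | rdiv a b iha ihb => exact hr _ _ iha ihb

/-- evaluation of terms -/
def evalT {L : Type v} [MoufangLoop L] (f : X → L) : LTerm X → L
  | .var x => f x
  | .one => 1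
  | .mul a b => evalT f a * evalT f b
  | .ldiv a b => MoufangLoop.ldiv (evalT f a) (evalT f b)
  | .rdiv a b => MoufangLoop.rdiv (evalT f a) (evalT f b)

theorem evalT_rel {L : Type v} [MoufangLoop L] (f : X → L) {a b : LTerm X} (h : LRel X a b) :
    evalT f a = evalT f b := by
  induction h with
  | refl a => rfl
  | symm _ ih => exact ih.symm
  | trans _ _ ih1 ih2 => exact ih1.trans ih2
  | congr_mul _ _ ih1 ih2 => simp only [evalT, ih1, ih2]
  | congr_ldiv _ _ ih1 ih2 => simp only [evalT, ih1, ih2]
  | congr_rdiv _ _ ih1 ih2 => simp only [evalT, ih1, ih2]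
  | one_mul a => exact MoufangLoop.one_mul _
  | mul_one a => exact MoufangLoop.mul_one _
  | mul_ldiv a b => exact MoufangLoop.mul_ldiv _ _
  | ldiv_mul a b => exact MoufangLoop.ldiv_mul _ _
  | rdiv_mul a b => exact MoufangLoop.rdiv_mul _ _
  | mul_rdiv a b => exact MoufangLoop.mul_rdiv _ _
  | moufang x y z => exact MoufangLoop.moufang _ _ _

/-- the homomorphism given by the images of the generators -/
def lift {L : Type v} [MoufangLoop L] (f : X → L) (w : FreeMoufang X) : L :=
  Quotient.lift (evalT f) (fun _ _ h => evalT_rel f h) w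

variable {L : Type v} [MoufangLoop L] (f : X → L)

theorem lift_of (x : X) : lift f (of x) = f x := rfl
theorem lift_one : lift f 1 = 1 := rfl
theorem lift_mul (a b : FreeMoufang X) : lift f (a * b) = lift f a * lift f b := by
  induction a using Quotient.inductionOn with
  | h a =>
    induction b using Quotient.inductionOn with
    | h b => rfl
theorem lift_ldiv (a b : FreeMoufang X) :
    lift f (MoufangLoop.ldiv a b) = MoufangLoop.ldiv (lift f a) (lift f b) := by
  induction a using Quotient.inductionOn with
  | h a =>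
    induction b using Quotient.inductionOn with
    | h b => rfl
theorem lift_rdiv (a b : FreeMoufang X) :
    lift f (MoufangLoop.rdiv a b) = MoufangLoop.rdiv (lift f a) (lift f b) := by
  induction a using Quotient.inductionOn with
  | h a =>
    induction b using Quotient.inductionOn with
    | h b => rfl

end FreeMoufang

/-- groups as Moufang loops -/
@[reducible] def groupLoop (G : Type u) [Group G] : MoufangLoop G where
  mul a b := a * b
  one := 1
  ldiv a b := a⁻¹ * b
  rdiv a b := a * b⁻¹
  one_mul := _root_.one_mul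
  mul_one := _root_.mul_one
  mul_ldiv a b := mul_inv_cancel_left a b
  ldiv_mul a b := inv_mul_cancel_left a b
  rdiv_mul a b := inv_mul_cancel_right b a
  mul_rdiv a b := mul_inv_cancel_right b a
  moufang x y z := by simp only [mul_assoc]

section
variable {A : Type v} [AltRing A]

theorem IV_mul {a b : A} [IV a] [IV b] :
    (a * b) * (iv b * iv a) = 1 ∧ (iv b * iv a) * (a * b) = 1 := by
  have ha := left_mem_Kc a b
  have hb := right_mem_Kc a b
  have ha' := ivl_mem_Kc a b
  have hb' := ivr_mem_Kc a b
  constructor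
  · rw [artin_assoc ha hb (mul_mem hb' ha'), mul_iv_cancel, mul_iv]
  · rw [artin_assoc hb' ha' (mul_mem ha hb), iv_mul_cancel, iv_mul]

instance instIVmul (a b : A) [IV a] [IV b] : IV (a * b) := ⟨_, IV_mul⟩

theorem iv_mul_rev (a b : A) [IV a] [IV b] : iv (a * b) = iv b * iv a :=
  iv_unique IV_mul.1 IV_mul.2

/-- the loop of invertible elements of an alternative ring -/
def UL (A : Type v) [AltRing A] : Type v := {a : A // IV a}

noncomputable instance : MoufangLoop (UL A) where
  mul a b := ⟨a.1 * b.1, by have := a.2; have := b.2; infer_instance⟩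
  one := ⟨1, inferInstance⟩
  ldiv a b := ⟨iv a.1 * b.1, by have := a.2; have := b.2; infer_instance⟩
  rdiv a b := ⟨a.1 * iv b.1, by have := a.2; have := b.2; infer_instance⟩
  one_mul a := Subtype.ext (_root_.one_mul a.1)
  mul_one a := Subtype.ext (_root_.mul_one a.1)
  mul_ldiv a b := Subtype.ext (by have := a.2; exact mul_iv_cancel a.1 b.1)
  ldiv_mul a b := Subtype.ext (by have := a.2; exact iv_mul_cancel a.1 b.1)
  rdiv_mul a b := Subtype.ext (by have := a.2; exact mul_iv_mul a.1 b.1)
  mul_rdiv a b := Subtype.ext (by have := a.2; exact mul_mul_iv a.1 b.1)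
  moufang x y z := Subtype.ext (mmouf x.1 y.1 z.1)

section hom
variable {L : Type u} [MoufangLoop L] {φ : L → A} (h1 : φ 1 = 1)
  (hm : ∀ a b, φ (a * b) = φ a * φ b)
include h1 hm

theorem hom_IV (a : L) : IV (φ a) :=
  ⟨φ (MoufangLoop.ldiv a 1), by rw [← hm, MoufangLoop.mul_ldiv_one, h1],
    by rw [← hm, MoufangLoop.ldiv_one_mul, h1]⟩

theorem hom_ldiv (a b : L) : φ (MoufangLoop.ldiv a b) = iv (φ a) * φ b := by
  have := hom_IV h1 hm a
  have e : φ a * φ (MoufangLoop.ldiv a b) = φ b := by rw [← hm, MoufangLoop.mul_ldiv]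
  rw [← e, iv_mul_cancel]

theorem hom_rdiv (a b : L) : φ (MoufangLoop.rdiv a b) = φ a * iv (φ b) := by
  have := hom_IV h1 hm b
  have e : φ (MoufangLoop.rdiv a b) * φ b = φ a := by rw [← hm, MoufangLoop.rdiv_mul]
  rw [← e, mul_mul_iv]

end hom

end

end Pool.Agent.Lib.MP_1b6260_al
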