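import Pool.Agent.Lib.MP_1b6260_al.Bas

set_option autoImplicit false

namespace Pool.Agent.Lib.MP_1b6260_al

open Pool.Agent.Lib.MP_20522e_al

section
variable {A : Type*} [AltRing A]

open MulOpposite (op unop)

/-- the class `P` with integral powers -/
structure PP (x y z m : A) : Prop where
  xy : CC x y m
  xz : CC x z m
  yz : CC y z m
  fx : ∀ k, CC y z (V (pw x k) m)
  fy : ∀ k, CC x z (V (pw y k) m)
  fz : ∀ k, CC x y (V (pw z k) m)

theorem PP.swap {x y z m : A} (h : PP x y z m) : PP y x z m :=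
  ⟨CC_comm h.xy, h.yz, h.xz, h.fy, h.fx, fun k => CC_comm (h.fz k)⟩

theorem PP.cyc {x y z m : A} (h : PP x y z m) : PP y z x m :=
  ⟨h.yz, CC_comm h.xy, CC_comm h.xz, fun k => CC_comm (h.fy k), fun k => CC_comm (h.fz k), h.fx⟩

theorem PP.swap23 {x y z m : A} (h : PP x y z m) : PP x z y m := h.cyc.swap.cyc.cyc

/-- the new class is contained in the old one -/
theorem PP.old {x y z m : A} (h : PP x y z m) : Pool.Agent.Lib.MP_20522e_al.PP x y z m :=
  ⟨h.xy.old, h.xz.old, h.yz.old, fun k => (h.fx k).old, fun k => (h.fy k).old,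
    fun k => (h.fz k).old⟩

theorem PP_zero (x y z : A) : PP x y z 0 := by
  refine ⟨CC_zero _ _, CC_zero _ _, CC_zero _ _, ?_, ?_, ?_⟩ <;>
    · intro k; rw [V_zero]; exact CC_zero _ _

theorem PP_add {x y z m n : A} (hm : PP x y z m) (hn : PP x y z n) : PP x y z (m + n) := by
  refine ⟨CC_add hm.xy hn.xy, CC_add hm.xz hn.xz, CC_add hm.yz hn.yz, ?_, ?_, ?_⟩
  · intro k; rw [V_add]; exact CC_add (hm.fx k) (hn.fx k)
  · intro k; rw [V_add]; exact CC_add (hm.fy k) (hn.fy k)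
  · intro k; rw [V_add]; exact CC_add (hm.fz k) (hn.fz k)

theorem PP_neg {x y z m : A} (hm : PP x y z m) : PP x y z (-m) := by
  refine ⟨CC_neg hm.xy, CC_neg hm.xz, CC_neg hm.yz, ?_, ?_, ?_⟩
  · intro k; rw [V_neg]; exact CC_neg (hm.fx k)
  · intro k; rw [V_neg]; exact CC_neg (hm.fy k)
  · intro k; rw [V_neg]; exact CC_neg (hm.fz k)

theorem PP_sub {x y z m n : A} (hm : PP x y z m) (hn : PP x y z n) : PP x y z (m - n) := by
  rw [sub_eq_add_neg]; exact PP_add hm (PP_neg hn)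

section
variable {x y z m : A} [IV x] [IV y] [IV z]

theorem PP_op : PP (op x) (op y) (op z) (op m) ↔ PP x y z m := by
  constructor
  · intro h
    refine ⟨CC_op.1 h.xy, CC_op.1 h.xz, CC_op.1 h.yz, ?_, ?_, ?_⟩
    · intro k; have := h.fx k; rw [pw_op, V_op] at this; exact CC_op.1 this
    · intro k; have := h.fy k; rw [pw_op, V_op] at this; exact CC_op.1 this
    · intro k; have := h.fz k; rw [pw_op, V_op] at this; exact CC_op.1 this
  · intro h
    refine ⟨CC_op.2 h.xy, CC_op.2 h.xz, CC_op.2 h.yz, ?_, ?_, ?_⟩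
    · intro k; rw [pw_op, V_op]; exact CC_op.2 (h.fx k)
    · intro k; rw [pw_op, V_op]; exact CC_op.2 (h.fy k)
    · intro k; rw [pw_op, V_op]; exact CC_op.2 (h.fz k)

/-- the class does not change if a generator is replaced by its inverse -/
theorem PP_iv : PP (iv x) y z m ↔ PP x y z m := by
  constructor
  · intro h
    refine ⟨CC_iv_left.1 h.xy, CC_iv_left.1 h.xz, h.yz, ?_, ?_, ?_⟩
    · intro k; have := h.fx (-k); rw [pw_iv, neg_neg] at this; exact this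
    · intro k; exact CC_iv_left.1 (h.fy k)
    · intro k; exact CC_iv_left.1 (h.fz k)
  · intro h
    refine ⟨CC_iv_left.2 h.xy, CC_iv_left.2 h.xz, h.yz, ?_, ?_, ?_⟩
    · intro k; rw [pw_iv]; exact h.fx (-k)
    · intro k; exact CC_iv_left.2 (h.fy k)
    · intro k; exact CC_iv_left.2 (h.fz k)

theorem PP_base (x y z : A) [IV x] [IV y] [IV z] : PP x y z (asc x y z) := by
  refine ⟨CC_xy_asc _ _ _, CC_xz_asc _ _ _, ?_, CC_V_asc x y z, ?_, ?_⟩
  · rw [asc_cyc]; exact CC_asc_mem _ _ _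
  · intro k; rw [asc_cyc]; exact CC_comm (CC_V_asc y z x k)
  · intro k; rw [← asc_cyc]; exact CC_V_asc z x y k

theorem PP.FR (h : PP x y z m) (k : ℤ) : FR x y z k m :=
  (FR_iff h.xy.1 h.xz.1 h.yz.1).2 (h.fx k).1

/-- right relation F with first factor `y` -/
theorem PP.FRy {c : A} (h : PP x y z m) (k : ℤ) (hc : c ∈ Kc y z) :
    (m * y) * (pw x k * c) = m * (pw x k * (c * y)) := (h.FR k c hc).1

theorem PP.FRz {c : A} (h : PP x y z m) (k : ℤ) (hc : c ∈ Kc y z) :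
    (m * z) * (pw x k * c) = m * (pw x k * (c * z)) := (h.FR k c hc).2

theorem PP.FR1y {c : A} (h : PP x y z m) (hc : c ∈ Kc y z) :
    (m * y) * (x * c) = m * (x * (c * y)) := by
  have := h.FRy 1 hc; rwa [pw_one] at this

theorem PP.FR1z {c : A} (h : PP x y z m) (hc : c ∈ Kc y z) :
    (m * z) * (x * c) = m * (x * (c * z)) := by
  have := h.FRz 1 hc; rwa [pw_one] at this

/-! ### closure under `V_{x^j}` -/

theorem FR_V (h : PP x y z m) (j k : ℤ) : Pool.Agent.Lib.MP_1b6260_al.FR x y z k (V (pw x j) m) := by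
  have key : ∀ b : A, CC x b m → (∀ k, ∀ c ∈ Kc y z, (m * b) * (pw x k * c) =
      m * (pw x k * (c * b))) → b ∈ Kc y z → ∀ c ∈ Kc y z,
      (V (pw x j) m * b) * (pw x k * c) = V (pw x j) m * (pw x k * (c * b)) := by
    intro b hb hF hbK c hc
    have e1 : V (pw x j) m * b = V (pw x j) (m * b) :=
      (V_mul_right hb.1 (pw_mem_left x b j) (right_mem_Kc x b)).symm
    have e2 := la2 (pw x j) (m * b) (pw x k * c)
    have e3 := la2 (pw x j) m (pw x k * (c * b))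
    rw [pw_assoc, hF k c hc, hF (j + k) c hc] at e2
    rw [pw_assoc] at e3
    rw [e1]
    unfold V
    rw [add_mul, add_mul, e2, e3]
  intro c hc
  exact ⟨key y h.xy (fun k c hc => h.FRy k hc) (left_mem_Kc y z) c hc,
    key z h.xz (fun k c hc => h.FRz k hc) (right_mem_Kc y z) c hc⟩

theorem RC_V_V (h : PP x y z m) (j k : ℤ) :
    RC y z (V (pw x k) (V (pw x j) m)) :=
  (FR_iff (CC_V h.xy (pw_mem_left x y j)).1 (CC_V h.xz (pw_mem_left x z j)).1 (h.fx j).1).1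
    (FR_V h j k)

theorem CC_V_V (h : PP x y z m) (j k : ℤ) :
    CC y z (V (pw x k) (V (pw x j) m)) := by
  refine ⟨RC_V_V h j k, ?_⟩
  apply RC_op.1
  rw [← V_op, ← V_op, ← pw_op, ← pw_op]
  exact RC_V_V (PP_op.2 h) j k

theorem PP_V (h : PP x y z m) (j : ℤ) : PP x y z (V (pw x j) m) := by
  refine ⟨CC_V h.xy (pw_mem_left x y j), CC_V h.xz (pw_mem_left x z j), h.fx j,
    fun k => CC_V_V h j k, ?_, ?_⟩
  · intro k
    rw [V_V_comm h.xy (pw_mem_right x y k) (pw_mem_left x y j)]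
    exact CC_V (h.fy k) (pw_mem_left x z j)
  · intro k
    rw [V_V_comm h.xz (pw_mem_right x z k) (pw_mem_left x z j)]
    exact CC_V (h.fz k) (pw_mem_left x y j)

theorem PP_Vx (h : PP x y z m) : PP x y z (V x m) := by
  have := PP_V h 1; rwa [pw_one] at this

theorem PP_Vy (h : PP x y z m) : PP x y z (V y m) := (PP_Vx h.swap).swap
theorem PP_Vz (h : PP x y z m) : PP x y z (V z m) := (PP_Vx h.cyc.cyc).cyc

/-! ### closure under `U_x` -/

theorem RC_U_x (h : PP x y z m) : RC y z (U x m) :=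
  FR_zero_iff.1 (FR_U h.xy.1 h.xz.1 (h.FR 1))

theorem CC_U_x (h : PP x y z m) : CC y z (U x m) := by
  refine ⟨RC_U_x h, RC_op.1 ?_⟩
  rw [← U_op]; exact RC_U_x (PP_op.2 h)

theorem RC_V_U (h : PP x y z m) (k : ℤ) : RC y z (V (pw x k) (U x m)) :=
  (FR_iff (CC_U h.xy (left_mem_Kc x y)).1 (CC_U h.xz (left_mem_Kc x z)).1 (RC_U_x h)).1
    (FR_U h.xy.1 h.xz.1 (h.FR (k + 1)))

theorem CC_V_U (h : PP x y z m) (k : ℤ) : CC y z (V (pw x k) (U x m)) := by
  refine ⟨RC_V_U h k, RC_op.1 ?_⟩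
  rw [← V_op, ← U_op, ← pw_op]
  exact RC_V_U (PP_op.2 h) k

theorem V_U_comm' {a b : A} (hm : CC x y m) (ha : a ∈ Kc x y) (hb : b ∈ Kc x y) :
    V a (U b m) = U b (V a m) := V_U_comm hm ha hb

theorem PP_Ux (h : PP x y z m) : PP x y z (U x m) := by
  refine ⟨CC_U h.xy (left_mem_Kc x y), CC_U h.xz (left_mem_Kc x z), CC_U_x h,
    fun k => CC_V_U h k, ?_, ?_⟩
  · intro k
    rw [V_U_comm h.xy (pw_mem_right x y k) (left_mem_Kc x y)]
    exact CC_U (h.fy k) (left_mem_Kc x z)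
  · intro k
    rw [V_U_comm h.xz (pw_mem_right x z k) (left_mem_Kc x z)]
    exact CC_U (h.fz k) (left_mem_Kc x y)

theorem PP_Uy (h : PP x y z m) : PP x y z (U y m) := (PP_Ux h.swap).swap
theorem PP_Uz (h : PP x y z m) : PP x y z (U z m) := (PP_Ux h.cyc.cyc).cyc

/-- closure under `U` of the inverse -/
theorem PP_Uix (h : PP x y z m) : PP x y z (U (iv x) m) := PP_iv.1 (PP_Ux (PP_iv.2 h))
theorem PP_Uiy (h : PP x y z m) : PP x y z (U (iv y) m) := (PP_Uix h.swap).swap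
theorem PP_Uiz (h : PP x y z m) : PP x y z (U (iv z) m) := (PP_Uix h.cyc.cyc).cyc

/-! ### closure under `U_{x,h}` -/

/-- `U_{x,h}` commutes with right multiplication by `y`, `z` -/
theorem U2_mul_gen {x y z m h b : A} (hxb : RC x b m) (hyz : RC y z m) (hh : h ∈ Kc y z)
    (hb : b ∈ Kc y z) : U2 x h (m * b) = U2 x h m * b :=
  U2_mul_right' (hxb b (right_mem_Kc x b) x (left_mem_Kc x b)).symm (hyz b hb h hh).symm

theorem RC_U2 {h : A} (hm : PP x y z m) (hh : h ∈ Kc y z) : RC y z (U2 x h m) := by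
  have key : ∀ b : A, RC x b m → (∀ c ∈ Kc y z, (m * b) * (x * c) = m * (x * (c * b))) →
      b ∈ Kc y z → ∀ c ∈ Kc y z, (U2 x h m * b) * c = U2 x h m * (c * b) := by
    intro b hb hF hbK c hc
    rw [← U2_mul_gen hb hm.yz.1 hh hbK]
    unfold U2
    rw [lmouf2, lmouf2, hF c hc, hm.yz.1 b hbK _ (mul_mem hh hc), artin_assoc hh hc hbK]
  exact RC_of_gen (key y hm.xy.1 (fun c hc => hm.FR1y hc) (left_mem_Kc y z))
    (key z hm.xz.1 (fun c hc => hm.FR1z hc) (right_mem_Kc y z))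

theorem CC_U2_yz {h : A} (hm : PP x y z m) (hh : h ∈ Kc y z) : CC y z (U2 x h m) := by
  refine ⟨RC_U2 hm hh, RC_op.1 ?_⟩
  rw [← U2_op]; exact RC_U2 (PP_op.2 hm) (op_mem_Kc hh)

/-- `U_{x,y}` commutes with right and left multiplications by powers of `z` -/
theorem U2_mul_pwz (h : PP x y z m) (k : ℤ) :
    U2 x y (m * pw z k) = U2 x y m * pw z k :=
  U2_mul_right' (h.xz.1 _ (pw_mem_right x z k) x (left_mem_Kc x z)).symm
    (h.yz.1 _ (pw_mem_right y z k) y (left_mem_Kc y z)).symm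

theorem U2_pwz_mul (h : PP x y z m) (k : ℤ) :
    U2 x y (pw z k * m) = pw z k * U2 x y m :=
  U2_mul_left' (h.xz.2 x (left_mem_Kc x z) _ (pw_mem_right x z k)).symm
    (h.yz.2 y (left_mem_Kc y z) _ (pw_mem_right y z k)).symm

theorem V_U2_z (h : PP x y z m) (k : ℤ) :
    V (pw z k) (U2 x y m) = U2 x y (V (pw z k) m) := by
  conv_rhs => rw [show V (pw z k) m = pw z k * m + m * pw z k from rfl, U2_add, U2_pwz_mul h,
    U2_mul_pwz h]
  rfl

theorem PP_U2xy (h : PP x y z m) : PP x y z (U2 x y m) := by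
  refine ⟨CC_U2 h.xy (left_mem_Kc x y) (right_mem_Kc x y), ?_, CC_U2_yz h (left_mem_Kc y z),
    ?_, ?_, ?_⟩
  · rw [U2_comm]; exact CC_U2_yz h.swap (left_mem_Kc x z)
  · intro k
    rw [V_U2_comm h.xy (pw_mem_left x y k) (left_mem_Kc x y) (right_mem_Kc x y)]
    exact CC_U2_yz (PP_V h k) (left_mem_Kc y z)
  · intro k
    rw [V_U2_comm h.xy (pw_mem_right x y k) (left_mem_Kc x y) (right_mem_Kc x y), U2_comm]
    exact CC_U2_yz (PP_V h.swap k) (left_mem_Kc x z)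
  · intro k
    rw [V_U2_z h]
    exact CC_U2 (h.fz k) (left_mem_Kc x y) (right_mem_Kc x y)

theorem PP_U2yz (h : PP x y z m) : PP x y z (U2 y z m) :=
  (PP_U2xy h.cyc).cyc.cyc
theorem PP_U2xz (h : PP x y z m) : PP x y z (U2 x z m) :=
  (PP_U2xy h.swap23).swap23

/-! ### closure under `Θ = U_{x, yz}` -/

theorem PP_Vyz (h : PP x y z m) : PP x y z (V (y * z) m) := by
  rw [V_yz h.yz.2.old, U2_comm]
  exact PP_sub (PP_Vz (PP_Vy h)) (PP_U2yz h)

theorem PP_Vzx (h : PP x y z m) : PP x y z (V (z * x) m) :=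
  (PP_Vyz h.cyc).cyc.cyc
theorem PP_Vxy (h : PP x y z m) : PP x y z (V (x * y) m) :=
  (PP_Vyz h.cyc.cyc).cyc

theorem CC_Th_yz (h : PP x y z m) : CC y z (U2 x (y * z) m) :=
  CC_U2_yz h (mul_mem (left_mem_Kc y z) (right_mem_Kc y z))

theorem CC_Th_xz (h : PP x y z m) : CC x z (U2 x (y * z) m) := by
  rw [Th_cyc h.old]
  exact CC_add (CC_sub (PP_Vx (PP_Vyz h)).xz (PP_Vy (PP_Vzx h)).xz) (CC_comm (CC_Th_yz h.cyc))

theorem CC_Th_xy (h : PP x y z m) : CC x y (U2 x (y * z) m) := by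
  rw [Th_cyc2 h.old]
  exact CC_add (CC_sub (PP_Vx (PP_Vyz h)).xy (PP_Vz (PP_Vxy h)).xy) (CC_Th_yz h.cyc.cyc)

theorem FR_Th (h : PP x y z m) (k : ℤ) :
    Pool.Agent.Lib.MP_1b6260_al.FR x y z k (U2 x (y * z) m) := by
  have hyz : y * z ∈ Kc y z := mul_mem (left_mem_Kc y z) (right_mem_Kc y z)
  have hV := (PP_Vyz h).FR k
  have key : ∀ b : A, RC x b m → (∀ k, ∀ c ∈ Kc y z, (m * b) * (pw x k * c) =
      m * (pw x k * (c * b))) →
      (∀ c ∈ Kc y z, (V (y * z) m * b) * (pw x k * c) = V (y * z) m * (pw x k * (c * b))) →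
      b ∈ Kc y z → ∀ c ∈ Kc y z,
      (U2 x (y * z) m * b) * (pw x k * c) = U2 x (y * z) m * (pw x k * (c * b)) := by
    intro b hb hF hFV hbK c hc
    have star : (m * b) * ((y * z) * (pw x k * c)) = m * ((y * z) * (pw x k * (c * b))) := by
      have e1 := la2 (y * z) (m * b) (pw x k * c)
      have e2 := la2 (y * z) m (pw x k * (c * b))
      have e3 : (y * z * (m * b)) * (pw x k * c) + (m * b * (y * z)) * (pw x k * c) =
          V (y * z) m * (pw x k * (c * b)) := by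
        rw [← hFV c hc, ← V_mul_right h.yz.1 hyz hbK, ← add_mul]; rfl
      have e4 : (y * z * m) * (pw x k * (c * b)) + (m * (y * z)) * (pw x k * (c * b)) =
          V (y * z) m * (pw x k * (c * b)) := by
        rw [← add_mul]; rfl
      rw [hF k c hc, e3] at e1
      rw [e4] at e2
      linear_combination (norm := abel) e2 - e1
    rw [← U2_mul_gen hb h.yz.1 hyz hbK]
    unfold U2
    rw [lmouf2, lmouf2, star, pw_assoc1, hF (k + 1) c hc, pw_assoc1]
  intro c hc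
  exact ⟨key y h.xy.1 (fun k c hc => h.FRy k hc) (fun c hc => (hV c hc).1) (left_mem_Kc y z) c hc,
    key z h.xz.1 (fun k c hc => h.FRz k hc) (fun c hc => (hV c hc).2) (right_mem_Kc y z) c hc⟩

theorem RC_V_Th (h : PP x y z m) (k : ℤ) :
    RC y z (V (pw x k) (U2 x (y * z) m)) :=
  (FR_iff (CC_Th_xy h).1 (CC_Th_xz h).1 (CC_Th_yz h).1).1 (FR_Th h k)

theorem CC_V_Th (h : PP x y z m) (k : ℤ) :
    CC y z (V (pw x k) (U2 x (y * z) m)) := by
  refine ⟨RC_V_Th h k, RC_op.1 ?_⟩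
  rw [← V_op, ← U2_op, ← pw_op, MulOpposite.op_mul]
  exact RC_comm (RC_V_Th (PP_op.2 h).swap23 k)

theorem PP_Th (h : PP x y z m) : PP x y z (U2 x (y * z) m) := by
  refine ⟨CC_Th_xy h, CC_Th_xz h, CC_Th_yz h, fun k => CC_V_Th h k, ?_, ?_⟩
  · intro k
    rw [Th_cyc h.old, V_add, V_sub]
    exact CC_add (CC_sub ((PP_Vx (PP_Vyz h)).fy k) ((PP_Vy (PP_Vzx h)).fy k))
      (CC_comm (CC_V_Th h.cyc k))
  · intro k
    rw [Th_cyc2 h.old, V_add, V_sub]
    exact CC_add (CC_sub ((PP_Vx (PP_Vyz h)).fz k) ((PP_Vz (PP_Vxy h)).fz k))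
      (CC_V_Th h.cyc.cyc k)

theorem opr_PP (h : PP x y z m) (i : Fin 10) : PP x y z (opr x y z i m) := by
  fin_cases i
  · exact PP_Vx h
  · exact PP_Vy h
  · exact PP_Vz h
  · exact PP_Ux h
  · exact PP_Uy h
  · exact PP_Uz h
  · exact PP_U2xy h
  · exact PP_U2xz h
  · exact PP_U2yz h
  · exact PP_Th h

end

end
end Pool.Agent.Lib.MP_1b6260_al
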