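import Pool.Agent.Lib.MP_1b6260_al.Cls

set_option autoImplicit false

namespace Pool.Agent.Lib.MP_1b6260_al

open Pool.Agent.Lib.MP_20522e_al

section
variable {A : Type*} [AltRing A]

open MulOpposite (op unop)

/-! ### commutation of the operators on the class `CC` -/

theorem V_V_comm {x y m a b : A} (hm : CC x y m) (ha : a ∈ Kc x y) (hb : b ∈ Kc x y) :
    V a (V b m) = V b (V a m) := by
  have h1 := V_mul_left hm.2 ha hb
  have h2 := V_mul_right hm.1 ha hb
  conv_lhs => rw [show V b m = b * m + m * b from rfl, V_add, h1, h2]
  rfl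

theorem V_U_comm {x y m a b : A} (hm : CC x y m) (ha : a ∈ Kc x y) (hb : b ∈ Kc x y) :
    V a (U b m) = U b (V a m) := by
  have h1 := V_mul_left (LC_mul_right hm.2 hb) ha hb
  have h2 := V_mul_right hm.1 ha hb
  rw [U_def' b m, h1, h2, ← U_def']

theorem V_U2_comm {x y m a p q : A} (hm : CC x y m) (ha : a ∈ Kc x y) (hp : p ∈ Kc x y)
    (hq : q ∈ Kc x y) : V a (U2 p q m) = U2 p q (V a m) := by
  rw [U2_def' p q m, V_add, V_mul_left (LC_mul_right hm.2 hq) ha hp,
    V_mul_left (LC_mul_right hm.2 hp) ha hq, V_mul_right hm.1 ha hq, V_mul_right hm.1 ha hp,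
    ← U2_def']

/-- `RC` from the relations with a generator as first factor -/
theorem RC_of_gen {x y m : A} [IV x] [IV y] (hx : ∀ c ∈ Kc x y, (m * x) * c = m * (c * x))
    (hy : ∀ c ∈ Kc x y, (m * y) * c = m * (c * y)) : RC x y m := by
  have inv : ∀ g : A, IV g → g ∈ Kc x y → iv g ∈ Kc x y →
      (∀ c ∈ Kc x y, (m * g) * c = m * (c * g)) →
      ∀ c ∈ Kc x y, (m * iv g) * c = m * (c * iv g) := by
    intro g _ hg hg' h c hc
    have skew : ∀ c ∈ Kc x y, (m * c) * g = m * (g * c) := by
      intro c hc
      have h1 := ra2 g c m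
      rw [h c hc] at h1
      linear_combination (norm := abel) h1
    have skew' : (m * c) * iv g = m * (iv g * c) := by
      have h1 := skew (iv g * c) (mul_mem hg' hc)
      rw [mul_iv_cancel] at h1
      rw [← h1, mul_mul_iv]
    have h1 := ra2 (iv g) c m
    rw [skew'] at h1
    linear_combination (norm := abel) h1
  intro a ha
  induction ha using Kc_induction with
  | one => intro b _; rw [mul_one, mul_one]
  | left => exact hx
  | right => exact hy
  | ivl => exact inv x inferInstance (left_mem_Kc x y) (ivl_mem_Kc x y) hx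
  | ivr => exact inv y inferInstance (right_mem_Kc x y) (ivr_mem_Kc x y) hy
  | zero => intro b _; simp
  | add a b _ _ iha ihb =>
    intro c hc
    rw [mul_add, add_mul, mul_add, mul_add, iha c hc, ihb c hc]
  | neg a _ iha =>
    intro c hc
    rw [mul_neg, neg_mul, mul_neg, mul_neg, iha c hc]
  | mul a b ha hb iha ihb =>
    intro c hc
    have skew : ∀ c ∈ Kc x y, (m * c) * a = m * (a * c) := by
      intro c hc
      have h1 := ra2 a c m
      rw [iha c hc] at h1
      linear_combination (norm := abel) h1
    have e1 : m * (a * b) = (m * b) * a := (ihb a ha).symm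
    rw [e1]
    have e2 := ra2 a c (m * b)
    have e3 : m * b * c * a = m * (a * (c * b)) := by
      rw [ihb c hc, skew _ (mul_mem hc hb)]
    have e4 : m * b * (a * c) = m * ((a * c) * b) := ihb _ (mul_mem ha hc)
    have e5 : m * b * (c * a) = m * ((c * a) * b) := ihb _ (mul_mem hc ha)
    rw [e3, e4, e5, artin_assoc ha hc hb, artin_assoc hc ha hb] at e2
    linear_combination (norm := abel) e2

/-! ### words -/

/-- letters: the first component tells the generator, the second one is true for the generator
itself and false for the inverse -/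
noncomputable def lt (x y : A) : Bool × Bool → A
  | (true, true) => x
  | (false, true) => y
  | (true, false) => iv x
  | (false, false) => iv y

/-- evaluation of words -/
noncomputable def ev (x y : A) : List (Bool × Bool) → A
  | [] => 1
  | b :: l => lt x y b * ev x y l

/-- iterated right multiplications -/
noncomputable def rho (x y : A) : List (Bool × Bool) → A → A
  | [], m => m
  | b :: l, m => rho x y l m * lt x y b

theorem lt_mem (x y : A) (b : Bool × Bool) : lt x y b ∈ Kc x y := by
  obtain ⟨b, s⟩ := b
  cases b <;> cases s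
  · exact ivr_mem_Kc x y
  · exact right_mem_Kc x y
  · exact ivl_mem_Kc x y
  · exact left_mem_Kc x y

theorem ev_mem (x y : A) (l : List (Bool × Bool)) : ev x y l ∈ Kc x y := by
  induction l with
  | nil => exact one_mem_Kc x y
  | cons b l ih => exact mul_mem (lt_mem x y b) ih

theorem ev_append (x y : A) (l l' : List (Bool × Bool)) :
    ev x y (l ++ l') = ev x y l * ev x y l' := by
  induction l with
  | nil => simp [ev]
  | cons b l ih =>
    rw [List.cons_append, ev, ev, ih, artin_assoc (lt_mem x y b) (ev_mem x y l) (ev_mem x y l')]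

theorem rho_append (x y : A) (l l' : List (Bool × Bool)) (m : A) :
    rho x y (l ++ l') m = rho x y l (rho x y l' m) := by
  induction l with
  | nil => rfl
  | cons b l ih => rw [List.cons_append, rho, rho, ih]

theorem Kc_span {x y a : A} (ha : a ∈ Kc x y) :
    a ∈ AddSubgroup.closure (Set.range (ev x y)) := by
  induction ha using Kc_induction with
  | one => exact AddSubgroup.subset_closure ⟨[], rfl⟩
  | left => exact AddSubgroup.subset_closure ⟨[(true, true)], by simp [ev, lt]⟩
  | right => exact AddSubgroup.subset_closure ⟨[(false, true)], by simp [ev, lt]⟩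
  | ivl => exact AddSubgroup.subset_closure ⟨[(true, false)], by simp [ev, lt]⟩
  | ivr => exact AddSubgroup.subset_closure ⟨[(false, false)], by simp [ev, lt]⟩
  | zero => exact zero_mem _
  | add a b _ _ iha ihb => exact add_mem iha ihb
  | neg a _ iha => exact neg_mem iha
  | mul a b _ _ iha ihb =>
    clear * - iha ihb
    induction iha using AddSubgroup.closure_induction with
    | mem a ha =>
      obtain ⟨l, rfl⟩ := ha
      induction ihb using AddSubgroup.closure_induction with
      | mem b hb =>
        obtain ⟨l', rfl⟩ := hb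
        exact AddSubgroup.subset_closure ⟨l ++ l', ev_append x y l l'⟩
      | zero => rw [mul_zero]; exact zero_mem _
      | add b c _ _ ihb ihc => rw [mul_add]; exact add_mem ihb ihc
      | neg b _ ihb => rw [mul_neg]; exact neg_mem ihb
    | zero => rw [zero_mul]; exact zero_mem _
    | add b c _ _ ihb ihc => rw [add_mul]; exact add_mem ihb ihc
    | neg b _ ihb => rw [neg_mul]; exact neg_mem ihb

/-- positive words -/
def ps (l : List Bool) : List (Bool × Bool) := l.map (fun b => (b, true))

theorem lt_ps (x y : A) (b : Bool) :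
    lt x y (b, true) = Pool.Agent.Lib.MP_20522e_al.lt x y b := by
  cases b <;> rfl

theorem ev_ps (x y : A) (l : List Bool) :
    ev x y (ps l) = Pool.Agent.Lib.MP_20522e_al.ev x y l := by
  induction l with
  | nil => rfl
  | cons b l ih =>
    change lt x y (b, true) * ev x y (ps l) = _ * _
    rw [ih, lt_ps]

theorem rho_ps (x y : A) (l : List Bool) (m : A) :
    rho x y (ps l) m = Pool.Agent.Lib.MP_20522e_al.rho x y l m := by
  induction l with
  | nil => rfl
  | cons b l ih =>
    change rho x y (ps l) m * lt x y (b, true) = _ * _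
    rw [ih, lt_ps]

section module
variable {x y : A} [IV x] [IV y] (N : AddSubgroup A) (hx : ∀ m ∈ N, m * x ∈ N)
  (hy : ∀ m ∈ N, m * y ∈ N) (hx' : ∀ m ∈ N, m * iv x ∈ N) (hy' : ∀ m ∈ N, m * iv y ∈ N)
  (h1 : ∀ m ∈ N, (m * y) * x = m * (x * y)) (h2 : ∀ m ∈ N, (m * x) * y = m * (y * x))
include hx hy hx' hy'

theorem lt_closed (b : Bool × Bool) {m : A} (hm : m ∈ N) : m * lt x y b ∈ N := by
  obtain ⟨b, s⟩ := b
  cases b <;> cases s
  · exact hy' m hm
  · exact hy m hm
  · exact hx' m hm
  · exact hx m hm

theorem rho_mem (l : List (Bool × Bool)) {m : A} (hm : m ∈ N) : rho x y l m ∈ N := by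
  induction l with
  | nil => exact hm
  | cons b l ih => exact lt_closed N hx hy hx' hy' b ih

theorem word_flip {b : Bool} {s : Bool} {l : List (Bool × Bool)}
    (hl : ∀ m ∈ N, m * ev x y l = rho x y l m)
    (h : ∀ m ∈ N, m * ev x y ((b, s) :: l) = rho x y ((b, s) :: l) m) :
    ∀ m ∈ N, m * ev x y ((b, !s) :: l) = rho x y ((b, !s) :: l) m := by
  intro m hm
  have hβ : IV (lt x y (b, s)) ∧ lt x y (b, !s) = iv (lt x y (b, s)) := by
    cases b <;> cases s
    · exact ⟨inferInstanceAs (IV (iv y)), (iv_iv y).symm⟩
    · exact ⟨inferInstanceAs (IV y), rfl⟩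
    · exact ⟨inferInstanceAs (IV (iv x)), (iv_iv x).symm⟩
    · exact ⟨inferInstanceAs (IV x), rfl⟩
  obtain ⟨hI, hinv⟩ := hβ
  set β := lt x y (b, s) with hβdef
  set e := ev x y l with he
  have S : ∀ m ∈ N, m * (β * e) = (m * e) * β := by
    intro m hm
    have := h m hm
    change m * (β * e) = rho x y l m * β at this
    rw [this, ← hl m hm]
  have T : ∀ m ∈ N, (m * β) * e = m * (e * β) := by
    intro m hm
    have h1 := ra2 β e m
    rw [S m hm] at h1
    linear_combination (norm := abel) h1
  have key : ∀ m ∈ N, (m * β) * (iv β * e) = ((m * β) * e) * iv β := by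
    intro m hm
    have h1 := rmouf m β (iv β * e)
    rw [mul_iv_cancel, ← T m hm] at h1
    rw [← h1, mul_mul_iv]
  have hm' : m * iv β ∈ N := by
    rw [← hinv]; exact lt_closed N hx hy hx' hy' _ hm
  have h2 := key _ hm'
  rw [mul_iv_mul] at h2
  change m * (lt x y (b, !s) * e) = rho x y l m * lt x y (b, !s)
  rw [hinv, h2, hl m hm]

include h1 h2

theorem word_all (n : ℕ) : ∀ l : List (Bool × Bool), l.length = n → ∀ m ∈ N,
    m * ev x y l = rho x y l m := by
  induction n using Nat.strong_induction_on with
  | _ n ih =>
  have W : ∀ l' : List (Bool × Bool), l'.length < n → ∀ m ∈ N, m * ev x y l' = rho x y l' m :=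
    fun l' hl' => ih l'.length hl' l' rfl
  -- rotation
  have rot : ∀ p q : List (Bool × Bool), p.length < n → q.length < n →
      (∀ m ∈ N, m * ev x y (q ++ p) = rho x y (q ++ p) m) →
      ∀ m ∈ N, m * ev x y (p ++ q) = rho x y (p ++ q) m := by
    intro p q hp hq h m hm
    have e := ra2 (ev x y p) (ev x y q) m
    have hm' := h m hm
    rw [ev_append, rho_append] at hm' ⊢
    rw [W p hp m hm, W q hq m hm, W q hq _ (rho_mem N hx hy hx' hy' p hm),
      W p hp _ (rho_mem N hx hy hx' hy' q hm)] at e
    rw [hm'] at e
    linear_combination (norm := abel) -e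
  have pos : ∀ l : List Bool, ∀ m ∈ N, m * ev x y (ps l) = rho x y (ps l) m := by
    intro l m hm
    rw [ev_ps, rho_ps]
    exact word_aux N hx hy h1 h2 _ l le_rfl m hm
  have main : ∀ q : List (Bool × Bool), ∀ p : List Bool, p.length + q.length = n →
      ∀ m ∈ N, m * ev x y (ps p ++ q) = rho x y (ps p ++ q) m := by
    intro q
    induction q with
    | nil => intro p _; rw [List.append_nil]; exact pos p
    | cons c q ihq =>
      intro p hp
      obtain ⟨b, s⟩ := c
      have hlen : (ps p).length = p.length := by simp [ps]
      simp only [List.length_cons] at hp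
      have hlen2 : (p ++ [b]).length + q.length = n := by
        simp only [List.length_append, List.length_cons, List.length_nil]
        omega
      have hih := ihq (p ++ [b]) hlen2
      have e1 : ps (p ++ [b]) ++ q = ps p ++ ((b, true) :: q) := by simp [ps]
      rw [e1] at hih
      cases s
      · -- negative letter
        have hflip : (∀ m ∈ N, m * ev x y ((b, true) :: (q ++ ps p)) =
            rho x y ((b, true) :: (q ++ ps p)) m) →
            ∀ m ∈ N, m * ev x y ((b, false) :: (q ++ ps p)) =
            rho x y ((b, false) :: (q ++ ps p)) m := fun h =>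
          word_flip N hx hy hx' hy' (s := true) (W _ (by
            rw [List.length_append, hlen]; omega)) h
        by_cases hp0 : p = []
        · subst hp0
          have := hflip (by simpa [ps] using hih)
          simpa [ps] using this
        · have hpl : 0 < p.length := List.length_pos_iff.mpr hp0
          have h3 := rot ((b, true) :: q) (ps p) (by simp only [List.length_cons]; omega)
            (by rw [hlen]; omega) hih
          have h4 := hflip h3
          exact rot (ps p) ((b, false) :: q) (by rw [hlen]; omega)
            (by simp only [List.length_cons]; omega) h4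
      · exact hih
  intro l hl
  have := main l [] (by simpa using hl)
  simpa [ps] using this

theorem RC_of_module {m : A} (hm : m ∈ N) : RC x y m := by
  have key : ∀ b : Bool, ∀ c ∈ Kc x y, (m * lt x y (b, true)) * c = m * (c * lt x y (b, true)) := by
    intro b c hc
    have hc' := Kc_span hc
    clear hc
    induction hc' using AddSubgroup.closure_induction with
    | mem c hc =>
      obtain ⟨l, rfl⟩ := hc
      have e1 : ev x y l * lt x y (b, true) = ev x y (l ++ [(b, true)]) := by
        rw [ev_append]; simp [ev]
      have e2 : m * lt x y (b, true) ∈ N := lt_closed N hx hy hx' hy' _ hm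
      rw [e1, word_all N hx hy hx' hy' h1 h2 _ _ rfl m hm,
        word_all N hx hy hx' hy' h1 h2 _ _ rfl _ e2, rho_append]
      rfl
    | zero => simp
    | add b c _ _ ihb ihc => rw [mul_add, ihb, ihc, add_mul, mul_add]
    | neg b _ ihb => rw [mul_neg, ihb, neg_mul, mul_neg]
  exact RC_of_gen (key true) (key false)

end module

end
end Pool.Agent.Lib.MP_1b6260_al
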